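import Pool.Agent.Helper76.EX.Sgl

set_option autoImplicit false

/-!
# The test function of one zero on the line or very near to it

Adapted from `Pool.Agent.Helper76.EX.Sgl`.
-/

namespace Pool.Agent.Helper61.NZ

open Complex Filter Topology Set MeasureTheory Metric
open scoped ComplexConjugate ContDiff
open Pool.Agent.V11271.LI (Zr zz mm reflE zz_refl mm_refl mm_one_le)
open Pool.Agent.Helper76.LW (cf_zeta Near finite_zeta)
open Pool.Agent.Helper76.EW (FF EE EE_near_one)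
open Pool.Agent.Helper76.EX
open Pool.Agent.Helper61.W (LT TF)

theorem near2 {Y θ0 ε Ts η ro N V Mu C : ℝ} (p0 : Zr) (h0 : 0 < θ0) (h1 : θ0 < Real.pi / 2) (hY : 1 ≤ Y)
    (htail : ∀ x : ℝ, Real.log Y / 2 ≤ |x| →
      ‖Gk Y θ0 x‖ ≤ Real.exp (ε * Y) * Real.exp (-2 * (|x| - Real.log Y / 2)))
    (hro : 0 < ro) (hro1 : ro ≤ 1 / 8) (hη : 0 < η) (hη1 : η ≤ 1 / 8)
    (hre : 2 * |(zz p0).re| ≤ η * ro)
    (hgap : ∀ ρ, ‖zz ρ - zz p0‖ ≤ ro → ‖zz ρ - zz p0‖ ≤ η * ro)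
    (hN : ∀ Γ : Finset Zr, (∀ ρ ∈ Γ, |(zz ρ).im - (zz p0).im| ≤ 1) → ∑ ρ ∈ Γ, mm ρ ≤ N)
    (hV : 0 ≤ V) (hlow : ∀ (Γ : Finset Zr) (B : ℂ → ℂ), Differentiable ℂ B → (∀ z, Xi0 z = PG Γ z * B z) →
      (∀ ρ ∈ Γ, ‖zz ρ - zz p0‖ ≤ 2) → (∀ ρ, ρ ∉ Γ → ro ≤ ‖zz ρ - zz p0‖) →
      Real.exp V ≤ ‖B (zz p0)‖ * ‖Mk Y θ0 (zz p0)‖)
    (hC : ∀ z : ℂ, |z.re| ≤ 1 → ‖Xi0 z‖ ≤ C)
    (hMu0 : 0 < Mu) (hMu : C * Real.exp (N * Real.log (1 / (ro / 4))) *
      (4 * Real.exp (2 * Real.pi * Y + (‖zz p0‖ + 1))) ≤ Real.exp Mu)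
    (hη2 : 32 * Mu * η ≤ 1 / 64) (hTs : 16 * (‖zz p0‖ + 1) ≤ Ts) :
    ∃ (g : ℝ → ℂ) (F τ : ℂ → ℂ), TF g ∧
      (∀ x, x ∉ Icc (-(Real.log Y / 2 + 1 / 4 / Ts)) (Real.log Y / 2 + 1 / 4 / Ts) → g x = 0) ∧
      (∀ z : ℂ, |z.re| ≤ 1 / 2 → LT g z = F z + τ z) ∧
      (∀ ρ : Zr, ‖zz ρ - zz p0‖ ≤ ro → 1 / 2 ≤ (FF F (zz ρ)).re ∧ ‖F (zz ρ)‖ ≤ 2 ∧ ‖F (-conj (zz ρ))‖ ≤ 2) ∧
      (∀ ρ : Zr, ro < ‖zz ρ - zz p0‖ → F (zz ρ) = 0 ∧ F (-conj (zz ρ)) = 0) ∧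
      ∀ z : ℂ, |z.re| ≤ 1 / 2 → ‖τ z‖ ≤ 2 * (Real.exp (-V) * Real.exp (ε * Y)) * Y * ‖EE (z / Ts)‖ := by
  classical
  set p := zz p0 with hp
  have hpre : |p.re| < 1 / 2 := cf_zeta.re_lt p0
  have hηro : η * ro ≤ 1 / 8 * ro := by gcongr
  have hpq : ‖p - (-conj p)‖ = 2 * |p.re| := by
    have : p - (-conj p) = ((2 * p.re : ℝ) : ℂ) := by
      apply Complex.ext
      · simp
        ring
      · simp
    rw [this, Complex.norm_real, Real.norm_eq_abs, abs_mul]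
    norm_num
  have hTs0 : 0 < Ts := by
    have := norm_nonneg p
    linarith
  -- the cluster
  obtain ⟨Γ0, hΓ0⟩ := exists_cluster p ro (by linarith)
  obtain ⟨Γ, hΓ⟩ : ∃ Γ : Finset Zr, ∀ ρ : Zr, ρ ∈ Γ ↔ ‖zz ρ - p‖ ≤ ro := by
    refine ⟨Γ0.filter fun ρ => ‖zz ρ - p‖ ≤ ro, fun ρ => ?_⟩
    rw [Finset.mem_filter, hΓ0]
    exact ⟨fun h => h.2, fun h => ⟨Or.inl h, h⟩⟩
  have hmir : ∀ ρ : Zr, ‖zz ρ - p‖ ≤ ro → ‖-conj (zz ρ) - p‖ ≤ 2 * (η * ro) := by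
    intro ρ hρ
    have e := norm_refl_sub (zz ρ) p
    rw [e]
    have h3 : ‖zz ρ - (-conj p)‖ ≤ ‖zz ρ - p‖ + ‖p - (-conj p)‖ := by
      calc ‖zz ρ - (-conj p)‖ = ‖(zz ρ - p) + (p - (-conj p))‖ := by ring_nf
        _ ≤ _ := norm_add_le _ _
    rw [hpq] at h3
    have h4 := hgap ρ hρ
    change ‖zz ρ - p‖ ≤ η * ro at h4
    linarith
  have hΓr : ∀ ρ, ρ ∈ Γ → reflE ρ ∈ Γ := by
    intro ρ hρ
    rw [hΓ] at hρ ⊢
    rw [zz_refl]
    have := hmir ρ hρ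
    linarith
  have hp0Γ : p0 ∈ Γ := by
    rw [hΓ]
    rw [← hp, sub_self, norm_zero]
    exact hro.le
  obtain ⟨B, hB, hBf, hB0⟩ := exists_B Γ
  have hΓ2 : ∀ ρ ∈ Γ, ‖zz ρ - p‖ ≤ 2 := by
    intro ρ hρ
    have := (hΓ ρ).mp hρ
    linarith
  have hΓi : ∀ ρ ∈ Γ, |(zz ρ).im - p.im| ≤ 1 := by
    intro ρ hρ
    have h3 := (hΓ ρ).mp hρ
    have := Complex.abs_im_le_norm (zz ρ - p)
    rw [Complex.sub_im] at this
    linarith
  have hΓout : ∀ ρ, ρ ∉ Γ → ro < ‖zz ρ - p‖ := by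
    intro ρ hρ
    rw [hΓ] at hρ
    push Not at hρ
    exact hρ
  have hNΓ := hN Γ hΓi
  have hlowB := hlow Γ B hB hBf hΓ2 (fun ρ hρ => (hΓout ρ hρ).le)
  -- the function
  set B0 : ℂ → ℂ := fun z => B z * Mk Y θ0 z with hB0def
  have hB0d : Differentiable ℂ B0 := hB.mul (Mk_diff Y θ0)
  have hB0p : Real.exp V ≤ ‖B0 p‖ := by
    rw [hB0def]
    simp only
    rw [norm_mul]
    exact hlowB
  have hV1 : 1 ≤ Real.exp V := Real.one_le_exp hV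
  have hd_p : ∀ z : ℂ, ‖z - p‖ = ro / 2 → ∀ ρ ∈ Γ, ro / 4 ≤ ‖z - zz ρ‖ := by
    intro z hz ρ hρ
    have h4 := hgap ρ ((hΓ ρ).mp hρ)
    have h5 : ‖z - p‖ ≤ ‖z - zz ρ‖ + ‖zz ρ - p‖ := by
      calc ‖z - p‖ = ‖(z - zz ρ) + (zz ρ - p)‖ := by ring_nf
        _ ≤ _ := norm_add_le _ _
    change ‖zz ρ - p‖ ≤ η * ro at h4
    linarith
  have hup : ∀ z ∈ ball p (ro / 2), ‖B0 z‖ ≤ Real.exp Mu := by
    intro z hz
    rw [mem_ball, dist_eq_norm] at hz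
    have h3 := B_up hC hB hBf (r := ro / 2) (a := ro / 4) (N := N) (by linarith) (by linarith) hpre.le
      (by linarith) (by linarith) hd_p hNΓ z hz.le
    have h4 := Mk_up (by linarith : (0:ℝ) ≤ Y) h0.le h1.le z
    have h5 : ‖z‖ ≤ ‖p‖ + 1 := by
      have : ‖z‖ ≤ ‖z - p‖ + ‖p‖ := by
        calc ‖z‖ = ‖(z - p) + p‖ := by ring_nf
          _ ≤ _ := norm_add_le _ _
      linarith
    have hC0 : 0 ≤ C := (norm_nonneg _).trans (hC 0 (by simp))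
    rw [hB0def]
    simp only
    rw [norm_mul]
    refine le_trans ?_ hMu
    gcongr
    refine h4.trans ?_
    gcongr
  have hnz : ∀ z ∈ ball p (ro / 2), B0 z ≠ 0 := by
    intro z hz h3
    rw [mem_ball, dist_eq_norm] at hz
    rw [hB0def] at h3
    simp only at h3
    have hzre : |z.re| ≤ 1 := by
      have h4 := Complex.abs_re_le_norm (z - p)
      rw [Complex.sub_re] at h4
      have h5 : |z.re| ≤ |z.re - p.re| + |p.re| := by
        calc |z.re| = |(z.re - p.re) + p.re| := by ring_nf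
          _ ≤ _ := abs_add_le _ _
      linarith
    rcases mul_eq_zero.mp h3 with h4 | h4
    · obtain ⟨ρ, hρ, hz2⟩ := hB0 z h4
      have := hΓout ρ hρ
      rw [← hz2] at this
      linarith
    · exact Mk_ne h0 h1.le hzre h4
  have hvar : ∀ w : ℂ, ‖w - p‖ ≤ 2 * (η * ro) → Near (B0 w / B0 p) (1 / 64) := by
    intro w hw
    apply Near.of_le
    have h3 : 0 < ro / 2 := by linarith
    have h4 : ‖w - p‖ ≤ ro / 2 / 2 := by linarith
    have h5 : ‖w - p‖ / (ro / 2) ≤ 4 * η := by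
      rw [div_le_iff₀ h3]
      linarith
    have h6 : 0 ≤ ‖w - p‖ / (ro / 2) := by positivity
    have h7 := var_le h3 (hB0d.differentiableOn) hnz hMu0 (fun z hz => by
      refine (hup z hz).trans ?_
      exact le_mul_of_one_le_right (Real.exp_pos Mu).le (hV1.trans hB0p)) h4 (by
      rw [mul_div_assoc]
      nlinarith)
    refine h7.trans ?_
    rw [mul_div_assoc]
    nlinarith
  have hB0pn : B0 p ≠ 0 := norm_pos_iff.mp (by linarith)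
  set u : ℂ := (B0 p)⁻¹ with hu
  have hun : ‖u‖ ≤ Real.exp (-V) := by
    rw [hu, norm_inv, Real.exp_neg]
    gcongr
  have hu0 : u ≠ 0 := inv_ne_zero hB0pn
  -- the kernel
  obtain ⟨s, hs1, hs2, hs3⟩ := exists_LP Γ
  have hlogY : 0 ≤ Real.log Y / 2 := div_nonneg (Real.log_nonneg hY) (by norm_num)
  have hTl : Tl (Real.log Y / 2) (Real.exp (ε * Y)) (Gk Y θ0) := ⟨Gk_cont h0 h1, htail⟩
  obtain ⟨G', hG', hG'L⟩ := hTl.rem_lin (Real.exp_pos _).le hlogY (hs3 ⟨p0, hp0Γ⟩) (fun w hw => by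
    obtain ⟨ρ, -, rfl⟩ := hs2 w hw
    exact (cf_zeta.re_lt ρ).le) (R := ‖p‖ + 1) (fun w hw => by
    obtain ⟨ρ, hρ, rfl⟩ := hs2 w hw
    have h3 := (hΓ ρ).mp hρ
    have : ‖zz ρ‖ ≤ ‖zz ρ - p‖ + ‖p‖ := by
      calc ‖zz ρ‖ = ‖(zz ρ - p) + p‖ := by ring_nf
        _ ≤ _ := norm_add_le _ _
    linarith) (F := B0) hB0d.continuous (fun z hz => by
    have := (Gk_transform (Y := Y) h0 h1 z).2
    unfold Helper61.W.LT
    rw [this, hBf, hs1, hB0def]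
    ring) u 0
  have hE' : 0 ≤ (‖u‖ + ‖(0 : ℂ)‖ * (‖p‖ + 1 + 1)) * Real.exp (ε * Y) := by positivity
  obtain ⟨g, hg, hgs, τ, hτ1, hτ2⟩ := hG'.smooth hlogY hE' hTs0
  have key : ∀ w : ℂ, ‖w - p‖ ≤ 2 * (η * ro) → Near (u * B0 w * EE (w / Ts)) (1 / 64 + 1 / 32) := by
    intro w hwc
    have n2 := hvar w hwc
    have n3 : Near (EE (w / Ts)) (1 / 32) := by
      apply Near.of_le
      have h3 : ‖w / (Ts : ℂ)‖ ≤ 1 / 16 := by
        rw [norm_div, Complex.norm_real, Real.norm_of_nonneg hTs0.le, div_le_iff₀ hTs0]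
        have : ‖w‖ ≤ ‖w - p‖ + ‖p‖ := by
          calc ‖w‖ = ‖(w - p) + p‖ := by ring_nf
            _ ≤ _ := norm_add_le _ _
        linarith
      refine (EE_near_one (by linarith)).trans (by linarith)
    have n4 := n2.mul n3
    have e : B0 w / B0 p * EE (w / Ts) = u * B0 w * EE (w / Ts) := by
      rw [hu]
      field_simp
    rw [← e]
    exact n4
  have hzero : ∀ ρ : Zr, ρ ∉ Γ → B0 (zz ρ) = 0 := by
    intro ρ hnot
    have h5 : Xi0 (zz ρ) = 0 := by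
      obtain ⟨B1, -, hB1, -⟩ := exists_B {ρ}
      rw [hB1]
      unfold PG
      have hne : analyticOrderNatAt riemannZeta (ρ : ℂ) ≠ 0 := by
        intro h6
        have := mm_one_le ρ
        unfold V11271.LI.mm at this
        rw [h6] at this
        norm_num at this
      rw [Finset.prod_singleton, sub_self, zero_pow hne, zero_mul]
    have h6 : PG Γ (zz ρ) ≠ 0 := PG_ne fun σ hσ he => hnot (by rw [zz_inj he]; exact hσ)
    have h7 : B (zz ρ) = 0 := by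
      have := hBf (zz ρ)
      rw [h5] at this
      exact (mul_eq_zero.mp this.symm).resolve_left h6
    rw [hB0def]
    simp only
    rw [h7, zero_mul]
  refine ⟨g, fun z => u * B0 z * EE (z / Ts), τ, hg, hgs, fun z hz => ?_, ?_, ?_, fun z hz => ?_⟩
  · rw [hτ1 z hz, hG'L z (by linarith), zero_mul, add_zero]
  · intro ρ hρ
    have hw : ‖zz ρ - p‖ ≤ 2 * (η * ro) := by
      have := hgap ρ hρ
      change ‖zz ρ - p‖ ≤ η * ro at this
      have h3 : 0 < η * ro := by positivity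
      linarith
    have n1 := key (zz ρ) hw
    have n2 := key (-conj (zz ρ)) (hmir ρ hρ)
    refine ⟨?_, (near_norm n1 (by norm_num)).1, (near_norm n2 (by norm_num)).1⟩
    exact (near_norm (n1.mul n2.conj) (by norm_num)).2
  · intro ρ h3
    have hnot : ρ ∉ Γ := by
      rw [hΓ]
      push Not
      exact h3
    have hnot2 : reflE ρ ∉ Γ := by
      intro h4
      apply hnot
      have h5 := hΓr _ h4
      have h6 : reflE (reflE ρ) = ρ := Pool.Agent.V11271.LI.refl0_refl0 ρ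
      rwa [h6] at h5
    constructor
    · show u * B0 (zz ρ) * EE (zz ρ / Ts) = 0
      rw [hzero ρ hnot]
      ring
    · show u * B0 (-conj (zz ρ)) * EE (-conj (zz ρ) / Ts) = 0
      have := hzero _ hnot2
      rw [zz_refl] at this
      rw [this]
      ring
  · refine (hτ2 z hz).trans ?_
    have h3 : Real.exp (2 * (Real.log Y / 2)) = Y := by
      rw [show 2 * (Real.log Y / 2) = Real.log Y by ring, Real.exp_log (by linarith)]
    rw [h3, norm_zero, zero_mul, add_zero]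
    gcongr

end Pool.Agent.Helper61.NZ
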