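import Pool.Agent.Helper61.NZ.Ne
import Pool.Agent.Helper76.EX.Par

set_option autoImplicit false

/-!
# Choice of the parameters

Adapted from `Pool.Agent.Helper76.EX.Par`.
-/

namespace Pool.Agent.Helper61.NZ

open Complex Filter Topology Set MeasureTheory Metric
open scoped ComplexConjugate ContDiff
open Pool.Agent.V11271.LI (Zr zz mm)
open Pool.Agent.Helper76.LW (cf_zeta finite_zeta UC UC.scale)
open Pool.Agent.Helper76.EW (FF EE EE_near_one etc_tf)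
open Pool.Agent.Helper76.EX
open Pool.Agent.Helper61.W (LT TF LT_bound)

lemma EE_decay2 : ∃ C : ℝ, 1 ≤ C ∧ ∀ (T : ℝ), 1 ≤ T → ∀ z : ℂ, |z.re| ≤ 1 / 2 →
    ‖EE (z / T)‖ ≤ C * T ^ 2 / (1 + |z.im|) ^ 2 := by
  obtain ⟨C, hC0, hC⟩ := LT_bound etc_tf 1
  refine ⟨2 * C + 1, by linarith, fun T hT z hz => ?_⟩
  have hT0 : 0 < T := by linarith
  have hre : |(z / (T : ℂ)).re| ≤ 1 := by
    have : (z / (T : ℂ)).re = z.re / T := by simp
    rw [this, abs_div, abs_of_pos hT0, div_le_iff₀ hT0]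
    linarith
  have him : (z / (T : ℂ)).im = z.im / T := by simp
  have h1 := hC (z / T) hre
  rw [him] at h1
  refine h1.trans ?_
  set y : ℝ := |z.im| with hy
  have hy0 : 0 ≤ y := abs_nonneg _
  have e1 : (z.im / T) ^ 2 = (y / T) ^ 2 := by
    rw [div_pow, div_pow, hy, sq_abs]
  rw [e1, div_le_div_iff₀ (by positivity) (by positivity)]
  have h2 : (1 + y) ^ 2 ≤ 2 * T ^ 2 * (1 + (y / T) ^ 2) ^ 2 := by
    have h3 : 1 + (y / T) ^ 2 ≤ (1 + (y / T) ^ 2) ^ 2 := by nlinarith [sq_nonneg (y / T)]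
    have h4 : (1 + y / T) ^ 2 ≤ 2 * (1 + (y / T) ^ 2) := by nlinarith [sq_nonneg (y / T - 1)]
    have h5 : 1 + y ≤ T * (1 + y / T) := by
      have : T * (1 + y / T) = T + y := by field_simp
      linarith
    have h6 : 0 ≤ 1 + y := by linarith
    calc (1 + y) ^ 2 ≤ (T * (1 + y / T)) ^ 2 := by gcongr
      _ = T ^ 2 * (1 + y / T) ^ 2 := by ring
      _ ≤ T ^ 2 * (2 * (1 + (y / T) ^ 2)) := by gcongr
      _ ≤ T ^ 2 * (2 * (1 + (y / T) ^ 2) ^ 2) := by gcongr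
      _ = _ := by ring
  calc C * (1 + y) ^ 2 ≤ C * (2 * T ^ 2 * (1 + (y / T) ^ 2) ^ 2) := by gcongr
    _ = (2 * C) * T ^ 2 * (1 + (y / T) ^ 2) ^ 2 := by ring
    _ ≤ (2 * C + 1) * T ^ 2 * (1 + (y / T) ^ 2) ^ 2 := by gcongr; linarith

lemma tau_arith2 {δ0 κ δ X CE E D : ℝ} (hX : 16 ≤ X) (hδ0 : 0 < δ0) (hκ0 : 0 < κ) (hκ1 : κ < 1)
    (hCE : 1 ≤ CE) (hδ16 : δ ≤ δ0 * κ / 16)
    (x3 : 2 * CE * X ^ 5 ≤ Real.exp (δ0 * κ / 4 * X))
    (hD : 0 < D) (hE : E ≤ CE * (X ^ 2) ^ 2 / D) (hE0 : 0 ≤ E) :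
    2 * (Real.exp (-(δ0 * (κ * X) / 2)) * Real.exp (δ0 / 8 * (κ * X))) * (κ * X) * E ≤
      Real.exp (-(δ * X)) / D := by
  have hX0 : 0 < X := by linarith
  have hYX : κ * X ≤ X := by nlinarith
  have e1 : Real.exp (-(δ0 * (κ * X) / 2)) * Real.exp (δ0 / 8 * (κ * X)) ≤
      Real.exp (-(δ0 * κ / 4 * X)) * Real.exp (-(δ * X)) := by
    rw [← Real.exp_add, ← Real.exp_add]
    apply Real.exp_le_exp.mpr
    have h5 := mul_le_mul_of_nonneg_right hδ16 hX0.le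
    nlinarith [mul_pos hδ0 (mul_pos hκ0 hX0)]
  calc 2 * (Real.exp (-(δ0 * (κ * X) / 2)) * Real.exp (δ0 / 8 * (κ * X))) * (κ * X) * E ≤
        2 * (Real.exp (-(δ0 * κ / 4 * X)) * Real.exp (-(δ * X))) * X * (CE * (X ^ 2) ^ 2 / D) := by
        gcongr
    _ = (2 * CE * X ^ 5) * (Real.exp (-(δ0 * κ / 4 * X)) * Real.exp (-(δ * X))) / D := by
        ring
    _ ≤ Real.exp (δ0 * κ / 4 * X) * (Real.exp (-(δ0 * κ / 4 * X)) * Real.exp (-(δ * X))) / D := by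
        gcongr
    _ = Real.exp (-(δ * X)) / D := by
        rw [← mul_assoc, ← Real.exp_add, add_neg_cancel, Real.exp_zero, one_mul]

lemma par_eta2 {X c : ℝ} (hX : 16 ≤ X) (hc0 : 0 < c) (x5 : 1024 * (20 + c) ≤ X) :
    32 * ((20 + c) * X) * (X ^ 3)⁻¹ ≤ 1 / 64 ∧ (X ^ 3)⁻¹ ≤ 1 / 8 := by
  have hX0 : 0 < X := by linarith
  have e1 : 32 * ((20 + c) * X) * (X ^ 3)⁻¹ = 32 * (20 + c) / X ^ 2 := by
    field_simp
  constructor
  · rw [e1, div_le_div_iff₀ (by positivity) (by norm_num)]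
    nlinarith
  · rw [inv_le_comm₀ (by positivity) (by norm_num)]
    have : X ≤ X ^ 3 := le_self_pow₀ (by linarith) (by norm_num)
    linarith

lemma par_dev {δ δ1 X L K1 ro r : ℝ} (hX : 16 ≤ X) (hL1 : 1 ≤ L) (hLX : L = Real.log X) (hδ : δ ≤ δ1 / 2)
    (hδ1 : 0 < δ1) (hro : 0 < ro) (hlogro : Real.log (1 / ro) ≤ K1 * L ^ 2 + δ * X / L - 1 - 2)
    (x10 : 2 * (K1 + 4) / δ1 * L ^ 3 ≤ X) (hK1 : 0 ≤ K1) (hr : r ≤ Real.exp (-(δ1 * X / L))) :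
    2 * r ≤ (X ^ 3)⁻¹ * ro := by
  have hX0 : 0 < X := by linarith
  have hL0 : 0 < L := by linarith
  have e1 : (X ^ 3)⁻¹ = Real.exp (-(3 * L)) := by
    rw [hLX, Real.exp_neg]
    congr 1
    rw [show (3 : ℝ) * Real.log X = ((3 : ℕ) : ℝ) * Real.log X by norm_num, Real.exp_nat_mul, Real.exp_log hX0]
  have e2 : ro = Real.exp (-Real.log (1 / ro)) := by
    rw [one_div, Real.log_inv, neg_neg, Real.exp_log hro]
  have h1 : (K1 + 4) * L ^ 2 ≤ δ1 / 2 * X / L := by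
    rw [le_div_iff₀ hL0]
    have : 2 * (K1 + 4) / δ1 * L ^ 3 = ((K1 + 4) * L ^ 2 * L) / (δ1 / 2) := by
      field_simp
    rw [this, div_le_iff₀ (by positivity)] at x10
    linarith
  have h2 : δ * X / L ≤ δ1 / 2 * X / L := by gcongr
  have h3 : L ≤ L ^ 2 := le_self_pow₀ hL1 (by norm_num)
  have h4 : δ1 * X / L = δ1 / 2 * X / L + δ1 / 2 * X / L := by ring
  have h5 : (2 : ℝ) ≤ Real.exp 1 := by
    have := Real.exp_one_gt_d9
    linarith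
  calc 2 * r ≤ Real.exp 1 * Real.exp (-(δ1 * X / L)) := by
        have := Real.exp_pos (-(δ1 * X / L))
        nlinarith [Real.exp_pos 1]
    _ = Real.exp (1 - δ1 * X / L) := by rw [← Real.exp_add]; ring_nf
    _ ≤ Real.exp (-(3 * L) + -Real.log (1 / ro)) := by
        apply Real.exp_le_exp.mpr
        nlinarith
    _ = (X ^ 3)⁻¹ * ro := by rw [Real.exp_add, ← e1, ← e2]

/-- the test function of one zero near the line, with all parameters chosen -/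
theorem near3 {c δ1 : ℝ} (hc0 : 0 < c) (hc : c < 4 * Real.pi) (hδ1 : 0 < δ1) :
    ∃ δ X0 : ℝ, 0 < δ ∧ δ ≤ 1 ∧ δ ≤ δ1 / 2 ∧ 3 ≤ X0 ∧
    ∀ X : ℝ, X0 ≤ X → ∀ p0 : Zr, |(zz p0).im| ≤ c * X → 0 ≤ (zz p0).re →
    |(zz p0).re| ≤ Real.exp (-(δ1 * X / Real.log X)) →
    ∃ (g : ℝ → ℂ) (F τ : ℂ → ℂ) (ro : ℝ), TF g ∧
      (∀ x, x ∉ Icc (-(Real.log X / 2)) (Real.log X / 2) → g x = 0) ∧ 0 < ro ∧ ro ≤ E0 δ X ∧
      |(zz p0).re| ≤ ro ∧
      (∀ z : ℂ, |z.re| ≤ 1 / 2 → LT g z = F z + τ z) ∧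
      (∀ ρ : Zr, ‖zz ρ - zz p0‖ ≤ ro → 1 / 2 ≤ (FF F (zz ρ)).re ∧ ‖F (zz ρ)‖ ≤ 2 ∧ ‖F (-conj (zz ρ))‖ ≤ 2) ∧
      (∀ ρ : Zr, ro < ‖zz ρ - zz p0‖ → F (zz ρ) = 0 ∧ F (-conj (zz ρ)) = 0) ∧
      ∀ z : ℂ, |z.re| ≤ 1 / 2 → ‖τ z‖ ≤ Real.exp (-(δ * X)) / (1 + |z.im|) ^ 2 := by
  have hpi := Real.pi_pos
  -- the ratio of the two lengths
  obtain ⟨κ, hκ0, hκ1, hc'⟩ : ∃ κ : ℝ, 0 < κ ∧ κ < 1 ∧ c / κ < 4 * Real.pi := by
    have hc4 : c / (4 * Real.pi) < 1 := by rw [div_lt_one (by positivity)]; exact hc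
    have hc40 : 0 < c / (4 * Real.pi) := by positivity
    refine ⟨(1 + c / (4 * Real.pi)) / 2, by linarith, by linarith, ?_⟩
    rw [div_lt_iff₀ (by linarith)]
    have hκc : c / (4 * Real.pi) < (1 + c / (4 * Real.pi)) / 2 := by linarith
    rw [div_lt_iff₀ (by positivity)] at hκc
    linarith
  obtain ⟨δ0, θ1, hδ0, hθ1, hθ1', hM⟩ := Mk_low (c := c / κ) (by positivity) hc'
  obtain ⟨θ2, hθ2, hθ2', hG⟩ := Gk_tail (ε := δ0 / 8) (by positivity)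
  obtain ⟨θ0, hθ0⟩ : ∃ θ0, θ0 = max θ1 θ2 := ⟨_, rfl⟩
  have h0 : 0 < θ0 := by rw [hθ0]; exact lt_of_lt_of_le hθ1 (le_max_left _ _)
  have h1 : θ0 < Real.pi / 2 := by rw [hθ0]; exact max_lt hθ1' hθ2'
  obtain ⟨Ya, hYa, hMa⟩ := hM θ0 (by rw [hθ0]; exact le_max_left _ _) h1.le
  obtain ⟨Yb, hYb, hGb⟩ := hG θ0 (by rw [hθ0]; exact le_max_right _ _) h1
  clear hM hG hθ0 hθ1 hθ1' hθ2 hθ2' hc'
  obtain ⟨A, hA1, hA⟩ := local_lower
  obtain ⟨b, hb1, hb⟩ := wcount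
  obtain ⟨C, hC1, hC⟩ := Xi0_bound
  obtain ⟨B1, hB1, hB⟩ := cf_zeta.unit_count
  obtain ⟨CE, hCE1, hCE⟩ := EE_decay2
  -- the exponent
  obtain ⟨δ, hδpos, hδ1', hδA, hδb, hδ16, hδ12⟩ : ∃ δ : ℝ, 0 < δ ∧ δ ≤ 1 ∧ A * δ ≤ δ0 * κ / 16 ∧ b * δ ≤ 1 / 4 ∧
      δ ≤ δ0 * κ / 16 ∧ δ ≤ δ1 / 2 := by
    obtain ⟨m, hm⟩ : ∃ m, m = min (min (min 1 (δ0 * κ / (16 * A))) (1 / (4 * b))) (δ1 / 2) := ⟨_, rfl⟩
    have g0 : 0 < m := by rw [hm]; positivity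
    have m1 : m ≤ min (min 1 (δ0 * κ / (16 * A))) (1 / (4 * b)) := by rw [hm]; exact min_le_left _ _
    have g1 : A * m ≤ δ0 * κ / 16 := by
      have : m ≤ δ0 * κ / (16 * A) := m1.trans ((min_le_left _ _).trans (min_le_right _ _))
      rw [le_div_iff₀ (by positivity)] at this
      linarith
    refine ⟨m, g0, m1.trans ((min_le_left _ _).trans (min_le_left _ _)), g1, ?_, ?_, ?_⟩
    · have : m ≤ 1 / (4 * b) := m1.trans (min_le_right _ _)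
      rw [le_div_iff₀ (by positivity)] at this
      linarith
    · refine le_trans ?_ g1
      exact le_mul_of_one_le_left g0.le hA1
    · rw [hm]
      exact min_le_right _ _
  obtain ⟨K1, hK1⟩ : ∃ K1, K1 = 24 * B1 + 6 := ⟨_, rfl⟩
  have hK10 : 0 ≤ K1 := by rw [hK1]; positivity
  -- eventual inequalities
  have hev : ∀ᶠ X : ℝ in atTop,
      (8 * A * K1 / (δ0 * κ) * Real.log X ^ 3 ≤ X) ∧ (4 * b * K1 * Real.log X ^ 3 ≤ X) ∧
      (2 * CE * X ^ 5 ≤ Real.exp (δ0 * κ / 4 * X)) ∧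
      (max (Ya / κ) (Yb / κ) ≤ X) ∧ (1024 * (20 + c) ≤ X) ∧ (1 / (-Real.log κ) ≤ X) ∧
      (1 / κ ≤ X) ∧ (Real.log (4 * C) ≤ X) ∧ 16 * (c + 3) ≤ X ∧ 2 * (K1 + 4) / δ1 * Real.log X ^ 3 ≤ X := by
    refine (ev_log _ 3).and ((ev_log _ 3).and ((ev_exp _ 5 (by positivity)).and
      ((eventually_ge_atTop _).and ((eventually_ge_atTop _).and ((eventually_ge_atTop _).and
      ((eventually_ge_atTop _).and ((eventually_ge_atTop _).and ((eventually_ge_atTop _).and (ev_log _ 3)))))))))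
  obtain ⟨X1, hX1⟩ := eventually_atTop.mp hev
  refine ⟨δ, max X1 16, hδpos, hδ1', hδ12, le_trans (by norm_num) (le_max_right _ _), fun X hX p0 hp1 hp0 hp2 => ?_⟩
  obtain ⟨x1, x2, x3, x4, x5, x6, x7, x8, x9, x10⟩ := hX1 X ((le_max_left _ _).trans hX)
  have hX16 : 16 ≤ X := (le_max_right _ _).trans hX
  clear hX1 hev hX
  have hX0 : 0 < X := by linarith
  have hL1 : 1 ≤ Real.log X := by
    rw [Real.le_log_iff_exp_le hX0]
    have := Real.exp_one_lt_d9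
    linarith
  have hYa' : Ya ≤ κ * X := by
    have := (le_max_left _ _).trans x4
    rw [div_le_iff₀ hκ0] at this
    linarith
  have hYb' : Yb ≤ κ * X := by
    have := (le_max_right _ _).trans x4
    rw [div_le_iff₀ hκ0] at this
    linarith
  have hY1 : 1 ≤ κ * X := hYa.trans hYa'
  have hcY : c / κ * (κ * X) = c * X := by
    field_simp
  have hpre : |(zz p0).re| < 1 / 2 := cf_zeta.re_lt p0
  have hpn : ‖zz p0‖ ≤ 1 + c * X := by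
    have h2 := Complex.norm_le_abs_re_add_abs_im (zz p0)
    linarith
  have hlogc := par_log hX16 x9 hp1 (abs_nonneg _)
  have hlogT := par_logT hc0 hX16 x9
  obtain ⟨hT2, hη4, hTs, hcT, hX21⟩ := par_misc hX16 hc0 x9 hpn
  -- the gap
  have huc : UC zz ((c + 2) * X) (B1 * Real.log ((c + 2) * X)) := fun a S hS => hB _ hT2 a S hS
  have hE0 : 0 < E0 δ X := E0_pos δ X
  have hE01 := par_E01 hδpos hX16 hL1
  have hη1 : (X ^ 3)⁻¹ ≤ 1 := by linarith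
  have hη0 : 0 < (X ^ 3)⁻¹ := by positivity
  obtain ⟨k, hk, hgap⟩ := huc.scale hT2 (zz p0) (hp1.trans hcT) (h' := E0 δ X / 2) (by positivity) (by linarith)
    (η := (X ^ 3)⁻¹) hη0 hη1 (finite_zeta (16 * ((c + 2) * X)) (by positivity))
  have hlogro := par_ro (δ := δ) hX16 hL1 hB1 hk hlogT hK1
  obtain ⟨ro, hro⟩ : ∃ ro : ℝ, ro = ((X ^ 3)⁻¹) ^ k * (E0 δ X / 2) := ⟨_, rfl⟩
  have hro0 : 0 < ro := by rw [hro]; positivity
  have hroE : ro ≤ E0 δ X / 2 := by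
    rw [hro]
    exact mul_le_of_le_one_left (by positivity) (pow_le_one₀ hη0.le hη1)
  have hgap' : ∀ ρ, ‖zz ρ - zz p0‖ ≤ ro → ‖zz ρ - zz p0‖ ≤ (X ^ 3)⁻¹ * ro := by
    intro ρ hρ
    rw [hro] at hρ ⊢
    have := hgap ρ hρ
    rw [← mul_assoc, ← pow_succ']
    exact this
  rw [← hro] at hlogro
  clear hgap huc hk hro
  have hlogro0 : 0 ≤ Real.log (1 / ro) := Real.log_nonneg (by
    rw [le_div_iff₀ hro0]
    linarith)
  -- lower bound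
  have hVbound := par_V hA1 hδ0 hκ0 hX0 hL1 hδA hlogc (by linarith) hlogro0 x1
  have hlow : ∀ (Γ : Finset Zr) (B : ℂ → ℂ), Differentiable ℂ B → (∀ z, Xi0 z = PG Γ z * B z) →
      (∀ ρ ∈ Γ, ‖zz ρ - zz p0‖ ≤ 2) → (∀ ρ, ρ ∉ Γ → ro ≤ ‖zz ρ - zz p0‖) →
      Real.exp (δ0 * (κ * X) / 2) ≤ ‖B (zz p0)‖ * ‖Mk (κ * X) θ0 (zz p0)‖ := by
    intro Γ B hBd hBf h2 h3
    have h4 := hA (zz p0) Γ B ro hp0 (abs_lt.mp hpre).2.le hro0 (by linarith) hBd hBf h2 h3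
    have h5 := hMa (κ * X) hYa' (zz p0) (by linarith) (by rw [hcY]; exact hp1)
    calc Real.exp (δ0 * (κ * X) / 2) ≤
          Real.exp (-(A * Real.log (3 + |(zz p0).im|) * (1 + Real.log (1 / ro))) - Real.pi * |(zz p0).im| / 4) *
            Real.exp (δ0 * (κ * X) + Real.pi * |(zz p0).im| / 4) := by
          rw [← Real.exp_add]
          apply Real.exp_le_exp.mpr
          linarith
      _ ≤ _ := by gcongr
  -- counting
  have hN : ∀ Γ : Finset Zr, (∀ ρ ∈ Γ, |(zz ρ).im - (zz p0).im| ≤ 1) → ∑ ρ ∈ Γ, mm ρ ≤ 2 * b * Real.log X := by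
    intro Γ hΓ
    refine (hb (zz p0).im Γ hΓ).trans ?_
    calc b * Real.log (3 + |(zz p0).im|) ≤ b * (2 * Real.log X) := by gcongr
      _ = _ := by ring
  have hYX : κ * X ≤ X := mul_le_of_le_one_left hX0.le hκ1.le
  have hMu := par_Mu hb1 hX16 hL1 hro0 hC1 hδb hlogro x2 x8 hYX (by linarith) hpn
  obtain ⟨hη2, hη8⟩ := par_eta2 hX16 hc0 x5
  have hdev := par_dev hX16 hL1 rfl hδ12 hδ1 hro0 hlogro x10 hK10 hp2
  obtain ⟨g, F, τ, g1, g2, g3, g5, g6, g7⟩ := near2 (Y := κ * X) (θ0 := θ0) (ε := δ0 / 8) (Ts := X ^ 2)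
    (η := (X ^ 3)⁻¹) (ro := ro) (N := 2 * b * Real.log X) (V := δ0 * (κ * X) / 2) (Mu := (20 + c) * X) (C := C) p0 h0 h1
    hY1 (fun x hx => hGb (κ * X) hYb' x hx) hro0 (by linarith) hη0 hη8 hdev hgap' hN (by positivity) hlow hC
    (by positivity) hMu hη2 hTs
  have hsupp := par_supp hκ0 hκ1 hX16 x6
  refine ⟨g, F, τ, ro, g1, fun x hx => g2 x fun hx2 => hx ?_, hro0, by linarith, ?_, g3, g5, g6, fun z hz => ?_⟩
  · constructor
    · linarith [hx2.1]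
    · linarith [hx2.2]
  · have : (X ^ 3)⁻¹ * ro ≤ 1 * ro := by gcongr
    have h2 := abs_nonneg (zz p0).re
    linarith
  · -- the error
    refine (g7 z hz).trans ?_
    have h2 := hCE (X ^ 2) hX21 z hz
    exact tau_arith2 hX16 hδ0 hκ0 hκ1 hCE1 hδ16 x3 (by positivity) h2 (norm_nonneg _)

end Pool.Agent.Helper61.NZ
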