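import Pool.Agent.Helper61.NZ.Nf
import Pool.Agent.Helper61.GA.Zt

set_option autoImplicit false

/-!
# The values of Weil's form at the test function of one zero
-/

namespace Pool.Agent.Helper61.NZ

open Complex Filter Topology Set MeasureTheory
open scoped ComplexConjugate ContDiff
open Pool.Agent.V11271.LI (Zr zz mm mm_one_le)
open Pool.Agent.Helper76.LW (cf_zeta)
open Pool.Agent.Helper76.EW (FF)
open Pool.Agent.Helper61.W Pool.Agent.Helper61.W.GS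

lemma norm_mirror (z : ℂ) (γ : ℝ) : ‖-conj z - γ * I‖ = ‖z - γ * I‖ := by
  have : -conj z - γ * I = -conj (z - γ * I) := by
    rw [map_sub, map_mul, Complex.conj_ofReal, Complex.conj_I]
    ring
  rw [this, norm_neg, Complex.norm_conj]

/-- the sum over the zeros -/
noncomputable def S0 : ℝ := ∑' ρ : Zr, mm ρ / (1 + |(zz ρ).im|) ^ 2

lemma S0_sum : Summable fun ρ : Zr => mm ρ / (1 + |(zz ρ).im|) ^ 2 := cf_zeta.sum2

lemma S0_nonneg : 0 ≤ S0 := tsum_nonneg fun ρ => div_nonneg (by linarith [mm_one_le ρ]) (by positivity)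

variable {t ro : ℝ} {p0 : Zr} {g g1 : ℝ → ℂ} {F τ : ℂ → ℂ}

section

variable (h3 : ∀ z : ℂ, |z.re| ≤ 1 / 2 → LT g z = F z + τ z)
  (h5 : ∀ ρ : Zr, ‖zz ρ - zz p0‖ ≤ ro → 1 / 2 ≤ (FF F (zz ρ)).re ∧ ‖F (zz ρ)‖ ≤ 2 ∧ ‖F (-conj (zz ρ))‖ ≤ 2)
  (h6 : ∀ ρ : Zr, ro < ‖zz ρ - zz p0‖ → F (zz ρ) = 0 ∧ F (-conj (zz ρ)) = 0)
  (h7 : ∀ z : ℂ, |z.re| ≤ 1 / 2 → ‖τ z‖ ≤ t / (1 + |z.im|) ^ 2) (ht : 0 ≤ t)

include h7 ht in
lemma tau_le {z : ℂ} (hz : |z.re| ≤ 1 / 2) : ‖τ z‖ ≤ t := by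
  refine (h7 z hz).trans ?_
  apply div_le_self ht
  have : 0 ≤ |z.im| := abs_nonneg _
  nlinarith

lemma re_mirror {z : ℂ} (hz : |z.re| ≤ 1 / 2) : |(-conj z).re| ≤ 1 / 2 := by
  simpa using hz

lemma im_mirror (z : ℂ) : (-conj z).im = z.im := by simp

include h3 h6 h7 in
lemma far_le {ρ : Zr} (hρ : ro < ‖zz ρ - zz p0‖) :
    ‖LT g (zz ρ)‖ ≤ t / (1 + |(zz ρ).im|) ^ 2 ∧ ‖LT g (-conj (zz ρ))‖ ≤ t / (1 + |(zz ρ).im|) ^ 2 := by
  have hz : |(zz ρ).re| ≤ 1 / 2 := (cf_zeta.re_lt ρ).le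
  obtain ⟨e1, e2⟩ := h6 ρ hρ
  constructor
  · rw [h3 _ hz, e1, zero_add]
    exact h7 _ hz
  · rw [h3 _ (re_mirror hz), e2, zero_add]
    have := h7 _ (re_mirror hz)
    rwa [im_mirror] at this

include h3 h5 h7 ht in
lemma near_le (ht1 : t ≤ 1 / 20) {ρ : Zr} (hρ : ‖zz ρ - zz p0‖ ≤ ro) :
    ‖LT g (zz ρ)‖ ≤ 3 ∧ ‖LT g (-conj (zz ρ))‖ ≤ 3 := by
  have hz : |(zz ρ).re| ≤ 1 / 2 := (cf_zeta.re_lt ρ).le
  obtain ⟨-, e1, e2⟩ := h5 ρ hρ
  constructor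
  · rw [h3 _ hz]
    have := norm_add_le (F (zz ρ)) (τ (zz ρ))
    have := tau_le h7 ht hz
    linarith
  · rw [h3 _ (re_mirror hz)]
    have := norm_add_le (F (-conj (zz ρ))) (τ (-conj (zz ρ)))
    have := tau_le h7 ht (re_mirror hz)
    linarith

include h3 h5 h6 h7 ht in
/-- the value at the function -/
lemma value_ge (hg : TF g) (ht1 : t ≤ 1 / 20) (hro : 0 ≤ ro) : 1 / 4 - t ^ 2 * S0 ≤ (Wf g g).re := by
  have hS := summable_wt hg hg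
  have hS2 := S0_sum.mul_left (t ^ 2)
  have hre : (Wf g g).re = ∑' ρ : Zr, (wt g g ρ).re := by
    unfold GS.Wf
    exact Complex.re_tsum hS
  have hSr : Summable fun ρ : Zr => (wt g g ρ).re := (Complex.hasSum_re hS.hasSum).summable
  have hm : ∀ ρ : Zr, 0 ≤ mm ρ := fun ρ => by linarith [mm_one_le ρ]
  have hnear : ∀ ρ : Zr, ‖zz ρ - zz p0‖ ≤ ro → 1 / 4 ≤ (wt g g ρ).re := by
    intro ρ hρ
    have hz : |(zz ρ).re| ≤ 1 / 2 := (cf_zeta.re_lt ρ).le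
    obtain ⟨e0, e1, e2⟩ := h5 ρ hρ
    have t1 := tau_le h7 ht hz
    have t2 := tau_le h7 ht (re_mirror hz)
    have e : wt g g ρ = (mm ρ : ℂ) * (FF F (zz ρ) + (F (zz ρ) * conj (τ (-conj (zz ρ))) +
        τ (zz ρ) * conj (F (-conj (zz ρ))) + τ (zz ρ) * conj (τ (-conj (zz ρ))))) := by
      unfold GS.wt Helper76.EW.FF
      rw [h3 _ hz, h3 _ (re_mirror hz), map_add]
      ring
    have h8 : ‖F (zz ρ) * conj (τ (-conj (zz ρ))) +
        τ (zz ρ) * conj (F (-conj (zz ρ))) + τ (zz ρ) * conj (τ (-conj (zz ρ)))‖ ≤ 1 / 4 := by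
      refine (norm_add₃_le).trans ?_
      rw [norm_mul, norm_mul, norm_mul, Complex.norm_conj, Complex.norm_conj]
      have n1 := norm_nonneg (F (zz ρ))
      have n2 := norm_nonneg (F (-conj (zz ρ)))
      have n3 := norm_nonneg (τ (zz ρ))
      have n4 := norm_nonneg (τ (-conj (zz ρ)))
      calc ‖F (zz ρ)‖ * ‖τ (-conj (zz ρ))‖ + ‖τ (zz ρ)‖ * ‖F (-conj (zz ρ))‖ + ‖τ (zz ρ)‖ * ‖τ (-conj (zz ρ))‖ ≤
          2 * (1 / 20) + (1 / 20) * 2 + (1 / 20) * (1 / 20) := by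
            gcongr
            · exact t2.trans ht1
            · exact t1.trans ht1
            · exact t1.trans ht1
            · exact t2.trans ht1
        _ ≤ 1 / 4 := by norm_num
    have h9 := (abs_le.mp ((Complex.abs_re_le_norm _).trans h8)).1
    rw [e, Complex.re_ofReal_mul, Complex.add_re]
    have h10 := mm_one_le ρ
    nlinarith
  have hfar : ∀ ρ : Zr, ro < ‖zz ρ - zz p0‖ → -(t ^ 2 * (mm ρ / (1 + |(zz ρ).im|) ^ 2)) ≤ (wt g g ρ).re := by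
    intro ρ hρ
    obtain ⟨e1, e2⟩ := far_le h3 h6 h7 hρ
    have h8 : ‖wt g g ρ‖ ≤ t ^ 2 * (mm ρ / (1 + |(zz ρ).im|) ^ 2) := by
      unfold GS.wt
      rw [norm_mul, norm_mul, Complex.norm_conj, Complex.norm_real, Real.norm_of_nonneg (hm ρ)]
      have hD : 1 ≤ (1 + |(zz ρ).im|) ^ 2 := by
        have : 0 ≤ |(zz ρ).im| := abs_nonneg _
        nlinarith
      calc mm ρ * (‖LT g (zz ρ)‖ * ‖LT g (-conj (zz ρ))‖) ≤
          mm ρ * ((t / (1 + |(zz ρ).im|) ^ 2) * (t / (1 + |(zz ρ).im|) ^ 2)) := by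
            have := hm ρ
            gcongr
        _ = (t ^ 2 * (mm ρ / (1 + |(zz ρ).im|) ^ 2)) / (1 + |(zz ρ).im|) ^ 2 := by
            field_simp
        _ ≤ _ := div_le_self (by have := hm ρ; positivity) hD
    exact (abs_le.mp ((Complex.abs_re_le_norm _).trans h8)).1
  have hsum : Summable fun ρ : Zr => (wt g g ρ).re + t ^ 2 * (mm ρ / (1 + |(zz ρ).im|) ^ 2) := hSr.add hS2
  have hnn : ∀ ρ : Zr, 0 ≤ (wt g g ρ).re + t ^ 2 * (mm ρ / (1 + |(zz ρ).im|) ^ 2) := by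
    intro ρ
    rcases le_or_gt ‖zz ρ - zz p0‖ ro with h | h
    · have := hnear ρ h
      have h2 : 0 ≤ t ^ 2 * (mm ρ / (1 + |(zz ρ).im|) ^ 2) := by
        have := hm ρ
        positivity
      linarith
    · have := hfar ρ h
      linarith
  have h11 := hsum.le_tsum p0 (fun ρ _ => hnn ρ)
  rw [hSr.tsum_add hS2, tsum_mul_left, ← hre] at h11
  have h12 := hnear p0 (by rw [sub_self, norm_zero]; exact hro)
  have h13 : 0 ≤ t ^ 2 * (mm p0 / (1 + |(zz p0).im|) ^ 2) := by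
    have := hm p0
    positivity
  have h14 : S0 = ∑' ρ : Zr, mm ρ / (1 + |(zz ρ).im|) ^ 2 := rfl
  rw [← h14] at h11
  linarith

include h3 h5 h6 h7 ht in
/-- the value at the function divided by nothing and multiplied by the linear factor -/
lemma value1_le (hg : TF g1) (ht1 : t ≤ 1 / 20) (hro : 0 ≤ ro) (hro1 : ro ≤ 1)
    (hg1 : ∀ z : ℂ, LT g1 z = (z - ((zz p0).im : ℂ) * I) * LT g z) (hre : |(zz p0).re| ≤ ro) {M : ℝ}
    (hM : |(zz p0).im| ≤ M) :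
    (Wf g1 g1).re ≤ (36 * ro ^ 2 * (M + 2) ^ 2 + (M + 1) ^ 2 * t ^ 2) * S0 := by
  have hS := summable_wt hg hg
  have hm : ∀ ρ : Zr, 0 ≤ mm ρ := fun ρ => by linarith [mm_one_le ρ]
  have hM0 : 0 ≤ M := (abs_nonneg _).trans hM
  obtain ⟨γ, hγ⟩ : ∃ γ, γ = (zz p0).im := ⟨_, rfl⟩
  rw [← hγ] at hg1 hM
  have hterm : ∀ ρ : Zr, ‖wt g1 g1 ρ‖ ≤
      (36 * ro ^ 2 * (M + 2) ^ 2 + (M + 1) ^ 2 * t ^ 2) * (mm ρ / (1 + |(zz ρ).im|) ^ 2) := by
    intro ρ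
    have hmρ := hm ρ
    have hD : 0 < 1 + |(zz ρ).im| := by positivity
    have e : ‖wt g1 g1 ρ‖ = mm ρ * (‖zz ρ - γ * I‖ ^ 2 * (‖LT g (zz ρ)‖ * ‖LT g (-conj (zz ρ))‖)) := by
      unfold GS.wt
      rw [hg1, hg1, norm_mul, norm_mul, Complex.norm_conj, Complex.norm_real, Real.norm_of_nonneg hmρ, norm_mul,
        norm_mul, norm_mirror]
      ring
    rw [e]
    rcases le_or_gt ‖zz ρ - zz p0‖ ro with h | h
    · obtain ⟨e1, e2⟩ := near_le h3 h5 h7 ht ht1 h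
      have h8 : ‖zz ρ - γ * I‖ ≤ 2 * ro := by
        have h9 : ‖zz p0 - γ * I‖ = |(zz p0).re| := by
          have : zz p0 - γ * I = (((zz p0).re : ℝ) : ℂ) := by
            apply Complex.ext
            · simp
            · simp [hγ]
          rw [this, Complex.norm_real, Real.norm_eq_abs]
        calc ‖zz ρ - γ * I‖ = ‖(zz ρ - zz p0) + (zz p0 - γ * I)‖ := by ring_nf
          _ ≤ ‖zz ρ - zz p0‖ + ‖zz p0 - γ * I‖ := norm_add_le _ _
          _ ≤ _ := by rw [h9]; linarith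
      have h10 : 1 + |(zz ρ).im| ≤ M + 2 := by
        have h11 := Complex.abs_im_le_norm (zz ρ - zz p0)
        rw [Complex.sub_im, ← hγ] at h11
        have h12 : |(zz ρ).im| ≤ |(zz ρ).im - γ| + |γ| := by
          calc |(zz ρ).im| = |((zz ρ).im - γ) + γ| := by ring_nf
            _ ≤ _ := abs_add_le _ _
        linarith
      have h13 : 1 ≤ (M + 2) ^ 2 / (1 + |(zz ρ).im|) ^ 2 := by
        rw [one_le_div (by positivity)]
        gcongr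
      calc mm ρ * (‖zz ρ - γ * I‖ ^ 2 * (‖LT g (zz ρ)‖ * ‖LT g (-conj (zz ρ))‖)) ≤
          mm ρ * ((2 * ro) ^ 2 * (3 * 3)) := by gcongr
        _ = mm ρ * (36 * ro ^ 2) * 1 := by ring
        _ ≤ mm ρ * (36 * ro ^ 2) * ((M + 2) ^ 2 / (1 + |(zz ρ).im|) ^ 2) := by gcongr
        _ = (36 * ro ^ 2 * (M + 2) ^ 2 + 0) * (mm ρ / (1 + |(zz ρ).im|) ^ 2) := by ring
        _ ≤ _ := by gcongr; positivity
    · obtain ⟨e1, e2⟩ := far_le h3 h6 h7 h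
      have h8 : ‖zz ρ - γ * I‖ ≤ (M + 1) * (1 + |(zz ρ).im|) := by
        have h9 := Complex.norm_le_abs_re_add_abs_im (zz ρ - γ * I)
        have h10 : (zz ρ - γ * I).re = (zz ρ).re := by simp
        have h11 : (zz ρ - γ * I).im = (zz ρ).im - γ := by simp
        rw [h10, h11] at h9
        have h12 : |(zz ρ).im - γ| ≤ |(zz ρ).im| + |γ| := abs_sub _ _
        have hz : |(zz ρ).re| ≤ 1 / 2 := (cf_zeta.re_lt ρ).le
        have h13 := abs_nonneg (zz ρ).im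
        nlinarith
      calc mm ρ * (‖zz ρ - γ * I‖ ^ 2 * (‖LT g (zz ρ)‖ * ‖LT g (-conj (zz ρ))‖)) ≤
          mm ρ * (((M + 1) * (1 + |(zz ρ).im|)) ^ 2 *
            ((t / (1 + |(zz ρ).im|) ^ 2) * (t / (1 + |(zz ρ).im|) ^ 2))) := by gcongr
        _ = (0 + (M + 1) ^ 2 * t ^ 2) * (mm ρ / (1 + |(zz ρ).im|) ^ 2) := by
            field_simp
            ring
        _ ≤ _ := by gcongr; positivity
  have h15 : (Wf g1 g1).re ≤ ‖Wf g1 g1‖ := Complex.re_le_norm _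
  refine h15.trans ?_
  have h16 : ‖Wf g1 g1‖ ≤ ∑' ρ : Zr,
      (36 * ro ^ 2 * (M + 2) ^ 2 + (M + 1) ^ 2 * t ^ 2) * (mm ρ / (1 + |(zz ρ).im|) ^ 2) :=
    tsum_of_norm_bounded (S0_sum.mul_left _).hasSum hterm
  rw [tsum_mul_left] at h16
  exact h16

end

end Pool.Agent.Helper61.NZ
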