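import Pool.Agent.Helper61.NZ.Ng
import Pool.Agent.Helper61.GR.Ms
import Pool.Agent.Helper61.XL.Mr
import Pool.Agent.Helper76.EX.Ass

set_option autoImplicit false

/-!
# Zeros of the ground states and of the extremal functions near the zeros of zeta
-/

namespace Pool.Agent.Helper61.NZ

open Complex Filter Topology Set MeasureTheory
open scoped ComplexConjugate ContDiff
open Pool.Agent.V11271.LI (Zr zz mm reflE zz_refl zz_re zz_im Zr.im_ne)
open Pool.Agent.Helper76.LW (cf_zeta)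
open Pool.Agent.Helper76.EX (E0 E0_pos ev_log ev_exp index_ge2)
open Pool.Agent.Helper61.W Pool.Agent.Helper61.W.GS Pool.Agent.Helper61.GA

/-- the inequality of Poincaré -/
lemma poin {a : ℝ} (ha : 0 < a) (γ : ℝ) (k : Ts a) :
    ‖toL a k‖ ^ 2 ≤ 4 * a ^ 2 * ‖toL a (Ao a (γ * I) k)‖ ^ 2 := by
  have hp : ∀ x : ℝ, ‖(k : ℝ → ℂ) x‖ ≤ Real.sqrt (2 * a) * ‖toL a (Ao a (γ * I) k)‖ := by
    intro x
    have := point_bound ha (γ * I) k x
    have e : ((γ : ℂ) * I).re = 0 := by simp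
    rw [e, abs_zero, zero_mul, Real.exp_zero, one_mul, mul_one] at this
    exact this
  rw [norm_toL]
  have e1 : ∫ x, ‖(k : ℝ → ℂ) x‖ ^ 2 = ∫ x in Icc (-a) a, ‖(k : ℝ → ℂ) x‖ ^ 2 := by
    rw [setIntegral_eq_integral_of_forall_compl_eq_zero]
    intro x hx
    rw [k.2.2 x]
    · simp
    · by_contra hlt
      push Not at hlt
      exact hx ⟨(abs_le.mp hlt).1, (abs_le.mp hlt).2⟩
  rw [e1]
  have e2 := norm_setIntegral_le_of_norm_le_const (μ := volume) (s := Icc (-a) a)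
    (f := fun x : ℝ => ‖(k : ℝ → ℂ) x‖ ^ 2) (C := (Real.sqrt (2 * a) * ‖toL a (Ao a (γ * I) k)‖) ^ 2) (by simp)
    (fun x _ => by
      rw [Real.norm_of_nonneg (by positivity)]
      exact pow_le_pow_left₀ (norm_nonneg _) (hp x) 2)
  have e4 : (volume : Measure ℝ).real (Icc (-a) a) = 2 * a := by
    rw [Real.volume_real_Icc_of_le (by linarith)]
    ring
  rw [e4] at e2
  refine (le_abs_self _).trans (e2.trans (le_of_eq ?_))
  rw [mul_pow, Real.sq_sqrt (by positivity)]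
  ring

variable {a r q0 q1 γ : ℝ} {g : Ts a} {ζ : Type} {p : ζ → ℂ} {ν : ζ → ℝ}

/-- a zero of the ground state near the point -/
lemma ground_near {D : Dat} (ha : 0 < a) (hl : 0 ≤ D.low a) (hF : GR.TraceF D a p ν) (hr : 0 < r)
    (h0 : q0 ≤ (D.Wf g g).re) (h1 : (D.Wf (Ao a (γ * I) g) (Ao a (γ * I) g)).re ≤ q1)
    (hq : (4 * a ^ 2 + 1 / r ^ 2) * q1 < q0) : ∃ s, ‖p s - γ * I‖ < r := by
  by_contra hcon
  push Not at hcon
  have s0 := hF.sum g
  have s1 := hF.sum (Ao a (γ * I) g)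
  have h2 : r ^ 2 * ((D.Wf g g).re - D.low a * ‖toL a g‖ ^ 2) ≤
      (D.Wf (Ao a (γ * I) g) (Ao a (γ * I) g)).re - D.low a * ‖toL a (Ao a (γ * I) g)‖ ^ 2 := by
    refine hasSum_le (fun s => ?_) (s0.mul_left (r ^ 2)) s1
    rw [LT_Ao, norm_mul, mul_pow]
    have h3 := hF.nn s
    have h4 : r ^ 2 ≤ ‖p s - γ * I‖ ^ 2 := pow_le_pow_left₀ hr.le (hcon s) 2
    have h5 : 0 ≤ ν s * ‖W.LT g (p s)‖ ^ 2 := by positivity
    nlinarith
  have h3 := GA.low_le (D := D) ha (Ao a (γ * I) g)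
  have h4 := mul_le_mul_of_nonneg_left (poin ha γ g) hl
  have h5 : D.low a * ‖toL a g‖ ^ 2 ≤ 4 * a ^ 2 * q1 := by
    calc D.low a * ‖toL a g‖ ^ 2 ≤ 4 * a ^ 2 * (D.low a * ‖toL a (Ao a (γ * I) g)‖ ^ 2) := by linarith
      _ ≤ 4 * a ^ 2 * q1 := by
        gcongr
        exact h3.trans h1
  have h6 : 0 ≤ D.low a * ‖toL a (Ao a (γ * I) g)‖ ^ 2 := mul_nonneg hl (sq_nonneg _)
  have hr2 : 0 < r ^ 2 := by positivity
  have h7 : r ^ 2 * (q0 - 4 * a ^ 2 * q1) ≤ q1 := by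
    calc r ^ 2 * (q0 - 4 * a ^ 2 * q1) ≤ r ^ 2 * ((D.Wf g g).re - D.low a * ‖toL a g‖ ^ 2) := by
          gcongr
      _ ≤ _ := h2
      _ ≤ q1 := by linarith
  have h8 : (4 * a ^ 2 + 1 / r ^ 2) * q1 = 4 * a ^ 2 * q1 + q1 / r ^ 2 := by ring
  rw [h8] at hq
  have h9 : q0 - 4 * a ^ 2 * q1 ≤ q1 / r ^ 2 := by
    rw [le_div_iff₀ hr2]
    linarith
  linarith

/-- a zero of the extremal function near the point -/
lemma extremal_near {D : Dat} {j : ℝ} (hj : 0 ≤ j) (hF : XL.TraceR D a j p ν) (hr : 0 < r) (hγ : γ ≠ 0)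
    (h0 : q0 ≤ (D.Wf g g).re) (h1 : (D.Wf (Ao a (γ * I) g) (Ao a (γ * I) g)).re ≤ q1)
    (hq : (1 / γ ^ 2 + 1 / r ^ 2) * q1 < q0) : ∃ s, ‖p s - γ * I‖ < r := by
  by_contra hcon
  push Not at hcon
  have s0 := hF.sum g
  have s1 := hF.sum (Ao a (γ * I) g)
  have e0 : ‖W.LT (Ao a (γ * I) g) 0‖ ^ 2 = γ ^ 2 * ‖W.LT g 0‖ ^ 2 := by
    rw [LT_Ao, norm_mul, mul_pow, zero_sub, norm_neg, norm_mul, Complex.norm_I, mul_one, Complex.norm_real,
      Real.norm_eq_abs, sq_abs]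
  have h2 : r ^ 2 * ((D.Wf g g).re - j * ‖W.LT g 0‖ ^ 2) ≤
      (D.Wf (Ao a (γ * I) g) (Ao a (γ * I) g)).re - j * ‖W.LT (Ao a (γ * I) g) 0‖ ^ 2 := by
    refine hasSum_le (fun s => ?_) (s0.mul_left (r ^ 2)) s1
    rw [LT_Ao, norm_mul, mul_pow]
    have h3 := hF.nn s
    have h4 : r ^ 2 ≤ ‖p s - γ * I‖ ^ 2 := pow_le_pow_left₀ hr.le (hcon s) 2
    have h5 : 0 ≤ ν s * ‖W.LT g (p s)‖ ^ 2 := by positivity
    nlinarith
  have h3 : 0 ≤ (D.Wf (Ao a (γ * I) g) (Ao a (γ * I) g)).re - j * ‖W.LT (Ao a (γ * I) g) 0‖ ^ 2 :=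
    s1.nonneg fun s => mul_nonneg (hF.nn s) (sq_nonneg _)
  rw [e0] at h2 h3
  have hγ2 : 0 < γ ^ 2 := by positivity
  have h5 : j * ‖W.LT g 0‖ ^ 2 ≤ q1 / γ ^ 2 := by
    rw [le_div_iff₀ hγ2]
    linarith
  have h6 : 0 ≤ j * (γ ^ 2 * ‖W.LT g 0‖ ^ 2) := by positivity
  have hr2 : 0 < r ^ 2 := by positivity
  have h7 : r ^ 2 * (q0 - q1 / γ ^ 2) ≤ q1 := by
    calc r ^ 2 * (q0 - q1 / γ ^ 2) ≤ r ^ 2 * ((D.Wf g g).re - j * ‖W.LT g 0‖ ^ 2) := by
          gcongr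
      _ ≤ _ := h2
      _ ≤ q1 := by linarith
  have h8 : (1 / γ ^ 2 + 1 / r ^ 2) * q1 = q1 / γ ^ 2 + q1 / r ^ 2 := by ring
  rw [h8] at hq
  have h9 : q0 - q1 / γ ^ 2 ≤ q1 / r ^ 2 := by
    rw [le_div_iff₀ hr2]
    linarith
  linarith

lemma low_le_all {a : ℝ} (ha : 0 < a) (hl : 0 ≤ zetaDat.low a) {f : ℝ → ℂ} (hf : f ∈ Ts a) :
    0 ≤ (GS.Wf f f).re :=
  (mul_nonneg hl (sq_nonneg _)).trans (GA.low_le (D := zetaDat) ha ⟨f, hf⟩)

/-- if the form is nonnegative the zeros up to height `c X` are near the line -/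
theorem near_line {c : ℝ} (hc0 : 0 < c) (hc : c < 4 * Real.pi) : ∃ δ X0 : ℝ, 0 < δ ∧ 3 ≤ X0 ∧
    ∀ X : ℝ, X0 ≤ X → 0 ≤ zetaDat.low (Real.log X / 2) → ∀ p0 : Zr, |(zz p0).im| ≤ c * X →
      |(zz p0).re| ≤ Real.exp (-(δ * X / Real.log X)) := by
  classical
  obtain ⟨δ, X0, hδ, hX0, h⟩ := index_ge2 hc0 hc
  refine ⟨δ, X0, hδ, hX0, fun X hX hl => ?_⟩
  have hX3 : 3 ≤ X := hX0.trans hX
  have hlog : 0 < Real.log X / 2 := by
    have := Real.log_pos (by linarith : 1 < X)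
    linarith
  have key : ∀ p0 : Zr, |(zz p0).im| ≤ c * X → (zz p0).re ≤ Real.exp (-(δ * X / Real.log X)) := by
    intro p0 hp0
    by_contra hlt
    push Not at hlt
    obtain ⟨f, hf, hneg⟩ := h X hX {p0} (by
      intro ρ' hρ'
      rw [Finset.mem_singleton] at hρ'
      rw [hρ']
      rw [zz_im] at hp0
      rw [zz_re] at hlt
      exact ⟨hp0, by linarith⟩) (by
      intro x hx y hy hxy
      rw [Finset.mem_singleton] at hx hy
      exact absurd (hx.trans hy.symm) hxy)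
    have h1 := hneg (fun _ => 1) ⟨p0, Finset.mem_singleton_self _, one_ne_zero⟩
    simp only [Finset.sum_singleton, one_mul] at h1
    obtain ⟨h2, h3⟩ := hf p0 (Finset.mem_singleton_self _)
    have h4 : (fun x => f p0 x) ∈ Ts (Real.log X / 2) := ⟨h2.smooth, fun x hx => h3 x fun hx2 => by
      have := abs_le.mpr ⟨hx2.1, hx2.2⟩
      linarith⟩
    have h5 := low_le_all hlog hl h4
    have h6 : GS.Wf (fun x => f p0 x) (fun x => f p0 x) = ∑' ρ : Zr, tm (corr fun x => f p0 x) ρ := by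
      unfold GS.Wf
      refine tsum_congr fun ρ => ?_
      unfold GS.wt W.tm
      have h7 : TF fun x => f p0 x := h2
      rw [LT_corr h7]
      rfl
    rw [h6] at h5
    linarith
  intro p0 hp0
  rw [abs_le]
  refine ⟨?_, key p0 hp0⟩
  have h1 := key (reflE p0) (by rw [zz_refl]; simpa using hp0)
  rw [zz_refl] at h1
  have h2 : (-conj (zz p0)).re = -(zz p0).re := by simp
  rw [h2] at h1
  linarith

lemma ev_exp_log (K : ℝ) (n : ℕ) {δ : ℝ} (hδ : 0 < δ) :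
    ∀ᶠ X : ℝ in atTop, K * X ^ n ≤ Real.exp (δ * X / Real.log X) := by
  filter_upwards [ev_log ((Real.log (|K| + 1) + n) / δ) 2, eventually_ge_atTop (Real.exp 1)] with X h1 h2
  have hX0 : 0 < X := (Real.exp_pos 1).trans_le h2
  have hL1 : 1 ≤ Real.log X := (Real.le_log_iff_exp_le hX0).mpr h2
  have hL0 : 0 < Real.log X := by linarith
  have hK : 0 ≤ Real.log (|K| + 1) := Real.log_nonneg (by linarith [abs_nonneg K])
  have h3 : (Real.log (|K| + 1) + n) * Real.log X ≤ δ * X / Real.log X := by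
    rw [le_div_iff₀ hL0]
    have : (Real.log (|K| + 1) + n) / δ * Real.log X ^ 2 =
        ((Real.log (|K| + 1) + n) * Real.log X * Real.log X) / δ := by ring
    rw [this, div_le_iff₀ hδ] at h1
    linarith
  calc K * X ^ n ≤ (|K| + 1) * X ^ n := by
        gcongr
        exact (le_abs_self K).trans (by linarith)
    _ = Real.exp (Real.log (|K| + 1) + n * Real.log X) := by
        rw [Real.exp_add, Real.exp_log (by positivity), ← Real.log_pow, Real.exp_log (by positivity)]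
    _ ≤ Real.exp (δ * X / Real.log X) := by
        apply Real.exp_le_exp.mpr
        have : Real.log (|K| + 1) ≤ Real.log (|K| + 1) * Real.log X := le_mul_of_one_le_right hK hL1
        linarith

/-- the zeros have height at least some constant -/
lemma exists_gap : ∃ γ0 : ℝ, 0 < γ0 ∧ ∀ ρ : Zr, γ0 ≤ |(zz ρ).im| := by
  classical
  have hfin := Helper76.LW.finite_zeta 1 zero_le_one
  have hne : ∀ ρ : Zr, 0 < |(zz ρ).im| := fun ρ => by
    rw [abs_pos, zz_im]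
    exact Zr.im_ne ρ
  rcases hfin.toFinset.eq_empty_or_nonempty with he | he
  · refine ⟨1, one_pos, fun ρ => ?_⟩
    by_contra hlt
    push Not at hlt
    have h1 : ρ ∈ hfin.toFinset := by
      rw [Set.Finite.mem_toFinset]
      exact hlt.le
    rw [he] at h1
    exact absurd h1 (Finset.notMem_empty _)
  · obtain ⟨ρ0, h0, h1⟩ := Finset.exists_min_image hfin.toFinset (fun ρ => |(zz ρ).im|) he
    refine ⟨min 1 |(zz ρ0).im|, lt_min one_pos (hne ρ0), fun ρ => ?_⟩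
    rcases le_or_gt |(zz ρ).im| 1 with h | h
    · refine (min_le_right _ _).trans (h1 ρ ?_)
      rw [Set.Finite.mem_toFinset]
      exact h
    · exact (min_le_left _ _).trans h.le

lemma fin_arith {c X δ L S K0 γ r e : ℝ} (hc : 0 < c) (hX : 3 ≤ X) (hL : 1 ≤ L) (hLX : L ≤ X) (hδ : 0 < δ) (hS : 0 ≤ S)
    (hK0 : 0 ≤ K0) (hγ : 1 / γ ^ 2 ≤ K0)
    (he : e = Real.exp (-(δ * X / L)) / 4) (hr : r = Real.exp (-(δ / 2 * X / L)) / 2)
    (hx : 600 * (S + 1) * (5 + K0) * (c + 2) ^ 2 * X ^ 4 ≤ Real.exp (δ * X / L)) :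
    (4 * (L / 2) ^ 2 + 1 / r ^ 2) *
      ((36 * e ^ 2 * (c * X + 2) ^ 2 + (c * X + 1) ^ 2 * Real.exp (-(δ * X)) ^ 2) * S) < 1 / 8 ∧
    (1 / γ ^ 2 + 1 / r ^ 2) *
      ((36 * e ^ 2 * (c * X + 2) ^ 2 + (c * X + 1) ^ 2 * Real.exp (-(δ * X)) ^ 2) * S) < 1 / 8 := by
  have hL0 : 0 < L := by linarith
  have hX0 : 0 < X := by linarith
  set u : ℝ := Real.exp (-(δ * X / L)) with hu
  have hu0 : 0 < u := Real.exp_pos _
  have hu1 : u ≤ 1 := by
    rw [hu, Real.exp_le_one_iff, neg_nonpos]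
    positivity
  have hr2 : 1 / r ^ 2 = 4 / u := by
    have h1 : r ^ 2 = u / 4 := by
      rw [hr, hu, div_pow, ← Real.exp_nat_mul]
      congr 1
      · congr 1
        push_cast
        ring
      · norm_num
    rw [h1, one_div, inv_div]
  have h2 : Real.exp (-(δ * X)) ≤ u := by
    apply Real.exp_le_exp.mpr
    rw [neg_le_neg_iff]
    exact div_le_self (by positivity) hL
  have hq : (36 * e ^ 2 * (c * X + 2) ^ 2 + (c * X + 1) ^ 2 * Real.exp (-(δ * X)) ^ 2) * S ≤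
      37 * ((c + 2) ^ 2 * X ^ 2) * u ^ 2 * S := by
    have h3 : c * X + 2 ≤ (c + 2) * X := by nlinarith
    have h4 : e ^ 2 ≤ u ^ 2 := by
      rw [he]
      have : u / 4 ≤ u := by linarith
      gcongr
    have h5 : (c * X + 2) ^ 2 ≤ (c + 2) ^ 2 * X ^ 2 := by
      rw [← mul_pow]
      gcongr
    have h6 : (c * X + 1) ^ 2 ≤ (c + 2) ^ 2 * X ^ 2 := by
      refine le_trans ?_ h5
      gcongr
      norm_num
    calc (36 * e ^ 2 * (c * X + 2) ^ 2 + (c * X + 1) ^ 2 * Real.exp (-(δ * X)) ^ 2) * S ≤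
        (36 * u ^ 2 * ((c + 2) ^ 2 * X ^ 2) + ((c + 2) ^ 2 * X ^ 2) * u ^ 2) * S := by gcongr
      _ = _ := by ring
  have hq0 : 0 ≤ (36 * e ^ 2 * (c * X + 2) ^ 2 + (c * X + 1) ^ 2 * Real.exp (-(δ * X)) ^ 2) * S := by positivity
  have hmain : ∀ A : ℝ, 0 ≤ A → A ≤ X ^ 2 + K0 → (A + 1 / r ^ 2) *
      ((36 * e ^ 2 * (c * X + 2) ^ 2 + (c * X + 1) ^ 2 * Real.exp (-(δ * X)) ^ 2) * S) < 1 / 8 := by
    intro A hA0 hA
    have h7 : A + 1 / r ^ 2 ≤ (5 + K0) * X ^ 2 / u := by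
      rw [hr2, le_div_iff₀ hu0, add_mul, div_mul_cancel₀ _ hu0.ne']
      have h8 : 1 ≤ X ^ 2 := by nlinarith
      have h9 : A * u ≤ X ^ 2 + K0 := by
        calc A * u ≤ A * 1 := by gcongr
          _ ≤ _ := by linarith
      nlinarith
    have h10 : u * Real.exp (δ * X / L) = 1 := by
      rw [hu, ← Real.exp_add]
      simp
    calc (A + 1 / r ^ 2) *
        ((36 * e ^ 2 * (c * X + 2) ^ 2 + (c * X + 1) ^ 2 * Real.exp (-(δ * X)) ^ 2) * S) ≤
        ((5 + K0) * X ^ 2 / u) * (37 * ((c + 2) ^ 2 * X ^ 2) * u ^ 2 * S) := by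
          gcongr
      _ = (37 * S * (5 + K0) * (c + 2) ^ 2 * X ^ 4) * u := by
          field_simp
      _ ≤ (600 * (S + 1) * (5 + K0) * (c + 2) ^ 2 * X ^ 4 / 16) * u := by
          gcongr
          have : 0 ≤ (5 + K0) * (c + 2) ^ 2 * X ^ 4 := by positivity
          nlinarith
      _ ≤ (Real.exp (δ * X / L) / 16) * u := by gcongr
      _ = 1 / 16 := by
          rw [div_mul_eq_mul_div, mul_comm, h10]
      _ < 1 / 8 := by norm_num
  constructor
  · refine hmain _ (by positivity) ?_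
    have : 4 * (L / 2) ^ 2 = L ^ 2 := by ring
    rw [this]
    have : L ^ 2 ≤ X ^ 2 := by gcongr
    linarith
  · refine hmain _ (by positivity) ?_
    have : 0 ≤ X ^ 2 := by positivity
    linarith

/-- the test function of one zero -/
theorem test_fun {c : ℝ} (hc0 : 0 < c) (hc : c < 4 * Real.pi) : ∃ δ X0 : ℝ, 0 < δ ∧ 3 ≤ X0 ∧ ∀ X : ℝ, X0 ≤ X →
    0 ≤ zetaDat.low (Real.log X / 2) → ∀ p0 : Zr, |(zz p0).im| ≤ c * X →
    ∃ (g : Ts (Real.log X / 2)) (r q1 : ℝ), 0 < r ∧ 1 / 8 ≤ (zetaDat.Wf g g).re ∧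
      (zetaDat.Wf (Ao (Real.log X / 2) ((zz p0).im * I) g) (Ao (Real.log X / 2) ((zz p0).im * I) g)).re ≤ q1 ∧
      (4 * (Real.log X / 2) ^ 2 + 1 / r ^ 2) * q1 < 1 / 8 ∧ (1 / (zz p0).im ^ 2 + 1 / r ^ 2) * q1 < 1 / 8 ∧
      r + |(zz p0).re| ≤ Real.exp (-(δ * X / Real.log X)) := by
  obtain ⟨δ1, X1, hδ1, hX1, hline⟩ := near_line hc0 hc
  obtain ⟨δ, X2, hδ, hδ1', hδ12, hX2, h⟩ := near3 hc0 hc hδ1
  obtain ⟨γ0, hγ0, hgap⟩ := exists_gap
  have hev : ∀ᶠ X : ℝ in atTop,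
      (600 * (S0 + 1) * (5 + 1 / γ0 ^ 2) * (c + 2) ^ 2 * X ^ 4 ≤ Real.exp (δ * X / Real.log X)) ∧
      (max 20 (8 * S0) * X ^ 0 ≤ Real.exp (δ * X)) ∧
      (2 * X ^ 0 ≤ Real.exp (δ / 2 * X / Real.log X)) ∧ Real.exp 1 ≤ X :=
    (ev_exp_log _ 4 hδ).and ((ev_exp _ 0 hδ).and ((ev_exp_log 2 0 (by positivity)).and (eventually_ge_atTop _)))
  obtain ⟨X3, hX3⟩ := eventually_atTop.mp hev
  refine ⟨δ / 2, max (max X1 X2) X3, by positivity, hX1.trans ((le_max_left _ _).trans (le_max_left _ _)),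
    fun X hX hl p0 hp0 => ?_⟩
  have hXX1 : X1 ≤ X := ((le_max_left _ _).trans (le_max_left _ _)).trans hX
  have hXX2 : X2 ≤ X := ((le_max_right _ _).trans (le_max_left _ _)).trans hX
  obtain ⟨x1, x2, x3, x4⟩ := hX3 X ((le_max_right _ _).trans hX)
  rw [pow_zero, mul_one] at x2 x3
  have hXge : 3 ≤ X := hX1.trans hXX1
  have hX0 : 0 < X := by linarith
  have hL1 : 1 ≤ Real.log X := (Real.le_log_iff_exp_le hX0).mpr x4
  have hLX : Real.log X ≤ X := (Real.log_le_sub_one_of_pos hX0).trans (by linarith)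
  -- it suffices to treat the zeros on or to the right of the line
  have hmain : ∀ p0 : Zr, |(zz p0).im| ≤ c * X → 0 ≤ (zz p0).re →
      ∃ (g : Ts (Real.log X / 2)) (r q1 : ℝ), 0 < r ∧ 1 / 8 ≤ (zetaDat.Wf g g).re ∧
      (zetaDat.Wf (Ao (Real.log X / 2) ((zz p0).im * I) g) (Ao (Real.log X / 2) ((zz p0).im * I) g)).re ≤ q1 ∧
      (4 * (Real.log X / 2) ^ 2 + 1 / r ^ 2) * q1 < 1 / 8 ∧ (1 / (zz p0).im ^ 2 + 1 / r ^ 2) * q1 < 1 / 8 ∧
      r + |(zz p0).re| ≤ Real.exp (-(δ / 2 * X / Real.log X)) := by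
    intro p0 hp0 hre0
    have hre := hline X hXX1 hl p0 hp0
    obtain ⟨g, F, τ, ro, g1, g2, g3, g4, g5, g6, g7, g8, g9⟩ := h X hXX2 p0 hp0 hre0 hre
    have ht : 0 ≤ Real.exp (-(δ * X)) := (Real.exp_pos _).le
    have hinv : Real.exp (-(δ * X)) * Real.exp (δ * X) = 1 := by
      rw [← Real.exp_add]
      simp
    have ht1 : Real.exp (-(δ * X)) ≤ 1 / 20 := by
      have h1 : (20 : ℝ) ≤ Real.exp (δ * X) := (le_max_left _ _).trans x2
      nlinarith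
    have hts : Real.exp (-(δ * X)) ^ 2 * S0 ≤ 1 / 8 := by
      have h1 : 8 * S0 ≤ Real.exp (δ * X) := (le_max_right _ _).trans x2
      have h2 := S0_nonneg
      have h3 : Real.exp (-(δ * X)) ^ 2 ≤ Real.exp (-(δ * X)) * 1 := by
        rw [sq]
        gcongr
        linarith
      calc Real.exp (-(δ * X)) ^ 2 * S0 ≤ (Real.exp (-(δ * X)) * 1) * (Real.exp (δ * X) / 8) := by
            gcongr
            linarith
        _ = (Real.exp (-(δ * X)) * Real.exp (δ * X)) / 8 := by ring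
        _ = 1 / 8 := by rw [hinv]
    have hroE : ro ≤ 1 := by
      refine g4.trans ?_
      have := Helper76.EX.par_E01 (X := X) hδ
      unfold Helper76.EX.E0
      have h1 : Real.exp (-(δ * X / Real.log X)) ≤ 1 := by
        rw [Real.exp_le_one_iff, neg_nonpos]
        positivity
      linarith
    have hgT : g ∈ Ts (Real.log X / 2) := ⟨g1.smooth, fun x hx => g2 x fun hx2 => by
      have := abs_le.mpr ⟨hx2.1, hx2.2⟩
      linarith⟩
    have v0 := value_ge (p0 := p0) g6 g7 g8 g9 ht g1 ht1 g3.le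
    have v1 := value1_le (p0 := p0) (g1 := (Ao (Real.log X / 2) ((zz p0).im * I) ⟨g, hgT⟩ : Ts (Real.log X / 2)))
      g6 g7 g8 g9 ht (Ts.tf (Ao (Real.log X / 2) ((zz p0).im * I) ⟨g, hgT⟩).2) ht1 g3.le hroE
      (fun z => LT_Ao _ _ _) g5 hp0
    have hγ : 1 / (zz p0).im ^ 2 ≤ 1 / γ0 ^ 2 := by
      have h1 := hgap p0
      rw [← sq_abs (zz p0).im]
      gcongr
    obtain ⟨f1, f2⟩ := fin_arith (γ := (zz p0).im) (r := Real.exp (-(δ / 2 * X / Real.log X)) / 2)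
      (e := Real.exp (-(δ * X / Real.log X)) / 4) hc0 hXge hL1 hLX hδ S0_nonneg (by positivity) hγ rfl rfl x1
    refine ⟨⟨g, hgT⟩, Real.exp (-(δ / 2 * X / Real.log X)) / 2,
      (36 * (Real.exp (-(δ * X / Real.log X)) / 4) ^ 2 * (c * X + 2) ^ 2 + (c * X + 1) ^ 2 *
        Real.exp (-(δ * X)) ^ 2) * S0, by positivity, ?_, ?_, f1, f2, ?_⟩
    · show 1 / 8 ≤ (GS.Wf g g).re
      linarith
    · show (GS.Wf (Ao (Real.log X / 2) ((zz p0).im * I) ⟨g, hgT⟩ : Ts (Real.log X / 2))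
        (Ao (Real.log X / 2) ((zz p0).im * I) ⟨g, hgT⟩ : Ts (Real.log X / 2))).re ≤ _
      refine v1.trans ?_
      have h1 := S0_nonneg
      have h2 : ro ≤ Real.exp (-(δ * X / Real.log X)) / 4 := g4
      have h3 := g3.le
      gcongr
    · have h1 : Real.exp (-(δ1 * X / Real.log X)) ≤ Real.exp (-(δ / 2 * X / Real.log X)) / 2 := by
        have h2 : Real.exp (-(δ1 * X / Real.log X)) ≤
            Real.exp (-(δ / 2 * X / Real.log X)) * Real.exp (-(δ / 2 * X / Real.log X)) := by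
          rw [← Real.exp_add]
          apply Real.exp_le_exp.mpr
          have h3 : δ * X / Real.log X ≤ δ1 * X / Real.log X := by
            gcongr
            linarith
          have h4 : δ * X / Real.log X = δ / 2 * X / Real.log X + δ / 2 * X / Real.log X := by ring
          linarith
        have h5 : Real.exp (-(δ / 2 * X / Real.log X)) ≤ 1 / 2 := by
          rw [Real.exp_neg, one_div]
          gcongr
        calc Real.exp (-(δ1 * X / Real.log X)) ≤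
            Real.exp (-(δ / 2 * X / Real.log X)) * Real.exp (-(δ / 2 * X / Real.log X)) := h2
          _ ≤ Real.exp (-(δ / 2 * X / Real.log X)) * (1 / 2) := by gcongr
          _ = _ := by ring
      linarith
  rcases le_or_gt 0 (zz p0).re with h0 | h0
  · exact hmain p0 hp0 h0
  · have e1 : (zz (reflE p0)).im = (zz p0).im := by rw [zz_refl]; simp
    have e2 : (zz (reflE p0)).re = -(zz p0).re := by rw [zz_refl]; simp
    obtain ⟨g, r, q1, k1, k2, k3, k4, k5, k6⟩ := hmain (reflE p0) (by rw [e1]; exact hp0) (by rw [e2]; linarith)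
    rw [e1] at k3 k5
    rw [e2, abs_neg] at k6
    exact ⟨g, r, q1, k1, k2, k3, k4, k5, k6⟩

lemma dist_zz (s : ℂ) (p0 : Zr) : ‖s - zz p0‖ ≤ ‖s - (zz p0).im * I‖ + |(zz p0).re| := by
  have e : s - zz p0 = (s - (zz p0).im * I) - (((zz p0).re : ℝ) : ℂ) := by
    apply Complex.ext
    · simp
    · simp
  rw [e]
  refine (norm_sub_le _ _).trans ?_
  rw [Complex.norm_real, Real.norm_eq_abs]

/-- **Zeros of ground states near the zeros of zeta.** -/
theorem zeta_ground {c : ℝ} (hc0 : 0 < c) (hc : c < 4 * Real.pi) : ∃ δ X0 : ℝ, 0 < δ ∧ 3 ≤ X0 ∧ ∀ X : ℝ, X0 ≤ X →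
    0 ≤ zetaDat.low (Real.log X / 2) → ∀ p0 : Zr, |(zz p0).im| ≤ c * X →
    (∀ (ζ : Type) (p : ζ → ℂ) (ν : ζ → ℝ), GR.TraceF zetaDat (Real.log X / 2) p ν →
      ∃ s, ‖p s - zz p0‖ ≤ Real.exp (-(δ * X / Real.log X))) ∧
    (∀ (ζ : Type) (p : ζ → ℂ) (ν : ζ → ℝ) (j : ℝ), 0 ≤ j → XL.TraceR zetaDat (Real.log X / 2) j p ν →
      ∃ s, ‖p s - zz p0‖ ≤ Real.exp (-(δ * X / Real.log X))) := by
  obtain ⟨δ, X0, hδ, hX0, h⟩ := test_fun hc0 hc
  refine ⟨δ, X0, hδ, hX0, fun X hX hl p0 hp0 => ?_⟩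
  have ha : 0 < Real.log X / 2 := by
    have := Real.log_pos (by linarith : 1 < X)
    linarith
  obtain ⟨g, r, q1, k1, k2, k3, k4, k5, k6⟩ := h X hX hl p0 hp0
  have hne : (zz p0).im ≠ 0 := by
    rw [zz_im]
    exact Zr.im_ne p0
  constructor
  · intro ζ p ν hF
    obtain ⟨s, hs⟩ := ground_near ha hl hF k1 k2 k3 k4
    exact ⟨s, (dist_zz _ _).trans (by linarith)⟩
  · intro ζ p ν j hj hF
    obtain ⟨s, hs⟩ := extremal_near hj hF k1 hne k2 k3 k5
    exact ⟨s, (dist_zz _ _).trans (by linarith)⟩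

end Pool.Agent.Helper61.NZ
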