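import Pool.Agent.Helper61.NZ.Nh

set_option autoImplicit false

/-!
# A fixed zero on the line: the zeros of ground states within `exp (-(2 * π - ε) * X)`
-/

namespace Pool.Agent.Helper61.NZ

open Complex Filter Topology Set MeasureTheory
open scoped ComplexConjugate ContDiff
open Pool.Agent.V11271.LI (Zr zz mm mm_one_le)
open Pool.Agent.Helper76.LW (cf_zeta)
open Pool.Agent.Helper76.EW (FF EE)
open Pool.Agent.Helper76.EX
open Pool.Agent.Helper61.W Pool.Agent.Helper61.W.GS Pool.Agent.Helper61.GA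

/-- the multiplier at a fixed point -/
theorem Mk_fix {ε : ℝ} (hε : 0 < ε) {θ0 : ℝ} (h0 : 0 < θ0) (h1 : θ0 ≤ Real.pi / 2) {z : ℂ} (hz : |z.re| ≤ 1) :
    ∃ Y0 : ℝ, 1 ≤ Y0 ∧ ∀ Y : ℝ, Y0 ≤ Y → Real.exp ((2 * Real.pi - ε) * Y) ≤ ‖Mk Y θ0 z‖ := by
  have hpi := Real.pi_pos
  set η : ℝ := min θ0 (min 1 (ε / (2 * Real.pi))) with hη
  have hη0 : 0 < η := lt_min h0 (lt_min one_pos (by positivity))
  have hη1 : η ≤ 1 := (min_le_right _ _).trans (min_le_left _ _)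
  have hη2 : η ≤ ε / (2 * Real.pi) := (min_le_right _ _).trans (min_le_right _ _)
  have hηθ : η ≤ θ0 := min_le_left _ _
  obtain ⟨Y0, hY0, hY⟩ := k3_absorb (η := η * Real.exp (-|z.im|)) (by positivity) (show 0 < ε / 2 by positivity)
  refine ⟨Y0, hY0, fun Y hYY => ?_⟩
  have hYpos : 0 < Y := by linarith
  have h2 := k3_low_aux (Y := Y) h1 (z := z) hz (a := 0) (b := η)
    (L := (2 * Real.pi - ε / 2) * Y - |z.im|) (by linarith) hη0.le hηθ (by
      intro θ hθ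
      have h3 := Real.one_sub_sq_div_two_le_cos (x := θ)
      have h4 : θ ^ 2 ≤ ε / (2 * Real.pi) := by
        have h5 : θ ^ 2 ≤ η * 1 := by
          rw [sq]
          exact mul_le_mul hθ.2 (hθ.2.trans hη1) hθ.1 hη0.le
        linarith
      have h5 : 1 - ε / (4 * Real.pi) ≤ Real.cos θ := by
        have h6 : ε / (4 * Real.pi) = ε / (2 * Real.pi) / 2 := by
          field_simp
          ring
        linarith
      have h6 := mul_le_mul_of_nonneg_left h5 (by positivity : (0 : ℝ) ≤ 2 * Real.pi * Y)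
      have h7 : 2 * Real.pi * Y * (1 - ε / (4 * Real.pi)) = (2 * Real.pi - ε / 2) * Y := by
        field_simp
        ring
      rw [h7] at h6
      have h8 : -|z.im| ≤ z.im * θ / 2 := by
        have h9 : |z.im * θ| ≤ |z.im| * 1 := by
          rw [abs_mul, abs_of_nonneg hθ.1]
          exact mul_le_mul_of_nonneg_left (hθ.2.trans hη1) (abs_nonneg _)
        have h10 := neg_abs_le (z.im * θ)
        have h11 := abs_nonneg z.im
        linarith
      linarith)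
  refine le_trans ?_ h2
  have h3 : (2 * Real.pi - ε / 2) * Y - |z.im| = -|z.im| + (ε / 2 * Y + (2 * Real.pi - ε) * Y) := by ring
  rw [h3, Real.exp_add, Real.exp_add, sub_zero]
  have h4 := hY Y hYY
  have h5 := mul_le_mul_of_nonneg_right h4 (Real.exp_pos ((2 * Real.pi - ε) * Y)).le
  rw [one_mul] at h5
  calc Real.exp ((2 * Real.pi - ε) * Y) ≤
        7 / 10 * (η * Real.exp (-|z.im|)) * Real.exp (ε / 2 * Y) * Real.exp ((2 * Real.pi - ε) * Y) := h5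
    _ = _ := by ring

/-- the error term -/
lemma tau_arith3 {ε X CE E D : ℝ} (hX : 16 ≤ X) (hε : 0 < ε) (hε1 : ε ≤ 1)
    (hCE : 1 ≤ CE) (x3 : 2 * CE * X ^ 5 ≤ Real.exp (ε / 2 * X))
    (hD : 0 < D) (hE : E ≤ CE * (X ^ 2) ^ 2 / D) (hE0 : 0 ≤ E) :
    2 * (Real.exp (-((2 * Real.pi - ε / 4) * ((1 - ε / 100) * X))) *
      Real.exp (ε / 8 * ((1 - ε / 100) * X))) * ((1 - ε / 100) * X) * E ≤
      Real.exp (-((2 * Real.pi - ε) * X)) / D := by
  have hX0 : 0 < X := by linarith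
  have hκ0 : 0 ≤ 1 - ε / 100 := by linarith
  have hYX : (1 - ε / 100) * X ≤ X := by nlinarith
  have hY0 : 0 ≤ (1 - ε / 100) * X := by positivity
  have hpi := Real.pi_lt_d2
  have hpi0 := Real.pi_gt_three
  have e1 : Real.exp (-((2 * Real.pi - ε / 4) * ((1 - ε / 100) * X))) * Real.exp (ε / 8 * ((1 - ε / 100) * X)) ≤
      Real.exp (-(ε / 2 * X)) * Real.exp (-((2 * Real.pi - ε) * X)) := by
    rw [← Real.exp_add, ← Real.exp_add]
    apply Real.exp_le_exp.mpr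
    have h1 : (2 * Real.pi - ε / 2) ≤ (2 * Real.pi - 3 / 8 * ε) * (1 - ε / 100) := by nlinarith
    have h2 := mul_le_mul_of_nonneg_right h1 hX0.le
    nlinarith
  calc 2 * (Real.exp (-((2 * Real.pi - ε / 4) * ((1 - ε / 100) * X))) *
        Real.exp (ε / 8 * ((1 - ε / 100) * X))) * ((1 - ε / 100) * X) * E ≤
        2 * (Real.exp (-(ε / 2 * X)) * Real.exp (-((2 * Real.pi - ε) * X))) * X * (CE * (X ^ 2) ^ 2 / D) := by
        gcongr
    _ = (2 * CE * X ^ 5) * (Real.exp (-(ε / 2 * X)) * Real.exp (-((2 * Real.pi - ε) * X))) / D := by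
        ring
    _ ≤ Real.exp (ε / 2 * X) * (Real.exp (-(ε / 2 * X)) * Real.exp (-((2 * Real.pi - ε) * X))) / D := by
        gcongr
    _ = Real.exp (-((2 * Real.pi - ε) * X)) / D := by
        rw [← mul_assoc, ← Real.exp_add, add_neg_cancel, Real.exp_zero, one_mul]

/-- the test function of a fixed zero on the line -/
theorem near_fix {p0 : Zr} (hp0 : (zz p0).re = 0) {ε : ℝ} (hε : 0 < ε) (hε1 : ε ≤ 1) :
    ∃ X0 : ℝ, 16 ≤ X0 ∧ ∀ X : ℝ, X0 ≤ X →
    ∃ (g : ℝ → ℂ) (F τ : ℂ → ℂ), TF g ∧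
      (∀ x, x ∉ Icc (-(Real.log X / 2)) (Real.log X / 2) → g x = 0) ∧
      (∀ z : ℂ, |z.re| ≤ 1 / 2 → LT g z = F z + τ z) ∧
      (∀ ρ : Zr, ‖zz ρ - zz p0‖ ≤ 0 → 1 / 2 ≤ (FF F (zz ρ)).re ∧ ‖F (zz ρ)‖ ≤ 2 ∧ ‖F (-conj (zz ρ))‖ ≤ 2) ∧
      (∀ ρ : Zr, 0 < ‖zz ρ - zz p0‖ → F (zz ρ) = 0 ∧ F (-conj (zz ρ)) = 0) ∧
      ∀ z : ℂ, |z.re| ≤ 1 / 2 → ‖τ z‖ ≤ Real.exp (-((2 * Real.pi - ε) * X)) / (1 + |z.im|) ^ 2 := by
  have hpi := Real.pi_pos
  have hpi2 := Real.pi_lt_d2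
  have hpi3 := Real.pi_gt_three
  obtain ⟨κ, hκ⟩ : ∃ κ : ℝ, κ = 1 - ε / 100 := ⟨_, rfl⟩
  have hκ0 : 0 < κ := by rw [hκ]; linarith
  have hκ1 : κ < 1 := by rw [hκ]; linarith
  obtain ⟨θ0, h0, h1, hG⟩ := Gk_tail (ε := ε / 8) (by positivity)
  obtain ⟨Yb, hYb, hGb⟩ := hG θ0 le_rfl h1
  obtain ⟨Ya, hYa, hMa⟩ := Mk_fix (ε := ε / 8) (by positivity) h0 h1.le (z := zz p0) (by rw [hp0]; norm_num)
  obtain ⟨A, hA1, hA⟩ := local_lower
  obtain ⟨b, hb1, hb⟩ := wcount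
  obtain ⟨C, hC1, hC⟩ := Xi0_bound
  obtain ⟨CE, hCE1, hCE⟩ := EE_decay2
  obtain ⟨δ, hδ, hgap⟩ := GA.gap (D := zetaDat) (zz p0)
  obtain ⟨ro, hro⟩ : ∃ ro : ℝ, ro = min (δ / 2) (1 / 8) := ⟨_, rfl⟩
  have hro0 : 0 < ro := by rw [hro]; positivity
  have hro1 : ro ≤ 1 / 8 := by rw [hro]; exact min_le_right _ _
  have hro2 : ro < δ := by
    have : ro ≤ δ / 2 := by rw [hro]; exact min_le_left _ _
    linarith
  have hgap' : ∀ ρ : Zr, ‖zz ρ - zz p0‖ ≤ ro → zz ρ = zz p0 := by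
    intro ρ h
    by_contra hne
    have := hgap ρ hne
    change δ ≤ ‖zz ρ - zz p0‖ at this
    linarith
  obtain ⟨γ, hγ⟩ : ∃ γ : ℝ, γ = |(zz p0).im| := ⟨_, rfl⟩
  have hγ0 : 0 ≤ γ := by rw [hγ]; exact abs_nonneg _
  obtain ⟨K0, hK0⟩ : ∃ K0 : ℝ, K0 = A * Real.log (3 + γ) * (1 + Real.log (1 / ro)) + Real.pi * γ / 4 := ⟨_, rfl⟩
  obtain ⟨N, hN⟩ : ∃ N : ℝ, N = b * Real.log (3 + γ) := ⟨_, rfl⟩
  obtain ⟨K2, hK2⟩ : ∃ K2 : ℝ, K2 = C * Real.exp (N * Real.log (1 / (ro / 4))) * (4 * Real.exp (‖zz p0‖ + 1)) :=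
    ⟨_, rfl⟩
  have hK20 : 0 < K2 := by rw [hK2]; positivity
  have hev : ∀ᶠ X : ℝ in atTop, (2 * CE * X ^ 5 ≤ Real.exp (ε / 2 * X)) ∧
      (max (Ya / κ) (Yb / κ) ≤ X) ∧ (1 / (-Real.log κ) ≤ X) ∧ (1 / κ ≤ X) ∧ (16 * (‖zz p0‖ + 1) ≤ X) ∧
      (8 * K0 / (ε * κ) ≤ X) :=
    (ev_exp _ 5 (by positivity)).and ((eventually_ge_atTop _).and ((eventually_ge_atTop _).and
      ((eventually_ge_atTop _).and ((eventually_ge_atTop _).and (eventually_ge_atTop _)))))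
  obtain ⟨X1, hX1⟩ := eventually_atTop.mp hev
  refine ⟨max X1 16, le_max_right _ _, fun X hX => ?_⟩
  obtain ⟨x3, x4, x6, x7, x9, x8⟩ := hX1 X ((le_max_left _ _).trans hX)
  have hX16 : 16 ≤ X := (le_max_right _ _).trans hX
  clear hX1 hev hX
  have hX0 : 0 < X := by linarith
  have hYa' : Ya ≤ κ * X := by
    have := (le_max_left _ _).trans x4
    rw [div_le_iff₀ hκ0] at this
    linarith
  have hYb' : Yb ≤ κ * X := by
    have := (le_max_right _ _).trans x4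
    rw [div_le_iff₀ hκ0] at this
    linarith
  have hY1 : 1 ≤ κ * X := hYa.trans hYa'
  have hYX : κ * X ≤ X := mul_le_of_le_one_left hX0.le hκ1.le
  have hK0' : K0 ≤ ε / 8 * (κ * X) := by
    rw [div_le_iff₀ (by positivity)] at x8
    linarith
  have hMu1 : 1 ≤ 7 * X + K2 := by linarith
  have hX2 : X ≤ X ^ 2 := le_self_pow₀ (by linarith) (by norm_num)
  have hlow : ∀ (Γ : Finset Zr) (B : ℂ → ℂ), Differentiable ℂ B → (∀ z, Xi0 z = PG Γ z * B z) →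
      (∀ ρ ∈ Γ, ‖zz ρ - zz p0‖ ≤ 2) → (∀ ρ, ρ ∉ Γ → ro ≤ ‖zz ρ - zz p0‖) →
      Real.exp ((2 * Real.pi - ε / 4) * (κ * X)) ≤ ‖B (zz p0)‖ * ‖Mk (κ * X) θ0 (zz p0)‖ := by
    intro Γ B hBd hBf h2 h3
    have h4 := hA (zz p0) Γ B ro (by rw [hp0]) (by rw [hp0]; norm_num) hro0 (by linarith) hBd hBf h2 h3
    have h5 := hMa (κ * X) hYa'
    rw [← hγ] at h4
    calc Real.exp ((2 * Real.pi - ε / 4) * (κ * X)) ≤
          Real.exp (-(A * Real.log (3 + γ) * (1 + Real.log (1 / ro))) - Real.pi * γ / 4) *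
            Real.exp ((2 * Real.pi - ε / 8) * (κ * X)) := by
          rw [← Real.exp_add]
          apply Real.exp_le_exp.mpr
          linarith
      _ ≤ _ := by gcongr
  have hN' : ∀ Γ : Finset Zr, (∀ ρ ∈ Γ, |(zz ρ).im - (zz p0).im| ≤ 1) → ∑ ρ ∈ Γ, mm ρ ≤ N := by
    intro Γ hΓ
    rw [hN, hγ]
    exact hb (zz p0).im Γ hΓ
  have hMu : C * Real.exp (N * Real.log (1 / (ro / 4))) *
      (4 * Real.exp (2 * Real.pi * (κ * X) + (‖zz p0‖ + 1))) ≤ Real.exp (7 * X + K2) := by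
    have e : C * Real.exp (N * Real.log (1 / (ro / 4))) *
      (4 * Real.exp (2 * Real.pi * (κ * X) + (‖zz p0‖ + 1))) = Real.exp (2 * Real.pi * (κ * X)) * K2 := by
      rw [hK2, Real.exp_add (2 * Real.pi * (κ * X))]
      ring
    rw [e, Real.exp_add]
    have h2 : 2 * Real.pi * (κ * X) ≤ 7 * X := by
      calc 2 * Real.pi * (κ * X) ≤ 7 * (κ * X) := by gcongr; linarith
        _ ≤ 7 * X := by linarith
    have h3 : K2 ≤ Real.exp K2 := by
      have := Real.add_one_le_exp K2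
      linarith
    gcongr
  obtain ⟨g, F, τ, g1, g2, g3, g5, g6, g7⟩ := near2 (Y := κ * X) (θ0 := θ0) (ε := ε / 8) (Ts := X ^ 2)
    (η := 1 / (2048 * (7 * X + K2))) (ro := ro) (N := N) (V := (2 * Real.pi - ε / 4) * (κ * X))
    (Mu := 7 * X + K2) (C := C) p0 h0 h1
    hY1 (fun x hx => hGb (κ * X) hYb' x hx) hro0 hro1 (by positivity) (by
      rw [div_le_div_iff₀ (by positivity) (by norm_num)]
      linarith) (by rw [hp0, abs_zero, mul_zero]; positivity) (fun ρ hρ => by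
      rw [hgap' ρ hρ, sub_self, norm_zero]
      positivity) hN' (mul_nonneg (by linarith) (by positivity)) hlow hC
    (by linarith) hMu (by
      have : 32 * (7 * X + K2) * (1 / (2048 * (7 * X + K2))) = 1 / 64 := by
        field_simp
        norm_num
      rw [this]) (by linarith)
  have hsupp := par_supp hκ0 hκ1 hX16 x6
  refine ⟨g, F, τ, g1, fun x hx => g2 x fun hx2 => hx ?_, g3, fun ρ hρ => g5 ρ (hρ.trans hro0.le), fun ρ hρ => ?_,
    fun z hz => ?_⟩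
  · constructor
    · linarith [hx2.1]
    · linarith [hx2.2]
  · apply g6
    by_contra hlt
    push Not at hlt
    rw [hgap' ρ hlt, sub_self, norm_zero] at hρ
    exact lt_irrefl _ hρ
  · refine (g7 z hz).trans ?_
    have h2 := hCE (X ^ 2) (by linarith) z hz
    rw [hκ]
    exact tau_arith3 hX16 hε hε1 hCE1 x3 (by positivity) h2 (norm_nonneg _)

/-- **A fixed zero on the line.** -/
theorem fixed_zero {p0 : Zr} (hp0 : (zz p0).re = 0) {ε : ℝ} (hε : 0 < ε) : ∃ X0 : ℝ, 3 ≤ X0 ∧ ∀ X : ℝ, X0 ≤ X →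
    0 ≤ zetaDat.low (Real.log X / 2) → ∀ (ζ : Type) (p : ζ → ℂ) (ν : ζ → ℝ),
      GR.TraceF zetaDat (Real.log X / 2) p ν → ∃ s, ‖p s - zz p0‖ ≤ Real.exp (-((2 * Real.pi - ε) * X)) := by
  obtain ⟨e, he, he0, he1⟩ : ∃ e : ℝ, e ≤ ε ∧ 0 < e ∧ e ≤ 1 :=
    ⟨min ε 1, min_le_left _ _, lt_min hε one_pos, min_le_right _ _⟩
  obtain ⟨X1, hX1, h⟩ := near_fix hp0 (ε := e / 2) (by positivity) (by linarith)
  obtain ⟨M, hM⟩ : ∃ M : ℝ, M = |(zz p0).im| := ⟨_, rfl⟩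
  have hM0 : 0 ≤ M := by rw [hM]; exact abs_nonneg _
  have hS := S0_nonneg
  have hev : ∀ᶠ X : ℝ in atTop, (16 * (M + 1) ^ 2 * (S0 + 1)) * X ^ 2 ≤ Real.exp (e * X) ∧
      (max 20 (8 * S0)) * X ^ 0 ≤ Real.exp (1 * X) :=
    (ev_exp _ 2 he0).and (ev_exp _ 0 one_pos)
  obtain ⟨X2, hX2⟩ := eventually_atTop.mp hev
  refine ⟨max X1 X2, le_trans (by linarith) (le_max_left _ _), fun X hX hl ζ p ν hF => ?_⟩
  obtain ⟨x1, x2⟩ := hX2 X ((le_max_right _ _).trans hX)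
  have hX16 : 16 ≤ X := hX1.trans ((le_max_left _ _).trans hX)
  obtain ⟨g, F, τ, g1, g2, g6, g7, g8, g9⟩ := h X ((le_max_left _ _).trans hX)
  clear h hev hX2
  rw [pow_zero, mul_one, one_mul] at x2
  have hX0 : 0 < X := by linarith
  have hpi := Real.pi_gt_three
  have ha : 0 < Real.log X / 2 := by
    have := Real.log_pos (by linarith : 1 < X)
    linarith
  obtain ⟨t, ht⟩ : ∃ t : ℝ, t = Real.exp (-((2 * Real.pi - e / 2) * X)) := ⟨_, rfl⟩
  rw [← ht] at g9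
  have ht0 : 0 < t := by rw [ht]; exact Real.exp_pos _
  have htX : t ≤ Real.exp (-X) := by
    rw [ht]
    apply Real.exp_le_exp.mpr
    nlinarith
  have hinv : Real.exp (-X) * Real.exp X = 1 := by
    rw [← Real.exp_add]
    simp
  have hE : Real.exp (-X) ≤ 1 / 20 := by
    have h1 : (20 : ℝ) ≤ Real.exp X := (le_max_left _ _).trans x2
    have h2 := Real.exp_pos (-X)
    nlinarith
  have ht1 : t ≤ 1 / 20 := htX.trans hE
  have hts : t ^ 2 * S0 ≤ 1 / 8 := by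
    have h1 : 8 * S0 ≤ Real.exp X := (le_max_right _ _).trans x2
    calc t ^ 2 * S0 = t * (t * S0) := by ring
      _ ≤ 1 * (Real.exp (-X) * (Real.exp X / 8)) := by
        gcongr
        · linarith
        · linarith
      _ = (Real.exp (-X) * Real.exp X) / 8 := by ring
      _ = 1 / 8 := by rw [hinv]
  have hgT : g ∈ Ts (Real.log X / 2) := ⟨g1.smooth, fun x hx => g2 x fun hx2 => by
    have := abs_le.mpr ⟨hx2.1, hx2.2⟩
    linarith⟩
  have v0 := value_ge (p0 := p0) g6 g7 g8 g9 ht0.le g1 ht1 le_rfl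
  have v1 := value1_le (p0 := p0) (g1 := (Ao (Real.log X / 2) ((zz p0).im * I) ⟨g, hgT⟩ : Ts (Real.log X / 2)))
    g6 g7 g8 g9 ht0.le (Ts.tf (Ao (Real.log X / 2) ((zz p0).im * I) ⟨g, hgT⟩).2) ht1 le_rfl zero_le_one
    (fun z => LT_Ao _ _ _) (by rw [hp0, abs_zero]) (M := M) hM.ge
  have hr : 0 < Real.exp (-((2 * Real.pi - e) * X)) := Real.exp_pos _
  obtain ⟨s, hs⟩ := ground_near (g := ⟨g, hgT⟩) (q0 := 1 / 8)
    (q1 := (36 * (0 : ℝ) ^ 2 * (M + 2) ^ 2 + (M + 1) ^ 2 * t ^ 2) * S0) ha hl hF hr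
    (by
      show 1 / 8 ≤ (GS.Wf g g).re
      linarith) v1 (by
      have e1 : 4 * (Real.log X / 2) ^ 2 = Real.log X ^ 2 := by ring
      have e2 : Real.log X ^ 2 ≤ X ^ 2 := by
        have h1 : 0 ≤ Real.log X := Real.log_nonneg (by linarith)
        have h2 := Real.log_le_sub_one_of_pos hX0
        exact pow_le_pow_left₀ h1 (by linarith) 2
      have e3 : 1 / Real.exp (-((2 * Real.pi - e) * X)) ^ 2 * t ^ 2 = Real.exp (-(e * X)) := by
        rw [ht, ← Real.exp_nat_mul, ← Real.exp_nat_mul, one_div, ← Real.exp_neg, ← Real.exp_add]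
        congr 1
        push_cast
        ring
      have e4 : t ^ 2 ≤ Real.exp (-(e * X)) := by
        rw [ht, ← Real.exp_nat_mul]
        apply Real.exp_le_exp.mpr
        push_cast
        nlinarith
      have hx2 : 1 ≤ X ^ 2 := one_le_pow₀ (by linarith)
      rw [e1]
      calc (Real.log X ^ 2 + 1 / Real.exp (-((2 * Real.pi - e) * X)) ^ 2) *
            ((36 * (0 : ℝ) ^ 2 * (M + 2) ^ 2 + (M + 1) ^ 2 * t ^ 2) * S0) =
            (Real.log X ^ 2 * t ^ 2 + 1 / Real.exp (-((2 * Real.pi - e) * X)) ^ 2 * t ^ 2) *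
              ((M + 1) ^ 2 * S0) := by ring
        _ ≤ (X ^ 2 * Real.exp (-(e * X)) + X ^ 2 * Real.exp (-(e * X))) * ((M + 1) ^ 2 * S0) := by
            rw [e3]
            gcongr
            exact le_mul_of_one_le_left (Real.exp_pos _).le hx2
        _ = (16 * (M + 1) ^ 2 * S0 * X ^ 2) * Real.exp (-(e * X)) / 8 := by ring
        _ < 1 / 8 := by
            have h1 : (16 * (M + 1) ^ 2 * S0 * X ^ 2) < Real.exp (e * X) := by
              refine lt_of_lt_of_le ?_ x1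
              have : 0 < 16 * (M + 1) ^ 2 * X ^ 2 := by positivity
              nlinarith
            have h2 : Real.exp (e * X) * Real.exp (-(e * X)) = 1 := by
              rw [← Real.exp_add]
              simp
            have h3 := mul_lt_mul_of_pos_right h1 (Real.exp_pos (-(e * X)))
            rw [h2] at h3
            linarith)
  refine ⟨s, ?_⟩
  have e5 : zz p0 = (zz p0).im * I := by
    apply Complex.ext
    · simp [hp0]
    · simp
  rw [e5]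
  refine hs.le.trans (Real.exp_le_exp.mpr ?_)
  nlinarith

end Pool.Agent.Helper61.NZ
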