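import Pool.Agent.Helper61.NZ.Nh
import Pool.Agent.Helper76.EX.Bot

set_option autoImplicit false

/-!
# The total weight of the zeros of the ground state far from the zeros of zeta
-/

namespace Pool.Agent.Helper61.NZ

open Complex Filter Topology Set MeasureTheory Metric
open scoped ComplexConjugate ContDiff
open Pool.Agent.V11271.LI (Zr zz mm mm_one_le zz_im zz_re)
open Pool.Agent.Helper76.LW (cf_zeta)
open Pool.Agent.Helper76.EW (FF EE EE_near_one)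
open Pool.Agent.Helper76.EX
open Pool.Agent.Helper61.W Pool.Agent.Helper61.W.GS Pool.Agent.Helper61.GA

lemma Wf_eq_tm {g : ℝ → ℂ} (hg : TF g) : GS.Wf g g = ∑' ρ : Zr, tm (corr g) ρ := by
  unfold GS.Wf
  refine tsum_congr fun ρ => ?_
  unfold GS.wt W.tm
  rw [LT_corr hg]
  rfl

/-- a function with controlled transform, small at the zeros -/
theorem far_core {Y θ0 ε Ts : ℝ} (h0 : 0 < θ0) (h1 : θ0 < Real.pi / 2) (hY : 1 ≤ Y)
    (htail : ∀ x : ℝ, Real.log Y / 2 ≤ |x| →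
      ‖Gk Y θ0 x‖ ≤ Real.exp (ε * Y) * Real.exp (-2 * (|x| - Real.log Y / 2))) (hTs : 1 ≤ Ts)
    {CE : ℝ} (hCE : ∀ (T : ℝ), 1 ≤ T → ∀ z : ℂ, |z.re| ≤ 1 / 2 → ‖EE (z / T)‖ ≤ CE * T / (1 + |z.im|)) :
    ∃ g : ℝ → ℂ, TF g ∧
      (∀ x, x ∉ Icc (-(Real.log Y / 2 + 1 / 4 / Ts)) (Real.log Y / 2 + 1 / 4 / Ts) → g x = 0) ∧
      (∀ z : ℂ, |z.re| ≤ 1 / 2 →
        (‖Xi0 z‖ * ‖Mk Y θ0 z‖ - 2 * Real.exp (ε * Y) * Y) * ‖EE (z / Ts)‖ ≤ ‖LT g z‖) ∧
      |(GS.Wf g g).re| ≤ (2 * Real.exp (ε * Y) * Y * (CE * Ts)) ^ 2 * S0 := by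
  have hTs0 : 0 < Ts := by linarith
  have hlogY : 0 ≤ Real.log Y / 2 := div_nonneg (Real.log_nonneg hY) (by norm_num)
  have hTl : Tl (Real.log Y / 2) (Real.exp (ε * Y)) (Gk Y θ0) := ⟨Gk_cont h0 h1, htail⟩
  obtain ⟨g, hg, hgs, τ, hτ1, hτ2⟩ := hTl.smooth hlogY (Real.exp_pos _).le hTs0
  have hLT : ∀ z : ℂ, LT (Gk Y θ0) z = Xi0 z * Mk Y θ0 z := fun z => (Gk_transform h0 h1 z).2
  have hexp : Real.exp (2 * (Real.log Y / 2)) = Y := by
    rw [show 2 * (Real.log Y / 2) = Real.log Y by ring, Real.exp_log (by linarith)]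
  rw [hexp] at hτ2
  refine ⟨g, hg, hgs, ?_, ?_⟩
  · intro z hz
    have h2 := hτ1 z hz
    have h3 := hτ2 z hz
    rw [hLT] at h2
    rw [h2]
    have h4 : ‖Xi0 z * Mk Y θ0 z * EE (z / Ts)‖ ≤ ‖Xi0 z * Mk Y θ0 z * EE (z / Ts) + τ z‖ + ‖τ z‖ := by
      calc ‖Xi0 z * Mk Y θ0 z * EE (z / Ts)‖ = ‖(Xi0 z * Mk Y θ0 z * EE (z / Ts) + τ z) - τ z‖ := by ring_nf
        _ ≤ _ := norm_sub_le _ _
    rw [norm_mul, norm_mul] at h4
    rw [sub_mul]
    linarith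
  · set K : ℝ := 2 * Real.exp (ε * Y) * Y * (CE * Ts) with hK
    have hb : ∀ z : ℂ, |z.re| ≤ 1 / 2 → Xi0 z = 0 → ‖LT g z‖ ≤ K / (1 + |z.im|) := by
      intro z hz hz0
      rw [hτ1 z hz, hLT, hz0, zero_mul, zero_mul, zero_add]
      refine (hτ2 z hz).trans ?_
      calc 2 * Real.exp (ε * Y) * Y * ‖EE (z / Ts)‖ ≤ 2 * Real.exp (ε * Y) * Y * (CE * Ts / (1 + |z.im|)) := by
            gcongr
            exact hCE Ts hTs z hz
        _ = _ := by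
            rw [hK]
            ring
    have hterm : ∀ ρ : Zr, ‖tm (corr g) ρ‖ ≤ K ^ 2 * (mm ρ / (1 + |(zz ρ).im|) ^ 2) := by
      intro ρ
      have hre : |(zz ρ).re| ≤ 1 / 2 := (cf_zeta.re_lt ρ).le
      have hm : 0 ≤ mm ρ := by linarith [mm_one_le ρ]
      have e1 : tm (corr g) ρ = (mm ρ : ℂ) * (LT g (zz ρ) * conj (LT g (-conj (zz ρ)))) := by
        unfold Helper61.W.tm
        rw [LT_corr hg]
        rfl
      have h2 := hb (zz ρ) hre (Xi0_zz ρ)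
      have h3 := hb (-conj (zz ρ)) (by simpa using hre) (by rw [Xi0_refl, Xi0_zz, map_zero])
      have e2 : (-conj (zz ρ)).im = (zz ρ).im := by simp
      rw [e2] at h3
      rw [e1, norm_mul, Complex.norm_real, Real.norm_of_nonneg hm, norm_mul, Complex.norm_conj]
      have h0' : 0 < 1 + |(zz ρ).im| := by positivity
      have hK0 : 0 ≤ K / (1 + |(zz ρ).im|) := (norm_nonneg _).trans h2
      calc mm ρ * (‖LT g (zz ρ)‖ * ‖LT g (-conj (zz ρ))‖) ≤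
            mm ρ * ((K / (1 + |(zz ρ).im|)) * (K / (1 + |(zz ρ).im|))) := by gcongr
        _ = _ := by
            field_simp
    rw [Wf_eq_tm hg]
    calc |(∑' ρ : Zr, tm (corr g) ρ).re| ≤ ‖∑' ρ : Zr, tm (corr g) ρ‖ := Complex.abs_re_le_norm _
      _ ≤ ∑' ρ : Zr, K ^ 2 * (mm ρ / (1 + |(zz ρ).im|) ^ 2) :=
          tsum_of_norm_bounded (cf_zeta.sum2.mul_left _).hasSum hterm
      _ = _ := tsum_mul_left

/-- one test function for all points far from the zeros -/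
theorem far_fun {c : ℝ} (hc0 : 0 < c) (hc : c < 4 * Real.pi) : ∃ δ X0 : ℝ, 0 < δ ∧ 3 ≤ X0 ∧ ∀ X : ℝ, X0 ≤ X →
    ∃ (g : ℝ → ℂ) (L : ℝ), 0 < L ∧ TF g ∧ (∀ x, x ∉ Icc (-(Real.log X / 2)) (Real.log X / 2) → g x = 0) ∧
      (∀ z : ℂ, z.re = 0 → |z.im| ≤ c * X → (∀ ρ : Zr, Real.exp (-(δ * X / Real.log X)) ≤ ‖zz ρ - z‖) →
        L ≤ ‖LT g z‖ ^ 2) ∧
      |(GS.Wf g g).re| ≤ Real.exp (-(δ * X)) * L := by
  have hpi := Real.pi_pos
  obtain ⟨κ, hκ0, hκ1, hc'⟩ : ∃ κ : ℝ, 0 < κ ∧ κ < 1 ∧ c / κ < 4 * Real.pi := by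
    have hc4 : c / (4 * Real.pi) < 1 := by rw [div_lt_one (by positivity)]; exact hc
    have hc40 : 0 < c / (4 * Real.pi) := by positivity
    refine ⟨(1 + c / (4 * Real.pi)) / 2, by linarith, by linarith, ?_⟩
    rw [div_lt_iff₀ (by linarith)]
    have hκc : c / (4 * Real.pi) < (1 + c / (4 * Real.pi)) / 2 := by linarith
    rw [div_lt_iff₀ (by positivity)] at hκc
    linarith
  obtain ⟨δ0, θ1, hδ0, hθ1, hθ1', hM⟩ := Mk_low (c := c / κ) (by positivity) hc'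
  obtain ⟨θ2, hθ2, hθ2', hG⟩ := Gk_tail (ε := δ0 / 8) (by positivity)
  obtain ⟨θ0, hθ0⟩ : ∃ θ0, θ0 = max θ1 θ2 := ⟨_, rfl⟩
  have h0 : 0 < θ0 := by rw [hθ0]; exact lt_of_lt_of_le hθ1 (le_max_left _ _)
  have h1 : θ0 < Real.pi / 2 := by rw [hθ0]; exact max_lt hθ1' hθ2'
  obtain ⟨Ya, hYa, hMa⟩ := hM θ0 (by rw [hθ0]; exact le_max_left _ _) h1.le
  obtain ⟨Yb, hYb, hGb⟩ := hG θ0 (by rw [hθ0]; exact le_max_right _ _) h1
  clear hM hG hθ0 hθ1 hθ1' hθ2 hθ2' hc'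
  obtain ⟨A, hA1, hA⟩ := local_lower
  obtain ⟨CE, hCE1, hCE⟩ := EE_decay
  -- the exponent
  obtain ⟨δ, hδpos, hδA, hδ8⟩ : ∃ δ : ℝ, 0 < δ ∧ A * δ ≤ δ0 * κ / 16 ∧ δ ≤ δ0 * κ / 16 := by
    refine ⟨δ0 * κ / (16 * A), by positivity, le_of_eq (by field_simp), ?_⟩
    rw [div_le_div_iff₀ (by positivity) (by norm_num)]
    have : 0 < δ0 * κ := by positivity
    nlinarith
  -- eventual inequalities
  have hev : ∀ᶠ X : ℝ in atTop,
      (8 * A * 1 / (δ0 * κ) * Real.log X ^ 3 ≤ X) ∧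
      (16 * CE ^ 2 * (S0 + 1) * X ^ 6 ≤ Real.exp (δ0 * κ / 8 * X)) ∧
      (8 * X ^ 1 ≤ Real.exp (δ0 * κ / 8 * X)) ∧
      (max (Ya / κ) (Yb / κ) ≤ X) ∧ (1 / (-Real.log κ) ≤ X) ∧ 16 * (c + 3) ≤ X := by
    refine (ev_log _ 3).and ((ev_exp _ 6 (by positivity)).and ((ev_exp _ 1 (by positivity)).and
      ((eventually_ge_atTop _).and ((eventually_ge_atTop _).and (eventually_ge_atTop _)))))
  obtain ⟨X1, hX1⟩ := eventually_atTop.mp hev
  refine ⟨δ, max X1 16, hδpos, le_trans (by norm_num) (le_max_right _ _), fun X hX => ?_⟩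
  obtain ⟨x1, x2, x3, x4, x6, x9⟩ := hX1 X ((le_max_left _ _).trans hX)
  have hX16 : 16 ≤ X := (le_max_right _ _).trans hX
  clear hX1 hev hX
  have hX0 : 0 < X := by linarith
  have hL1 : 1 ≤ Real.log X := by
    rw [Real.le_log_iff_exp_le hX0]
    have := Real.exp_one_lt_d9
    linarith
  have hYa' : Ya ≤ κ * X := by
    have := (le_max_left _ _).trans x4
    rw [div_le_iff₀ hκ0] at this
    linarith
  have hYb' : Yb ≤ κ * X := by
    have := (le_max_right _ _).trans x4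
    rw [div_le_iff₀ hκ0] at this
    linarith
  have hY1 : 1 ≤ κ * X := hYa.trans hYa'
  have hcY : c / κ * (κ * X) = c * X := by
    field_simp
  have hYX : κ * X ≤ X := mul_le_of_le_one_left hX0.le hκ1.le
  obtain ⟨g, hg, hgs, hg1, hg2⟩ := far_core (ε := δ0 / 8) (Ts := X ^ 2) h0 h1 hY1
    (fun x hx => hGb (κ * X) hYb' x hx) (by nlinarith) hCE
  have hsupp := par_supp hκ0 hκ1 hX16 x6
  obtain ⟨E, hE⟩ : ∃ E, E = Real.exp (δ0 * κ / 8 * X) := ⟨_, rfl⟩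
  have hE0 : 0 < E := by rw [hE]; exact Real.exp_pos _
  rw [← hE] at x2 x3
  rw [pow_one] at x3
  have e1 : Real.exp (δ0 / 8 * (κ * X)) = E := by rw [hE]; congr 1; ring
  have e2 : Real.exp (δ0 * (κ * X) / 2) = E ^ 4 := by
    rw [hE, ← Real.exp_nat_mul]
    congr 1
    push_cast
    ring
  rw [e1] at hg1 hg2
  have hE1 : 1 ≤ E := by linarith
  refine ⟨g, E ^ 4, by positivity, hg, fun x hx => hgs x fun hx2 => hx ?_, fun z hz hzi hzρ => ?_, ?_⟩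
  · constructor
    · linarith [hx2.1]
    · linarith [hx2.2]
  · -- the lower bound
    obtain ⟨B, hB, hBf, -⟩ := exists_B ∅
    have hBX : ∀ w, B w = Xi0 w := by
      intro w
      rw [hBf w]
      unfold PG
      rw [Finset.prod_empty, one_mul]
    have hlogc := par_log hX16 x9 hzi (abs_nonneg _)
    have hr0 : 0 < Real.exp (-(δ * X / Real.log X)) := Real.exp_pos _
    have hr1 : Real.exp (-(δ * X / Real.log X)) ≤ 1 := by
      rw [Real.exp_le_one_iff, neg_nonpos]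
      positivity
    have h4 := hA z ∅ B (Real.exp (-(δ * X / Real.log X))) (by rw [hz]) (by rw [hz]; norm_num) hr0 hr1 hB hBf
      (fun ρ hρ => absurd hρ (Finset.notMem_empty _)) (fun ρ _ => hzρ ρ)
    have h5 := hMa (κ * X) hYa' z (by rw [hz]; norm_num) (by rw [hcY]; exact hzi)
    have hlog : Real.log (1 / Real.exp (-(δ * X / Real.log X))) = δ * X / Real.log X := by
      rw [one_div, ← Real.exp_neg, Real.log_exp, neg_neg]
    rw [hlog] at h4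
    have hV := par_V (K1 := 1) (r := δ * X / Real.log X) hA1 hδ0 hκ0 hX0 hL1 hδA hlogc (by
      have : 1 ≤ Real.log X ^ 2 := one_le_pow₀ hL1
      linarith) (by positivity) x1
    have h6 : E ^ 4 ≤ ‖Xi0 z‖ * ‖Mk (κ * X) θ0 z‖ := by
      rw [← e2, ← hBX]
      calc Real.exp (δ0 * (κ * X) / 2) ≤
          Real.exp (-(A * Real.log (3 + |z.im|) * (1 + δ * X / Real.log X)) - Real.pi * |z.im| / 4) *
            Real.exp (δ0 * (κ * X) + Real.pi * |z.im| / 4) := by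
            rw [← Real.exp_add]
            apply Real.exp_le_exp.mpr
            linarith
        _ ≤ _ := by gcongr
    have h7 : 1 / 2 ≤ ‖EE (z / ((X ^ 2 : ℝ) : ℂ))‖ := by
      have hzn : ‖z‖ ≤ c * X := by
        have h8 := Complex.norm_le_abs_re_add_abs_im z
        rw [hz, abs_zero, zero_add] at h8
        linarith
      have h8 : ‖z / ((X ^ 2 : ℝ) : ℂ)‖ ≤ 1 := by
        rw [norm_div, Complex.norm_real, Real.norm_of_nonneg (by positivity), div_le_one (by positivity)]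
        nlinarith
      have h9 := EE_near_one (h8.trans (by norm_num))
      have h10 : ‖(1 : ℂ)‖ ≤ ‖EE (z / ((X ^ 2 : ℝ) : ℂ))‖ + ‖EE (z / ((X ^ 2 : ℝ) : ℂ)) - 1‖ := by
        calc ‖(1 : ℂ)‖ = ‖EE (z / ((X ^ 2 : ℝ) : ℂ)) - (EE (z / ((X ^ 2 : ℝ) : ℂ)) - 1)‖ := by ring_nf
          _ ≤ _ := norm_sub_le _ _
      rw [norm_one] at h10
      linarith
    have h8 := hg1 z (by rw [hz]; norm_num)
    have h9 : 2 * E ^ 2 ≤ E ^ 4 - 2 * E * (κ * X) := by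
      have h10 : 2 * E * (κ * X) ≤ E * E / 4 := by
        have : 2 * (κ * X) ≤ E / 4 := by linarith
        nlinarith
      have h11 : (8 : ℝ) ≤ E := by linarith
      have h12 : E ^ 2 * 8 ≤ E ^ 2 * E ^ 2 := by
        have h13 : (8 : ℝ) ≤ E ^ 2 := by nlinarith
        gcongr
      nlinarith
    have h10 : E ^ 2 ≤ ‖LT g z‖ := by
      have h11 : 0 ≤ ‖Xi0 z‖ * ‖Mk (κ * X) θ0 z‖ - 2 * E * (κ * X) := by nlinarith [sq_nonneg E]
      nlinarith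
    calc E ^ 4 = (E ^ 2) ^ 2 := by ring
      _ ≤ ‖LT g z‖ ^ 2 := by gcongr
  · refine hg2.trans ?_
    have hS := S0_nonneg
    have h3 : (2 * E * (κ * X) * (CE * X ^ 2)) ^ 2 * S0 ≤ (16 * CE ^ 2 * (S0 + 1) * X ^ 6) * E ^ 2 := by
      have h4 : (κ * X) ^ 2 ≤ X ^ 2 := by gcongr
      calc (2 * E * (κ * X) * (CE * X ^ 2)) ^ 2 * S0 = 4 * CE ^ 2 * S0 * X ^ 4 * E ^ 2 * (κ * X) ^ 2 := by ring
        _ ≤ 4 * CE ^ 2 * S0 * X ^ 4 * E ^ 2 * X ^ 2 := by gcongr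
        _ = (4 * CE ^ 2 * S0 * X ^ 6) * E ^ 2 := by ring
        _ ≤ (16 * CE ^ 2 * (S0 + 1) * X ^ 6) * E ^ 2 := by
            gcongr
            · norm_num
            · linarith
    have h4 : (16 * CE ^ 2 * (S0 + 1) * X ^ 6) * E ^ 2 ≤ E * E ^ 2 := by gcongr
    have h5 : 1 ≤ Real.exp (-(δ * X)) * E := by
      rw [hE, ← Real.exp_add]
      apply Real.one_le_exp
      have : δ * X ≤ δ0 * κ / 16 * X := by gcongr
      have h6 : 0 < δ0 * κ * X := by positivity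
      linarith
    calc (2 * E * (κ * X) * (CE * X ^ 2)) ^ 2 * S0 ≤ E * E ^ 2 := h3.trans h4
      _ = 1 * E ^ 3 := by ring
      _ ≤ (Real.exp (-(δ * X)) * E) * E ^ 3 := by gcongr
      _ = _ := by ring

/-- **The zeros far from the zeros of zeta have very small total weight.** -/
theorem far_mass {c : ℝ} (hc0 : 0 < c) (hc : c < 4 * Real.pi) : ∃ δ X0 : ℝ, 0 < δ ∧ 3 ≤ X0 ∧ ∀ X : ℝ, X0 ≤ X →
    0 ≤ zetaDat.low (Real.log X / 2) →
    ∀ (ζ : Type) (p : ζ → ℂ) (ν : ζ → ℝ), GR.TraceF zetaDat (Real.log X / 2) p ν →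
      ∀ S : Finset ζ, (∀ s ∈ S, |(p s).im| ≤ c * X ∧ ∀ ρ : Zr, Real.exp (-(δ * X / Real.log X)) ≤ ‖zz ρ - p s‖) →
        ∑ s ∈ S, ν s ≤ Real.exp (-(δ * X)) := by
  obtain ⟨δ, X0, hδ, hX0, h⟩ := far_fun hc0 hc
  refine ⟨δ, X0, hδ, hX0, fun X hX hl ζ p ν hF S hS => ?_⟩
  have ha : 0 < Real.log X / 2 := by
    have := Real.log_pos (by linarith : 1 < X)
    linarith
  obtain ⟨g, L, hL, hg, hgs, hg1, hg2⟩ := h X hX
  have hgT : g ∈ Ts (Real.log X / 2) := ⟨hg.smooth, fun x hx => hgs x fun hx2 => by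
    have := abs_le.mpr ⟨hx2.1, hx2.2⟩
    linarith⟩
  have hs := hF.sum ⟨g, hgT⟩
  have h1 : ∑ s ∈ S, ν s * ‖W.LT g (p s)‖ ^ 2 ≤
      (zetaDat.Wf g g).re - zetaDat.low (Real.log X / 2) * ‖toL (Real.log X / 2) ⟨g, hgT⟩‖ ^ 2 :=
    sum_le_hasSum S (fun s _ => mul_nonneg (hF.nn s) (sq_nonneg _)) hs
  have h2 : 0 ≤ zetaDat.low (Real.log X / 2) * ‖toL (Real.log X / 2) ⟨g, hgT⟩‖ ^ 2 := mul_nonneg hl (sq_nonneg _)
  have h3 : (zetaDat.Wf g g).re ≤ Real.exp (-(δ * X)) * L := (le_abs_self _).trans hg2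
  have h4 : L * ∑ s ∈ S, ν s ≤ ∑ s ∈ S, ν s * ‖W.LT g (p s)‖ ^ 2 := by
    rw [Finset.mul_sum]
    refine Finset.sum_le_sum fun s hsS => ?_
    have h5 := hg1 (p s) (hF.re s) (hS s hsS).1 (hS s hsS).2
    have h6 := hF.nn s
    calc L * ν s = ν s * L := mul_comm _ _
      _ ≤ _ := by gcongr
  have h5 : L * ∑ s ∈ S, ν s ≤ L * Real.exp (-(δ * X)) := by
    calc L * ∑ s ∈ S, ν s ≤ _ := h4.trans h1
      _ ≤ Real.exp (-(δ * X)) * L := by linarith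
      _ = _ := mul_comm _ _
  exact le_of_mul_le_mul_left h5 hL

end Pool.Agent.Helper61.NZ
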