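import Pool.Agent.Helper61.NZ.Nj

set_option autoImplicit false

/-!
# The test function of one zero on the line or very near to it: flatness

Adapted from `Pool.Agent.Helper76.EX.Sgl`.
-/

namespace Pool.Agent.Helper61.NZ

open Complex Filter Topology Set MeasureTheory Metric
open scoped ComplexConjugate ContDiff
open Pool.Agent.V11271.LI (Zr zz mm reflE zz_refl mm_refl mm_one_le)
open Pool.Agent.Helper76.LW (cf_zeta Near finite_zeta)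
open Pool.Agent.Helper76.EW (FF EE EE_near_one)
open Pool.Agent.Helper76.EX
open Pool.Agent.Helper61.W (LT TF)

lemma EE_diff : Differentiable ℂ EE := by
  have h : Differentiable ℂ (LT Pool.Agent.Helper76.EW.etc) :=
    Pool.Agent.Helper61.W.LT_differentiable Pool.Agent.Helper76.EW.etc_tf
  exact h

theorem near4 {Y θ0 ε Ts η ro N V Mu C R : ℝ} (p0 : Zr) (h0 : 0 < θ0) (h1 : θ0 < Real.pi / 2) (hY : 1 ≤ Y)
    (htail : ∀ x : ℝ, Real.log Y / 2 ≤ |x| →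
      ‖Gk Y θ0 x‖ ≤ Real.exp (ε * Y) * Real.exp (-2 * (|x| - Real.log Y / 2)))
    (hro : 0 < ro) (hro1 : ro ≤ 1 / 8) (hη : 0 < η) (hη1 : η ≤ 1 / 8)
    (hre : 2 * |(zz p0).re| ≤ η * ro)
    (hgap : ∀ ρ, ‖zz ρ - zz p0‖ ≤ ro → ‖zz ρ - zz p0‖ ≤ η * ro)
    (hN : ∀ Γ : Finset Zr, (∀ ρ ∈ Γ, |(zz ρ).im - (zz p0).im| ≤ 1) → ∑ ρ ∈ Γ, mm ρ ≤ N)
    (hV : 0 ≤ V) (hlow : ∀ (Γ : Finset Zr) (B : ℂ → ℂ), Differentiable ℂ B → (∀ z, Xi0 z = PG Γ z * B z) →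
      (∀ ρ ∈ Γ, ‖zz ρ - zz p0‖ ≤ 2) → (∀ ρ, ρ ∉ Γ → ro ≤ ‖zz ρ - zz p0‖) →
      Real.exp V ≤ ‖B (zz p0)‖ * ‖Mk Y θ0 (zz p0)‖)
    (hC : ∀ z : ℂ, |z.re| ≤ 1 → ‖Xi0 z‖ ≤ C)
    (hMu0 : 0 < Mu) (hMu : C * Real.exp (N * Real.log (1 / (ro / 4))) *
      (4 * Real.exp (2 * Real.pi * Y + (‖zz p0‖ + 1))) ≤ Real.exp Mu)
    (hR0 : 0 < R) (hR : R ≤ ro / 4) (hR2 : 8 * (Mu + 2) * R ≤ ro) (hTs : 16 * (‖zz p0‖ + 1) ≤ Ts) :
    ∃ (g : ℝ → ℂ) (F τ : ℂ → ℂ), TF g ∧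
      (∀ x, x ∉ Icc (-(Real.log Y / 2 + 1 / 4 / Ts)) (Real.log Y / 2 + 1 / 4 / Ts) → g x = 0) ∧
      (∀ z : ℂ, |z.re| ≤ 1 / 2 → LT g z = F z + τ z) ∧
      (7 / 8 ≤ ‖F (zz p0)‖ ∧ ‖F (zz p0)‖ ≤ 9 / 8) ∧
      (∀ w : ℂ, ‖w - zz p0‖ ≤ R → ‖F w - F (zz p0)‖ ≤ 32 * (Mu + 2) * R / ro) ∧
      (∀ ρ : Zr, ro < ‖zz ρ - zz p0‖ → F (zz ρ) = 0 ∧ F (-conj (zz ρ)) = 0) ∧
      ∀ z : ℂ, |z.re| ≤ 1 / 2 → ‖τ z‖ ≤ 2 * (Real.exp (-V) * Real.exp (ε * Y)) * Y * ‖EE (z / Ts)‖ := by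
  classical
  set p := zz p0 with hp
  have hpre : |p.re| < 1 / 2 := cf_zeta.re_lt p0
  have hηro : η * ro ≤ 1 / 8 * ro := by gcongr
  have hpq : ‖p - (-conj p)‖ = 2 * |p.re| := by
    have : p - (-conj p) = ((2 * p.re : ℝ) : ℂ) := by
      apply Complex.ext
      · simp
        ring
      · simp
    rw [this, Complex.norm_real, Real.norm_eq_abs, abs_mul]
    norm_num
  have hTs0 : 0 < Ts := by
    have := norm_nonneg p
    linarith
  -- the cluster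
  obtain ⟨Γ0, hΓ0⟩ := exists_cluster p ro (by linarith)
  obtain ⟨Γ, hΓ⟩ : ∃ Γ : Finset Zr, ∀ ρ : Zr, ρ ∈ Γ ↔ ‖zz ρ - p‖ ≤ ro := by
    refine ⟨Γ0.filter fun ρ => ‖zz ρ - p‖ ≤ ro, fun ρ => ?_⟩
    rw [Finset.mem_filter, hΓ0]
    exact ⟨fun h => h.2, fun h => ⟨Or.inl h, h⟩⟩
  have hmir : ∀ ρ : Zr, ‖zz ρ - p‖ ≤ ro → ‖-conj (zz ρ) - p‖ ≤ 2 * (η * ro) := by
    intro ρ hρ
    have e := norm_refl_sub (zz ρ) p
    rw [e]
    have h3 : ‖zz ρ - (-conj p)‖ ≤ ‖zz ρ - p‖ + ‖p - (-conj p)‖ := by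
      calc ‖zz ρ - (-conj p)‖ = ‖(zz ρ - p) + (p - (-conj p))‖ := by ring_nf
        _ ≤ _ := norm_add_le _ _
    rw [hpq] at h3
    have h4 := hgap ρ hρ
    change ‖zz ρ - p‖ ≤ η * ro at h4
    linarith
  have hΓr : ∀ ρ, ρ ∈ Γ → reflE ρ ∈ Γ := by
    intro ρ hρ
    rw [hΓ] at hρ ⊢
    rw [zz_refl]
    have := hmir ρ hρ
    linarith
  have hp0Γ : p0 ∈ Γ := by
    rw [hΓ]
    rw [← hp, sub_self, norm_zero]
    exact hro.le
  obtain ⟨B, hB, hBf, hB0⟩ := exists_B Γ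
  have hΓ2 : ∀ ρ ∈ Γ, ‖zz ρ - p‖ ≤ 2 := by
    intro ρ hρ
    have := (hΓ ρ).mp hρ
    linarith
  have hΓi : ∀ ρ ∈ Γ, |(zz ρ).im - p.im| ≤ 1 := by
    intro ρ hρ
    have h3 := (hΓ ρ).mp hρ
    have := Complex.abs_im_le_norm (zz ρ - p)
    rw [Complex.sub_im] at this
    linarith
  have hΓout : ∀ ρ, ρ ∉ Γ → ro < ‖zz ρ - p‖ := by
    intro ρ hρ
    rw [hΓ] at hρ
    push Not at hρ
    exact hρ
  have hNΓ := hN Γ hΓi
  have hlowB := hlow Γ B hB hBf hΓ2 (fun ρ hρ => (hΓout ρ hρ).le)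
  -- the function
  set B0 : ℂ → ℂ := fun z => B z * Mk Y θ0 z with hB0def
  have hB0d : Differentiable ℂ B0 := hB.mul (Mk_diff Y θ0)
  have hB0p : Real.exp V ≤ ‖B0 p‖ := by
    rw [hB0def]
    simp only
    rw [norm_mul]
    exact hlowB
  have hV1 : 1 ≤ Real.exp V := Real.one_le_exp hV
  have hd_p : ∀ z : ℂ, ‖z - p‖ = ro / 2 → ∀ ρ ∈ Γ, ro / 4 ≤ ‖z - zz ρ‖ := by
    intro z hz ρ hρ
    have h4 := hgap ρ ((hΓ ρ).mp hρ)
    have h5 : ‖z - p‖ ≤ ‖z - zz ρ‖ + ‖zz ρ - p‖ := by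
      calc ‖z - p‖ = ‖(z - zz ρ) + (zz ρ - p)‖ := by ring_nf
        _ ≤ _ := norm_add_le _ _
    change ‖zz ρ - p‖ ≤ η * ro at h4
    linarith
  have hup : ∀ z ∈ ball p (ro / 2), ‖B0 z‖ ≤ Real.exp Mu := by
    intro z hz
    rw [mem_ball, dist_eq_norm] at hz
    have h3 := B_up hC hB hBf (r := ro / 2) (a := ro / 4) (N := N) (by linarith) (by linarith) hpre.le
      (by linarith) (by linarith) hd_p hNΓ z hz.le
    have h4 := Mk_up (by linarith : (0:ℝ) ≤ Y) h0.le h1.le z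
    have h5 : ‖z‖ ≤ ‖p‖ + 1 := by
      have : ‖z‖ ≤ ‖z - p‖ + ‖p‖ := by
        calc ‖z‖ = ‖(z - p) + p‖ := by ring_nf
          _ ≤ _ := norm_add_le _ _
      linarith
    have hC0 : 0 ≤ C := (norm_nonneg _).trans (hC 0 (by simp))
    rw [hB0def]
    simp only
    rw [norm_mul]
    refine le_trans ?_ hMu
    gcongr
    refine h4.trans ?_
    gcongr
  have hnz : ∀ z ∈ ball p (ro / 2), B0 z ≠ 0 := by
    intro z hz h3
    rw [mem_ball, dist_eq_norm] at hz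
    rw [hB0def] at h3
    simp only at h3
    have hzre : |z.re| ≤ 1 := by
      have h4 := Complex.abs_re_le_norm (z - p)
      rw [Complex.sub_re] at h4
      have h5 : |z.re| ≤ |z.re - p.re| + |p.re| := by
        calc |z.re| = |(z.re - p.re) + p.re| := by ring_nf
          _ ≤ _ := abs_add_le _ _
      linarith
    rcases mul_eq_zero.mp h3 with h4 | h4
    · obtain ⟨ρ, hρ, hz2⟩ := hB0 z h4
      have := hΓout ρ hρ
      rw [← hz2] at this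
      linarith
    · exact Mk_ne h0 h1.le hzre h4
  have hB0pn : B0 p ≠ 0 := norm_pos_iff.mp (by linarith)
  set u : ℂ := (B0 p)⁻¹ with hu
  have hun : ‖u‖ ≤ Real.exp (-V) := by
    rw [hu, norm_inv, Real.exp_neg]
    gcongr
  have hu0 : u ≠ 0 := inv_ne_zero hB0pn
  -- the kernel
  obtain ⟨s, hs1, hs2, hs3⟩ := exists_LP Γ
  have hlogY : 0 ≤ Real.log Y / 2 := div_nonneg (Real.log_nonneg hY) (by norm_num)
  have hTl : Tl (Real.log Y / 2) (Real.exp (ε * Y)) (Gk Y θ0) := ⟨Gk_cont h0 h1, htail⟩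
  obtain ⟨G', hG', hG'L⟩ := hTl.rem_lin (Real.exp_pos _).le hlogY (hs3 ⟨p0, hp0Γ⟩) (fun w hw => by
    obtain ⟨ρ, -, rfl⟩ := hs2 w hw
    exact (cf_zeta.re_lt ρ).le) (R := ‖p‖ + 1) (fun w hw => by
    obtain ⟨ρ, hρ, rfl⟩ := hs2 w hw
    have h3 := (hΓ ρ).mp hρ
    have : ‖zz ρ‖ ≤ ‖zz ρ - p‖ + ‖p‖ := by
      calc ‖zz ρ‖ = ‖(zz ρ - p) + p‖ := by ring_nf
        _ ≤ _ := norm_add_le _ _
    linarith) (F := B0) hB0d.continuous (fun z hz => by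
    have := (Gk_transform (Y := Y) h0 h1 z).2
    unfold Helper61.W.LT
    rw [this, hBf, hs1, hB0def]
    ring) u 0
  have hE' : 0 ≤ (‖u‖ + ‖(0 : ℂ)‖ * (‖p‖ + 1 + 1)) * Real.exp (ε * Y) := by positivity
  obtain ⟨g, hg, hgs, τ, hτ1, hτ2⟩ := hG'.smooth hlogY hE' hTs0
  have hEE : ∀ w : ℂ, ‖w - p‖ ≤ 1 → ‖EE (w / Ts) - 1‖ ≤ 1 / 32 := by
    intro w hw
    have h3 : ‖w / (Ts : ℂ)‖ ≤ 1 / 16 := by
      rw [norm_div, Complex.norm_real, Real.norm_of_nonneg hTs0.le, div_le_iff₀ hTs0]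
      have : ‖w‖ ≤ ‖w - p‖ + ‖p‖ := by
        calc ‖w‖ = ‖(w - p) + p‖ := by ring_nf
          _ ≤ _ := norm_add_le _ _
      linarith
    exact (EE_near_one (by linarith)).trans (by linarith)
  have hEEl : ∀ w : ℂ, ‖w - p‖ ≤ 1 → 31 / 32 ≤ ‖EE (w / Ts)‖ ∧ ‖EE (w / Ts)‖ ≤ 33 / 32 := by
    intro w hw
    have h3 := hEE w hw
    have h4 : ‖(1 : ℂ)‖ ≤ ‖EE (w / Ts)‖ + ‖EE (w / Ts) - 1‖ := by
      calc ‖(1 : ℂ)‖ = ‖EE (w / Ts) - (EE (w / Ts) - 1)‖ := by ring_nf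
        _ ≤ _ := norm_sub_le _ _
    have h5 : ‖EE (w / Ts)‖ ≤ ‖EE (w / Ts) - 1‖ + ‖(1 : ℂ)‖ := by
      calc ‖EE (w / Ts)‖ = ‖(EE (w / Ts) - 1) + 1‖ := by ring_nf
        _ ≤ _ := norm_add_le _ _
    rw [norm_one] at h4 h5
    constructor <;> linarith
  obtain ⟨F, hF⟩ : ∃ F : ℂ → ℂ, F = fun z => u * B0 z * EE (z / Ts) := ⟨_, rfl⟩
  have hFp : F p = EE (p / Ts) := by
    rw [hF, hu]
    simp only
    rw [inv_mul_cancel₀ hB0pn, one_mul]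
  have hpp : ‖p - p‖ ≤ 1 := by
    rw [sub_self, norm_zero]
    norm_num
  have hFp1 := hEEl p hpp
  rw [← hFp] at hFp1
  have hEEd : Differentiable ℂ fun z : ℂ => EE (z / Ts) := EE_diff.comp (differentiable_id.div_const _)
  have hFd : Differentiable ℂ F := by
    rw [hF]
    exact ((differentiable_const u).mul hB0d).mul hEEd
  have hFnz : ∀ z ∈ ball p (ro / 2), F z ≠ 0 := by
    intro z hz
    have h3 := hnz z hz
    rw [mem_ball, dist_eq_norm] at hz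
    have h4 := (hEEl z (by linarith)).1
    rw [hF]
    refine mul_ne_zero (mul_ne_zero hu0 h3) ?_
    intro h5
    rw [h5, norm_zero] at h4
    linarith
  have hun1 : ‖u‖ ≤ 1 := hun.trans (by
    rw [Real.exp_le_one_iff, neg_nonpos]
    exact hV)
  have hFup : ∀ z ∈ ball p (ro / 2), ‖F z‖ ≤ Real.exp (Mu + 2) * ‖F p‖ := by
    intro z hz
    have h3 := hup z hz
    rw [mem_ball, dist_eq_norm] at hz
    have h4 := (hEEl z (by linarith)).2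
    have h5 : ‖F z‖ ≤ 1 * Real.exp Mu * (33 / 32) := by
      rw [hF]
      simp only
      rw [norm_mul, norm_mul]
      gcongr
    have h6 : (33 / 32 : ℝ) ≤ Real.exp 2 * ‖F p‖ := by
      have h7 := Real.add_one_le_exp (2 : ℝ)
      nlinarith [hFp1.1]
    rw [Real.exp_add]
    calc ‖F z‖ ≤ Real.exp Mu * (33 / 32) := by linarith
      _ ≤ Real.exp Mu * (Real.exp 2 * ‖F p‖) := by gcongr
      _ = _ := by ring
  have hflat : ∀ w : ℂ, ‖w - p‖ ≤ R → ‖F w - F p‖ ≤ 32 * (Mu + 2) * R / ro := by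
    intro w hw
    have h3 : 0 < ro / 2 := by linarith
    have h4 : 0 ≤ ‖w - p‖ := norm_nonneg _
    have h7 := var_le h3 (hFd.differentiableOn) hFnz (by linarith : 0 < Mu + 2) hFup
      (show ‖w - p‖ ≤ ro / 2 / 2 by linarith) (by
      rw [div_le_one h3]
      nlinarith)
    have hFpn : F p ≠ 0 := by
      intro h5
      rw [h5, norm_zero] at hFp1
      linarith [hFp1.1]
    have h8 : F w - F p = F p * (F w / F p - 1) := by
      field_simp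
    rw [h8, norm_mul]
    calc ‖F p‖ * ‖F w / F p - 1‖ ≤ 2 * (8 * (Mu + 2) * ‖w - p‖ / (ro / 2)) := by
          gcongr
          linarith [hFp1.2]
      _ ≤ 2 * (8 * (Mu + 2) * R / (ro / 2)) := by gcongr
      _ = _ := by
          field_simp
          norm_num
  have hzero : ∀ ρ : Zr, ρ ∉ Γ → B0 (zz ρ) = 0 := by
    intro ρ hnot
    have h5 : Xi0 (zz ρ) = 0 := by
      obtain ⟨B1, -, hB1, -⟩ := exists_B {ρ}
      rw [hB1]
      unfold PG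
      have hne : analyticOrderNatAt riemannZeta (ρ : ℂ) ≠ 0 := by
        intro h6
        have := mm_one_le ρ
        unfold V11271.LI.mm at this
        rw [h6] at this
        norm_num at this
      rw [Finset.prod_singleton, sub_self, zero_pow hne, zero_mul]
    have h6 : PG Γ (zz ρ) ≠ 0 := PG_ne fun σ hσ he => hnot (by rw [zz_inj he]; exact hσ)
    have h7 : B (zz ρ) = 0 := by
      have := hBf (zz ρ)
      rw [h5] at this
      exact (mul_eq_zero.mp this.symm).resolve_left h6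
    rw [hB0def]
    simp only
    rw [h7, zero_mul]
  refine ⟨g, F, τ, hg, hgs, fun z hz => ?_, ⟨by linarith [hFp1.1], by linarith [hFp1.2]⟩, hflat, ?_, fun z hz => ?_⟩
  · rw [hτ1 z hz, hG'L z (by linarith), zero_mul, add_zero, hF]
  · intro ρ h3
    have hnot : ρ ∉ Γ := by
      rw [hΓ]
      push Not
      exact h3
    have hnot2 : reflE ρ ∉ Γ := by
      intro h4
      apply hnot
      have h5 := hΓr _ h4
      have h6 : reflE (reflE ρ) = ρ := Pool.Agent.V11271.LI.refl0_refl0 ρ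
      rwa [h6] at h5
    rw [hF]
    constructor
    · show u * B0 (zz ρ) * EE (zz ρ / Ts) = 0
      rw [hzero ρ hnot]
      ring
    · show u * B0 (-conj (zz ρ)) * EE (-conj (zz ρ) / Ts) = 0
      have := hzero _ hnot2
      rw [zz_refl] at this
      rw [this]
      ring
  · refine (hτ2 z hz).trans ?_
    have h3 : Real.exp (2 * (Real.log Y / 2)) = Y := by
      rw [show 2 * (Real.log Y / 2) = Real.log Y by ring, Real.exp_log (by linarith)]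
    rw [h3, norm_zero, zero_mul, add_zero]
    gcongr

end Pool.Agent.Helper61.NZ
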