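import Pool.Agent.Helper61.NZ.Nk

set_option autoImplicit false

/-!
# Choice of the parameters for the flat test function
-/

namespace Pool.Agent.Helper61.NZ

open Complex Filter Topology Set MeasureTheory Metric
open scoped ComplexConjugate ContDiff
open Pool.Agent.V11271.LI (Zr zz mm)
open Pool.Agent.Helper76.LW (cf_zeta finite_zeta UC UC.scale)
open Pool.Agent.Helper76.EW (FF EE EE_near_one etc_tf)
open Pool.Agent.Helper76.EX
open Pool.Agent.Helper61.W (LT TF LT_bound)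

/-- the ratio of the scales -/
noncomputable def th (δ X : ℝ) : ℝ := Real.exp (-(δ * X / Real.log X ^ 2))

lemma th_pos (δ X : ℝ) : 0 < th δ X := Real.exp_pos _

lemma ev_exp_log2 (K : ℝ) (n : ℕ) {δ : ℝ} (hδ : 0 < δ) :
    ∀ᶠ X : ℝ in atTop, K * X ^ n ≤ Real.exp (δ * X / Real.log X ^ 2) := by
  filter_upwards [ev_log ((Real.log (|K| + 1) + n) / δ) 3, eventually_ge_atTop (Real.exp 1)] with X h1 h2
  have hX0 : 0 < X := (Real.exp_pos 1).trans_le h2
  have hL1 : 1 ≤ Real.log X := (Real.le_log_iff_exp_le hX0).mpr h2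
  have hL0 : 0 < Real.log X := by linarith
  have hK : 0 ≤ Real.log (|K| + 1) := Real.log_nonneg (by linarith [abs_nonneg K])
  have h3 : (Real.log (|K| + 1) + n) * Real.log X ≤ δ * X / Real.log X ^ 2 := by
    rw [le_div_iff₀ (by positivity)]
    have : (Real.log (|K| + 1) + n) / δ * Real.log X ^ 3 =
        ((Real.log (|K| + 1) + n) * Real.log X * Real.log X ^ 2) / δ := by ring
    rw [this, div_le_iff₀ hδ] at h1
    linarith
  calc K * X ^ n ≤ (|K| + 1) * X ^ n := by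
        gcongr
        exact (le_abs_self K).trans (by linarith)
    _ = Real.exp (Real.log (|K| + 1) + n * Real.log X) := by
        rw [Real.exp_add, Real.exp_log (by positivity), ← Real.log_pow, Real.exp_log (by positivity)]
    _ ≤ Real.exp (δ * X / Real.log X ^ 2) := by
        apply Real.exp_le_exp.mpr
        have : Real.log (|K| + 1) ≤ Real.log (|K| + 1) * Real.log X := le_mul_of_one_le_right hK hL1
        linarith

lemma par_ro5 {δ δ2 X B1 : ℝ} {k : ℕ} (hX : 16 ≤ X) (hL1 : 1 ≤ Real.log X) (hδ : 0 < δ) (hB1 : 0 < B1)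
    (hk : (k : ℝ) ≤ 8 * B1 * Real.log X) (hδ2 : δ2 = δ / (16 * (B1 + 1))) :
    Real.log (1 / ((th δ2 X ^ 2) ^ k * (E0 δ X / 2))) ≤ 2 * δ * X / Real.log X + 3 := by
  have hX0 : 0 < X := by linarith
  have hE0 := E0_pos δ X
  have hL0 : 0 < Real.log X := by linarith
  have ht := th_pos δ2 X
  have e1 : Real.log (1 / ((th δ2 X ^ 2) ^ k * (E0 δ X / 2))) =
      k * (2 * (δ2 * X / Real.log X ^ 2)) + (Real.log 8 + δ * X / Real.log X) := by
    rw [one_div, Real.log_inv, Real.log_mul (by positivity) (by positivity), Real.log_pow, Real.log_pow]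
    have h1 : Real.log (th δ2 X) = -(δ2 * X / Real.log X ^ 2) := by
      unfold th
      rw [Real.log_exp]
    have h2 : Real.log (E0 δ X / 2) = -(δ * X / Real.log X) - Real.log 8 := by
      unfold E0
      rw [show Real.exp (-(δ * X / Real.log X)) / 4 / 2 = Real.exp (-(δ * X / Real.log X)) / 8 by ring,
        Real.log_div (Real.exp_pos _).ne' (by norm_num), Real.log_exp]
    rw [h1, h2]
    push_cast
    ring
  have hl8 : Real.log 8 ≤ 3 := by
    have : (8 : ℝ) = 2 ^ 3 := by norm_num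
    rw [this, Real.log_pow]
    have := Real.log_two_lt_d9
    push_cast
    linarith
  have hδ20 : 0 < δ2 := by rw [hδ2]; positivity
  have h3 : (k : ℝ) * (2 * (δ2 * X / Real.log X ^ 2)) ≤ δ * X / Real.log X := by
    calc (k : ℝ) * (2 * (δ2 * X / Real.log X ^ 2)) ≤ (8 * B1 * Real.log X) * (2 * (δ2 * X / Real.log X ^ 2)) := by
          gcongr
      _ = (16 * B1 * δ2) * X / Real.log X := by
          field_simp
          ring
      _ ≤ δ * X / Real.log X := by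
          gcongr
          rw [hδ2, mul_div_assoc', div_le_iff₀ (by positivity)]
          nlinarith
  rw [e1]
  have e2 : 2 * δ * X / Real.log X = δ * X / Real.log X + δ * X / Real.log X := by ring
  linarith

lemma par_dev5 {δ δ1 δ2 X ro r B1 : ℝ} (hX : 16 ≤ X) (hL1 : 1 ≤ Real.log X) (hδ : 0 < δ) (hδ1 : 3 * δ ≤ δ1 / 2)
    (hB1 : 0 < B1) (hδ2 : δ2 = δ / (16 * (B1 + 1)))
    (hro : 0 < ro) (hlogro : Real.log (1 / ro) ≤ 2 * δ * X / Real.log X + 3)
    (x10 : 8 / δ1 * Real.log X ^ 1 ≤ X) (hr : r ≤ Real.exp (-(δ1 * X / Real.log X))) :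
    2 * r ≤ th δ2 X ^ 2 * ro := by
  have hX0 : 0 < X := by linarith
  have hL0 : 0 < Real.log X := by linarith
  have hδ10 : 0 < δ1 := by linarith
  have hδ20 : 0 < δ2 := by rw [hδ2]; positivity
  have h2δ : 2 * δ2 ≤ δ := by
    rw [hδ2, mul_div_assoc', div_le_iff₀ (by positivity)]
    nlinarith
  have e1 : th δ2 X ^ 2 * ro = Real.exp (-(2 * (δ2 * X / Real.log X ^ 2) + Real.log (1 / ro))) := by
    unfold th
    rw [← Real.exp_nat_mul, neg_add, Real.exp_add, one_div, Real.log_inv, neg_neg, Real.exp_log hro]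
    congr 2
    push_cast
    ring
  have h1 : 2 * (δ2 * X / Real.log X ^ 2) ≤ δ * X / Real.log X := by
    have h3 : Real.log X ≤ Real.log X ^ 2 := le_self_pow₀ hL1 (by norm_num)
    calc 2 * (δ2 * X / Real.log X ^ 2) = (2 * δ2) * X / Real.log X ^ 2 := by ring
      _ ≤ δ * X / Real.log X := by gcongr
  have h4 : 4 ≤ δ1 / 2 * X / Real.log X := by
    rw [pow_one, div_mul_eq_mul_div, div_le_iff₀ hδ10] at x10
    rw [le_div_iff₀ hL0]
    linarith
  have h5 : (2 : ℝ) ≤ Real.exp 1 := by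
    have := Real.exp_one_gt_d9
    linarith
  have h6 : 3 * δ * X / Real.log X ≤ δ1 / 2 * X / Real.log X := by gcongr
  have h7 : δ1 * X / Real.log X = δ1 / 2 * X / Real.log X + δ1 / 2 * X / Real.log X := by ring
  have h8 : 3 * δ * X / Real.log X = δ * X / Real.log X + 2 * δ * X / Real.log X := by ring
  calc 2 * r ≤ Real.exp 1 * Real.exp (-(δ1 * X / Real.log X)) := by
        have := Real.exp_pos (-(δ1 * X / Real.log X))
        nlinarith [Real.exp_pos 1]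
    _ = Real.exp (1 - δ1 * X / Real.log X) := by rw [← Real.exp_add]; ring_nf
    _ ≤ Real.exp (-(2 * (δ2 * X / Real.log X ^ 2) + Real.log (1 / ro))) := by
        apply Real.exp_le_exp.mpr
        linarith
    _ = _ := e1.symm

/-- the flat test function of one zero near the line, with all parameters chosen -/
theorem near5 {c δ1 : ℝ} (hc0 : 0 < c) (hc : c < 4 * Real.pi) (hδ1 : 0 < δ1) :
    ∃ δ δ2 X0 : ℝ, 0 < δ ∧ 0 < δ2 ∧ 16 ≤ X0 ∧
    ∀ X : ℝ, X0 ≤ X → ∀ p0 : Zr, |(zz p0).im| ≤ c * X → 0 ≤ (zz p0).re →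
    |(zz p0).re| ≤ Real.exp (-(δ1 * X / Real.log X)) →
    ∃ (g : ℝ → ℂ) (F τ : ℂ → ℂ) (ro : ℝ), TF g ∧
      (∀ x, x ∉ Icc (-(Real.log X / 2)) (Real.log X / 2) → g x = 0) ∧
      (Real.exp (-(δ / 2 * X)) ≤ ro ∧ ro ≤ E0 δ X) ∧ (2 * |(zz p0).re| ≤ th δ2 X ^ 2 * ro ∧
      2 * Real.exp (-(δ1 * X / Real.log X)) ≤ th δ2 X ^ 2 * ro) ∧
      (∀ ρ, ‖zz ρ - zz p0‖ ≤ ro → ‖zz ρ - zz p0‖ ≤ th δ2 X ^ 2 * ro) ∧
      (∀ z : ℂ, |z.re| ≤ 1 / 2 → LT g z = F z + τ z) ∧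
      (7 / 8 ≤ ‖F (zz p0)‖ ∧ ‖F (zz p0)‖ ≤ 9 / 8) ∧
      (∀ w : ℂ, ‖w - zz p0‖ ≤ th δ2 X * ro → ‖F w - F (zz p0)‖ ≤ 32 * (22 + c) * X * th δ2 X) ∧
      (∀ ρ : Zr, ro < ‖zz ρ - zz p0‖ → F (zz ρ) = 0 ∧ F (-conj (zz ρ)) = 0) ∧
      ∀ z : ℂ, |z.re| ≤ 1 / 2 → ‖τ z‖ ≤ Real.exp (-(δ * X)) / (1 + |z.im|) ^ 2 := by
  have hpi := Real.pi_pos
  -- the ratio of the two lengths
  obtain ⟨κ, hκ0, hκ1, hc'⟩ : ∃ κ : ℝ, 0 < κ ∧ κ < 1 ∧ c / κ < 4 * Real.pi := by
    have hc4 : c / (4 * Real.pi) < 1 := by rw [div_lt_one (by positivity)]; exact hc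
    have hc40 : 0 < c / (4 * Real.pi) := by positivity
    refine ⟨(1 + c / (4 * Real.pi)) / 2, by linarith, by linarith, ?_⟩
    rw [div_lt_iff₀ (by linarith)]
    have hκc : c / (4 * Real.pi) < (1 + c / (4 * Real.pi)) / 2 := by linarith
    rw [div_lt_iff₀ (by positivity)] at hκc
    linarith
  obtain ⟨δ0, θ1, hδ0, hθ1, hθ1', hM⟩ := Mk_low (c := c / κ) (by positivity) hc'
  obtain ⟨θ2, hθ2, hθ2', hG⟩ := Gk_tail (ε := δ0 / 8) (by positivity)
  obtain ⟨θ0, hθ0⟩ : ∃ θ0, θ0 = max θ1 θ2 := ⟨_, rfl⟩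
  have h0 : 0 < θ0 := by rw [hθ0]; exact lt_of_lt_of_le hθ1 (le_max_left _ _)
  have h1 : θ0 < Real.pi / 2 := by rw [hθ0]; exact max_lt hθ1' hθ2'
  obtain ⟨Ya, hYa, hMa⟩ := hM θ0 (by rw [hθ0]; exact le_max_left _ _) h1.le
  obtain ⟨Yb, hYb, hGb⟩ := hG θ0 (by rw [hθ0]; exact le_max_right _ _) h1
  clear hM hG hθ0 hθ1 hθ1' hθ2 hθ2' hc'
  obtain ⟨A, hA1, hA⟩ := local_lower
  obtain ⟨b, hb1, hb⟩ := wcount
  obtain ⟨C, hC1, hC⟩ := Xi0_bound
  obtain ⟨B1, hB1, hB⟩ := cf_zeta.unit_count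
  obtain ⟨CE, hCE1, hCE⟩ := EE_decay2
  -- the exponent
  obtain ⟨δ, hδpos, hδ1', hδA, hδb, hδ16, hδ12⟩ : ∃ δ : ℝ, 0 < δ ∧ δ ≤ 1 ∧ A * (2 * δ) ≤ δ0 * κ / 16 ∧
      b * (2 * δ) ≤ 1 / 4 ∧ δ ≤ δ0 * κ / 16 ∧ 3 * δ ≤ δ1 / 2 := by
    obtain ⟨m, hm⟩ : ∃ m, m = min (min (min 1 (δ0 * κ / (32 * A))) (1 / (8 * b))) (δ1 / 6) := ⟨_, rfl⟩
    have g0 : 0 < m := by rw [hm]; positivity
    have m1 : m ≤ min (min 1 (δ0 * κ / (32 * A))) (1 / (8 * b)) := by rw [hm]; exact min_le_left _ _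
    have g1 : A * (2 * m) ≤ δ0 * κ / 16 := by
      have : m ≤ δ0 * κ / (32 * A) := m1.trans ((min_le_left _ _).trans (min_le_right _ _))
      rw [le_div_iff₀ (by positivity)] at this
      linarith
    refine ⟨m, g0, m1.trans ((min_le_left _ _).trans (min_le_left _ _)), g1, ?_, ?_, ?_⟩
    · have : m ≤ 1 / (8 * b) := m1.trans (min_le_right _ _)
      rw [le_div_iff₀ (by positivity)] at this
      linarith
    · refine le_trans ?_ g1
      nlinarith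
    · have : m ≤ δ1 / 6 := by
        rw [hm]
        exact min_le_right _ _
      linarith
  obtain ⟨δ2, hδ2⟩ : ∃ δ2, δ2 = δ / (16 * (B1 + 1)) := ⟨_, rfl⟩
  have hδ20 : 0 < δ2 := by rw [hδ2]; positivity
  -- eventual inequalities
  have hev : ∀ᶠ X : ℝ in atTop,
      (8 * A * 6 / (δ0 * κ) * Real.log X ^ 3 ≤ X) ∧ (4 * b * 6 * Real.log X ^ 3 ≤ X) ∧
      (2 * CE * X ^ 5 ≤ Real.exp (δ0 * κ / 4 * X)) ∧
      (max (Ya / κ) (Yb / κ) ≤ X) ∧ (8 * (22 + c) * X ^ 1 ≤ Real.exp (δ2 * X / Real.log X ^ 2)) ∧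
      (1 / (-Real.log κ) ≤ X) ∧ (16 / δ * Real.log X ^ 1 ≤ X) ∧ (Real.log (4 * C) ≤ X) ∧ 16 * (c + 3) ≤ X ∧
      8 / δ1 * Real.log X ^ 1 ≤ X ∧ 12 / δ ≤ X ∧ 8 ≤ Real.log X := by
    refine (ev_log _ 3).and ((ev_log _ 3).and ((ev_exp _ 5 (by positivity)).and
      ((eventually_ge_atTop _).and ((ev_exp_log2 _ 1 hδ20).and ((eventually_ge_atTop _).and
      ((ev_log _ 1).and ((eventually_ge_atTop _).and ((eventually_ge_atTop _).and ((ev_log _ 1).and
      ((eventually_ge_atTop _).and (Real.tendsto_log_atTop.eventually_ge_atTop 8)))))))))))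
  obtain ⟨X1, hX1⟩ := eventually_atTop.mp hev
  refine ⟨δ, δ2, max X1 16, hδpos, hδ20, le_max_right _ _, fun X hX p0 hp1 hp0 hp2 => ?_⟩
  obtain ⟨x1, x2, x3, x4, x5, x6, x7, x8, x9, x10, x11, x12⟩ := hX1 X ((le_max_left _ _).trans hX)
  have hX16 : 16 ≤ X := (le_max_right _ _).trans hX
  clear hX1 hev hX
  have hX0 : 0 < X := by linarith
  have hL1 : 1 ≤ Real.log X := by linarith
  have hL0 : 0 < Real.log X := by linarith
  have hYa' : Ya ≤ κ * X := by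
    have := (le_max_left _ _).trans x4
    rw [div_le_iff₀ hκ0] at this
    linarith
  have hYb' : Yb ≤ κ * X := by
    have := (le_max_right _ _).trans x4
    rw [div_le_iff₀ hκ0] at this
    linarith
  have hY1 : 1 ≤ κ * X := hYa.trans hYa'
  have hcY : c / κ * (κ * X) = c * X := by
    field_simp
  have hpre : |(zz p0).re| < 1 / 2 := cf_zeta.re_lt p0
  have hpn : ‖zz p0‖ ≤ 1 + c * X := by
    have h2 := Complex.norm_le_abs_re_add_abs_im (zz p0)
    linarith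
  have hlogc := par_log hX16 x9 hp1 (abs_nonneg _)
  have hlogT := par_logT hc0 hX16 x9
  obtain ⟨hT2, hη4, hTs, hcT, hX21⟩ := par_misc hX16 hc0 x9 hpn
  -- the ratio
  have ht0 := th_pos δ2 X
  have htinv : th δ2 X * Real.exp (δ2 * X / Real.log X ^ 2) = 1 := by
    unfold th
    rw [← Real.exp_add, neg_add_cancel, Real.exp_zero]
  have htX : 8 * (22 + c) * X * th δ2 X ≤ 1 := by
    rw [pow_one] at x5
    calc 8 * (22 + c) * X * th δ2 X ≤ Real.exp (δ2 * X / Real.log X ^ 2) * th δ2 X := by gcongr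
      _ = 1 := by rw [mul_comm, htinv]
  have ht8 : th δ2 X ≤ 1 / 8 := by
    have h2 : 8 * th δ2 X ≤ 8 * (22 + c) * X * th δ2 X := by
      have h3 : (1 : ℝ) ≤ (22 + c) * X := by nlinarith
      calc 8 * th δ2 X = 8 * 1 * th δ2 X := by ring
        _ ≤ 8 * ((22 + c) * X) * th δ2 X := by gcongr
        _ = _ := by ring
    linarith
  -- the gap
  have huc : UC zz ((c + 2) * X) (B1 * Real.log ((c + 2) * X)) := fun a S hS => hB _ hT2 a S hS
  have hE0 : 0 < E0 δ X := E0_pos δ X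
  have hE01 := par_E01 hδpos hX16 hL1
  have hη1 : th δ2 X ^ 2 ≤ 1 := pow_le_one₀ ht0.le (by linarith)
  have hη8 : th δ2 X ^ 2 ≤ 1 / 8 := by nlinarith
  have hη0 : 0 < th δ2 X ^ 2 := by positivity
  obtain ⟨k, hk, hgap⟩ := huc.scale hT2 (zz p0) (hp1.trans hcT) (h' := E0 δ X / 2) (by positivity) (by linarith)
    (η := th δ2 X ^ 2) hη0 hη1 (finite_zeta (16 * ((c + 2) * X)) (by positivity))
  have hk2 : (k : ℝ) ≤ 8 * B1 * Real.log X := by
    calc (k : ℝ) ≤ 4 * (B1 * Real.log ((c + 2) * X)) := hk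
      _ ≤ 4 * (B1 * (2 * Real.log X)) := by gcongr
      _ = _ := by ring
  have hlogro := par_ro5 (δ := δ) hX16 hL1 hδpos hB1 hk2 hδ2
  obtain ⟨ro, hro⟩ : ∃ ro : ℝ, ro = (th δ2 X ^ 2) ^ k * (E0 δ X / 2) := ⟨_, rfl⟩
  have hro0 : 0 < ro := by rw [hro]; positivity
  have hroE : ro ≤ E0 δ X / 2 := by
    rw [hro]
    exact mul_le_of_le_one_left (by positivity) (pow_le_one₀ hη0.le hη1)
  have hgap' : ∀ ρ, ‖zz ρ - zz p0‖ ≤ ro → ‖zz ρ - zz p0‖ ≤ th δ2 X ^ 2 * ro := by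
    intro ρ hρ
    rw [hro] at hρ ⊢
    have := hgap ρ hρ
    rw [← mul_assoc, ← pow_succ']
    exact this
  rw [← hro] at hlogro
  clear hgap huc hk hro
  have hlogro0 : 0 ≤ Real.log (1 / ro) := Real.log_nonneg (by
    rw [le_div_iff₀ hro0]
    linarith)
  have hL2 : 1 ≤ Real.log X ^ 2 := one_le_pow₀ hL1
  -- the lower bound of the radius
  have hrolow : Real.exp (-(δ / 2 * X)) ≤ ro := by
    have e : ro = Real.exp (-Real.log (1 / ro)) := by
      rw [one_div, Real.log_inv, neg_neg, Real.exp_log hro0]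
    rw [e]
    apply Real.exp_le_exp.mpr
    have h2 : 2 * δ * X / Real.log X ≤ δ / 4 * X := by
      rw [div_le_iff₀ hL0]
      have : δ / 4 * X * 8 ≤ δ / 4 * X * Real.log X := by gcongr
      linarith
    have h3 : 3 ≤ δ / 4 * X := by
      rw [div_le_iff₀ hδpos] at x11
      linarith
    linarith
  -- lower bound
  have hVbound := par_V (δ := 2 * δ) (K1 := 6) (r := Real.log (1 / ro)) hA1 hδ0 hκ0 hX0 hL1 hδA hlogc
    (by linarith) hlogro0 x1
  have hlow : ∀ (Γ : Finset Zr) (B : ℂ → ℂ), Differentiable ℂ B → (∀ z, Xi0 z = PG Γ z * B z) →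
      (∀ ρ ∈ Γ, ‖zz ρ - zz p0‖ ≤ 2) → (∀ ρ, ρ ∉ Γ → ro ≤ ‖zz ρ - zz p0‖) →
      Real.exp (δ0 * (κ * X) / 2) ≤ ‖B (zz p0)‖ * ‖Mk (κ * X) θ0 (zz p0)‖ := by
    intro Γ B hBd hBf h2 h3
    have h4 := hA (zz p0) Γ B ro hp0 (abs_lt.mp hpre).2.le hro0 (by linarith) hBd hBf h2 h3
    have h5 := hMa (κ * X) hYa' (zz p0) (by linarith) (by rw [hcY]; exact hp1)
    calc Real.exp (δ0 * (κ * X) / 2) ≤
          Real.exp (-(A * Real.log (3 + |(zz p0).im|) * (1 + Real.log (1 / ro))) - Real.pi * |(zz p0).im| / 4) *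
            Real.exp (δ0 * (κ * X) + Real.pi * |(zz p0).im| / 4) := by
          rw [← Real.exp_add]
          apply Real.exp_le_exp.mpr
          linarith
      _ ≤ _ := by gcongr
  -- counting
  have hN : ∀ Γ : Finset Zr, (∀ ρ ∈ Γ, |(zz ρ).im - (zz p0).im| ≤ 1) → ∑ ρ ∈ Γ, mm ρ ≤ 2 * b * Real.log X := by
    intro Γ hΓ
    refine (hb (zz p0).im Γ hΓ).trans ?_
    calc b * Real.log (3 + |(zz p0).im|) ≤ b * (2 * Real.log X) := by gcongr
      _ = _ := by ring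
  have hYX : κ * X ≤ X := mul_le_of_le_one_left hX0.le hκ1.le
  have hMu := par_Mu (δ := 2 * δ) (K1 := 6) hb1 hX16 hL1 hro0 hC1 hδb (by linarith) x2 x8 hYX (by linarith) hpn
  have hdev := par_dev5 hX16 hL1 hδpos hδ12 hB1 hδ2 hro0 hlogro x10 hp2
  have hdev' := par_dev5 hX16 hL1 hδpos hδ12 hB1 hδ2 hro0 hlogro x10
    (le_refl (Real.exp (-(δ1 * X / Real.log X))))
  have hMuX : (20 + c) * X + 2 ≤ (22 + c) * X := by nlinarith
  have hR2 : 8 * ((20 + c) * X + 2) * (th δ2 X * ro) ≤ ro := by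
    calc 8 * ((20 + c) * X + 2) * (th δ2 X * ro) ≤ 8 * ((22 + c) * X) * (th δ2 X * ro) := by gcongr
      _ = (8 * (22 + c) * X * th δ2 X) * ro := by ring
      _ ≤ 1 * ro := by gcongr
      _ = ro := one_mul _
  obtain ⟨g, F, τ, g1, g2, g3, g4, g5, g6, g7⟩ := near4 (Y := κ * X) (θ0 := θ0) (ε := δ0 / 8) (Ts := X ^ 2)
    (η := th δ2 X ^ 2) (ro := ro) (N := 2 * b * Real.log X) (V := δ0 * (κ * X) / 2) (Mu := (20 + c) * X) (C := C)
    (R := th δ2 X * ro) p0 h0 h1 hY1 (fun x hx => hGb (κ * X) hYb' x hx) hro0 (by linarith) hη0 hη8 hdev hgap' hN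
    (by positivity) hlow hC (by positivity) hMu (by positivity) (by nlinarith) hR2 hTs
  have hsupp := par_supp hκ0 hκ1 hX16 x6
  refine ⟨g, F, τ, ro, g1, fun x hx => g2 x fun hx2 => hx ?_, ⟨hrolow, by linarith⟩, ⟨hdev, hdev'⟩, hgap', g3, g4,
    fun w hw => (g5 w hw).trans ?_, g6, fun z hz => ?_⟩
  · constructor
    · linarith [hx2.1]
    · linarith [hx2.2]
  · calc 32 * ((20 + c) * X + 2) * (th δ2 X * ro) / ro = 32 * ((20 + c) * X + 2) * th δ2 X := by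
          field_simp
      _ ≤ 32 * ((22 + c) * X) * th δ2 X := by gcongr
      _ = _ := by ring
  · -- the error
    refine (g7 z hz).trans ?_
    have h2 := hCE (X ^ 2) hX21 z hz
    exact tau_arith2 hX16 hδ0 hκ0 hκ1 hCE1 hδ16 x3 (by positivity) h2 (norm_nonneg _)

end Pool.Agent.Helper61.NZ
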