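import Pool.Agent.Helper61.NZ.Nh

set_option autoImplicit false

/-!
# The weights near a zero of zeta
-/

namespace Pool.Agent.Helper61.NZ

open Complex Filter Topology Set MeasureTheory
open scoped ComplexConjugate ContDiff
open Pool.Agent.V11271.LI (Zr zz mm mm_one_le reflE zz_refl zz_re zz_im Zr.im_ne)
open Pool.Agent.Helper76.LW (cf_zeta)
open Pool.Agent.Helper76.EW (FF)
open Pool.Agent.Helper61.W Pool.Agent.Helper61.W.GS Pool.Agent.Helper61.GA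

open Classical in
/-- the number of the zeros in a disc -/
noncomputable def cnt (P : ℂ) (R : ℝ) : ℝ := ∑' ρ : Zr, if ‖zz ρ - P‖ ≤ R then mm ρ else 0

open Classical in
lemma cnt_summable (P : ℂ) (R : ℝ) : Summable fun ρ : Zr => if ‖zz ρ - P‖ ≤ R then mm ρ else 0 := by
  refine Summable.of_nonneg_of_le (fun ρ => ?_) (fun ρ => ?_) (S0_sum.mul_left ((1 + |P.im| + |R|) ^ 2))
  · split_ifs
    · linarith [mm_one_le ρ]
    · exact le_rfl
  · have hm : 0 ≤ mm ρ := by linarith [mm_one_le ρ]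
    split_ifs with h
    · have h1 := Complex.abs_im_le_norm (zz ρ - P)
      rw [Complex.sub_im] at h1
      have h2 : |(zz ρ).im| ≤ |(zz ρ).im - P.im| + |P.im| := by
        calc |(zz ρ).im| = |((zz ρ).im - P.im) + P.im| := by ring_nf
          _ ≤ _ := abs_add_le _ _
      have h3 : 1 + |(zz ρ).im| ≤ 1 + |P.im| + |R| := by linarith [le_abs_self R]
      have h4 : 1 ≤ (1 + |P.im| + |R|) ^ 2 / (1 + |(zz ρ).im|) ^ 2 := by
        rw [one_le_div (by positivity)]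
        gcongr
      calc mm ρ = mm ρ * 1 := (mul_one _).symm
        _ ≤ mm ρ * ((1 + |P.im| + |R|) ^ 2 / (1 + |(zz ρ).im|) ^ 2) := by gcongr
        _ = _ := by ring
    · positivity

lemma cnt_nonneg (P : ℂ) (R : ℝ) : 0 ≤ cnt P R := by
  unfold cnt
  refine tsum_nonneg fun ρ => ?_
  split_ifs
  · linarith [mm_one_le ρ]
  · exact le_rfl

lemma prod_near {x y c : ℂ} {f : ℝ} (hx : ‖x - c‖ ≤ f) (hy : ‖y - c‖ ≤ f) (hc : ‖c‖ ≤ 9 / 8) (hf : f ≤ 1 / 80) :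
    ‖x * conj y - ((‖c‖ ^ 2 : ℝ) : ℂ)‖ ≤ 5 * f := by
  have hf0 : 0 ≤ f := (norm_nonneg _).trans hx
  have e : x * conj y - ((‖c‖ ^ 2 : ℝ) : ℂ) = (x - c) * conj y + c * conj (y - c) := by
    have : ((‖c‖ ^ 2 : ℝ) : ℂ) = c * conj c := by
      rw [Complex.mul_conj, Complex.normSq_eq_norm_sq]
    rw [this, map_sub]
    ring
  have hy2 : ‖y‖ ≤ 2 := by
    have : ‖y‖ ≤ ‖y - c‖ + ‖c‖ := by
      calc ‖y‖ = ‖(y - c) + c‖ := by ring_nf
        _ ≤ _ := norm_add_le _ _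
    linarith
  rw [e]
  calc ‖(x - c) * conj y + c * conj (y - c)‖ ≤ ‖x - c‖ * ‖y‖ + ‖c‖ * ‖y - c‖ := by
        refine (norm_add_le _ _).trans ?_
        rw [norm_mul, norm_mul, Complex.norm_conj, Complex.norm_conj]
    _ ≤ f * 2 + 9 / 8 * f := by gcongr
    _ ≤ 5 * f := by linarith

lemma norm_mir (z P : ℂ) : ‖-conj z - P‖ ≤ ‖z - P‖ + 2 * |P.re| := by
  have e : -conj z - P = -conj (z - P) - ((2 * P.re : ℝ) : ℂ) := by
    apply Complex.ext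
    · simp
      ring
    · simp
      ring
  rw [e]
  refine (norm_sub_le _ _).trans ?_
  rw [norm_neg, Complex.norm_conj, Complex.norm_real, Real.norm_eq_abs, abs_mul]
  norm_num

open Classical in
/-- **The weights near a zero.** -/
theorem mass_core {a t f e1 R ro M : ℝ} {p0 : Zr} {g : Ts a} {F τ : ℂ → ℂ} {ζ : Type} {p : ζ → ℂ} {ν : ζ → ℝ}
    (ha : 0 < a) (hl : 0 ≤ zetaDat.low a) (hF : GR.TraceF zetaDat a p ν)
    (h3 : ∀ z : ℂ, |z.re| ≤ 1 / 2 → LT g z = F z + τ z)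
    (hL : 7 / 8 ≤ ‖F (zz p0)‖ ∧ ‖F (zz p0)‖ ≤ 9 / 8)
    (hfl : ∀ w : ℂ, ‖w - zz p0‖ ≤ R → ‖F w - F (zz p0)‖ ≤ f)
    (hgap : ∀ ρ : Zr, ‖zz ρ - zz p0‖ ≤ ro → ‖zz ρ - zz p0‖ ≤ e1) (hre : 2 * |(zz p0).re| ≤ e1)
    (h6 : ∀ ρ : Zr, ro < ‖zz ρ - zz p0‖ → F (zz ρ) = 0 ∧ F (-conj (zz ρ)) = 0)
    (h7 : ∀ z : ℂ, |z.re| ≤ 1 / 2 → ‖τ z‖ ≤ t / (1 + |z.im|) ^ 2) (ht : 0 ≤ t)
    (hft : f + t ≤ 1 / 80) (heR : 3 * e1 ≤ R) (hRro : R ≤ ro) (hR0 : 0 < R) (hro1 : ro ≤ 1)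
    (hM : |(zz p0).im| ≤ M) :
    (Summable fun s => if ‖p s - zz p0‖ ≤ R then ν s else 0) ∧
    |(∑' s, if ‖p s - zz p0‖ ≤ R then ν s else 0) - cnt (zz p0) R| ≤
      80 * (f + t) * cnt (zz p0) R +
        8 * (t ^ 2 * S0 + (4 * a ^ 2 + 4 / R ^ 2) * ((36 * e1 ^ 2 * (M + 2) ^ 2 + (M + 1) ^ 2 * t ^ 2) * S0)) := by
  set P := zz p0 with hP
  set c0 := F P with hc0
  have he0 : 0 ≤ e1 := (by positivity : (0 : ℝ) ≤ 2 * |P.re|).trans hre
  have hf0 : 0 ≤ f := (norm_nonneg _).trans (hfl P (by rw [sub_self, norm_zero]; exact hR0.le))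
  have hm : ∀ ρ : Zr, 0 ≤ mm ρ := fun ρ => by linarith [mm_one_le ρ]
  set f' := f + t with hf'
  have hf'0 : 0 ≤ f' := by positivity
  have hgg : TF (g : ℝ → ℂ) := Ts.tf g.2
  -- the values near the point
  have hval : ∀ w : ℂ, |w.re| ≤ 1 / 2 → ‖w - P‖ ≤ R → ‖LT g w - c0‖ ≤ f' := by
    intro w hw1 hw2
    have e : LT g w - c0 = (F w - c0) + τ w := by
      rw [h3 w hw1]
      ring
    rw [e]
    exact (norm_add_le _ _).trans (add_le_add (hfl w hw2) (tau_le h7 ht hw1))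
  have hmir : ∀ ρ : Zr, ‖zz ρ - P‖ ≤ R → ‖-conj (zz ρ) - P‖ ≤ R := by
    intro ρ hρ
    have h8 := norm_mir (zz ρ) P
    have h9 := hgap ρ (hρ.trans hRro)
    linarith
  -- the value of the form
  have hS := GS.summable_wt hgg hgg
  have hre' : (Wf g g).re = ∑' ρ : Zr, (wt g g ρ).re := by
    unfold GS.Wf
    exact Complex.re_tsum hS
  have hSr : Summable fun ρ : Zr => (wt g g ρ).re := (Complex.hasSum_re hS.hasSum).summable
  set n : Zr → ℝ := fun ρ => if ‖zz ρ - P‖ ≤ R then mm ρ else 0 with hn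
  have hns : Summable n := cnt_summable P R
  have hterm : ∀ ρ : Zr, ‖(wt g g ρ).re - n ρ * ‖c0‖ ^ 2‖ ≤
      5 * f' * n ρ + t ^ 2 * (mm ρ / (1 + |(zz ρ).im|) ^ 2) := by
    intro ρ
    have hz : |(zz ρ).re| ≤ 1 / 2 := (cf_zeta.re_lt ρ).le
    have hmρ := hm ρ
    rw [Real.norm_eq_abs]
    by_cases h : ‖zz ρ - P‖ ≤ R
    · simp only [hn, if_pos h]
      have h8 := prod_near (hval _ hz h) (hval _ (re_mirror hz) (hmir ρ h)) hL.2 hft
      have e : (wt g g ρ).re - mm ρ * ‖c0‖ ^ 2 =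
          mm ρ * (LT g (zz ρ) * conj (LT g (-conj (zz ρ))) - ((‖c0‖ ^ 2 : ℝ) : ℂ)).re := by
        unfold GS.wt
        rw [Complex.re_ofReal_mul, Complex.sub_re, Complex.ofReal_re]
        ring
      rw [e, abs_mul, abs_of_nonneg hmρ]
      have h9 := (Complex.abs_re_le_norm _).trans h8
      have h10 : 0 ≤ t ^ 2 * (mm ρ / (1 + |(zz ρ).im|) ^ 2) := by positivity
      calc _ ≤ mm ρ * (5 * f') := by gcongr
        _ ≤ _ := by linarith
    · simp only [hn, if_neg h]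
      rw [zero_mul, sub_zero, mul_zero, zero_add]
      have h8 : ro < ‖zz ρ - P‖ := by
        by_contra hlt
        push Not at hlt
        have := hgap ρ hlt
        apply h
        linarith
      obtain ⟨e1', e2'⟩ := far_le h3 h6 h7 h8
      have h9 : ‖wt g g ρ‖ ≤ t ^ 2 * (mm ρ / (1 + |(zz ρ).im|) ^ 2) := by
        unfold GS.wt
        rw [norm_mul, norm_mul, Complex.norm_conj, Complex.norm_real, Real.norm_of_nonneg hmρ]
        have hD : 1 ≤ (1 + |(zz ρ).im|) ^ 2 := by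
          have : 0 ≤ |(zz ρ).im| := abs_nonneg _
          nlinarith
        calc mm ρ * (‖LT g (zz ρ)‖ * ‖LT g (-conj (zz ρ))‖) ≤
            mm ρ * ((t / (1 + |(zz ρ).im|) ^ 2) * (t / (1 + |(zz ρ).im|) ^ 2)) := by gcongr
          _ = (t ^ 2 * (mm ρ / (1 + |(zz ρ).im|) ^ 2)) / (1 + |(zz ρ).im|) ^ 2 := by
              field_simp
          _ ≤ _ := div_le_self (by positivity) hD
      exact (Complex.abs_re_le_norm _).trans h9
  have hQ : |(Wf g g).re - cnt P R * ‖c0‖ ^ 2| ≤ 5 * f' * cnt P R + t ^ 2 * S0 := by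
    have h8 := tsum_of_norm_bounded ((hns.hasSum.mul_left (5 * f')).add (S0_sum.hasSum.mul_left (t ^ 2))) hterm
    rw [hSr.tsum_sub (hns.mul_right _), tsum_mul_right, ← hre', Real.norm_eq_abs] at h8
    exact h8
  -- the function with the linear factor
  set γ := P.im with hγ
  set g1 : Ts a := Ao a (γ * I) g with hg1
  set q1 : ℝ := (36 * e1 ^ 2 * (M + 2) ^ 2 + (M + 1) ^ 2 * t ^ 2) * S0 with hq1
  have ht20 : t ≤ 1 / 20 := by linarith
  have hFF : ∀ ρ : Zr, ‖zz ρ - zz p0‖ ≤ e1 → 1 / 2 ≤ (FF F (zz ρ)).re ∧ ‖F (zz ρ)‖ ≤ 2 ∧ ‖F (-conj (zz ρ))‖ ≤ 2 := by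
    intro ρ hρ
    have k1 : ‖zz ρ - P‖ ≤ R := by
      have : ‖zz ρ - P‖ ≤ e1 := hρ
      linarith
    have k2 := hmir ρ k1
    have k3 := hfl _ k1
    have k4 := hfl _ k2
    have k5 := prod_near k3 k4 hL.2 (by linarith)
    have k6 := (abs_le.mp ((Complex.abs_re_le_norm _).trans k5)).1
    rw [Complex.sub_re, Complex.ofReal_re] at k6
    have k7 : ∀ w : ℂ, ‖F w - c0‖ ≤ f → ‖F w‖ ≤ 2 := by
      intro w hw
      have : ‖F w‖ ≤ ‖F w - c0‖ + ‖c0‖ := by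
        calc ‖F w‖ = ‖(F w - c0) + c0‖ := by ring_nf
          _ ≤ _ := norm_add_le _ _
      have h8 := hL.2
      linarith
    refine ⟨?_, k7 _ k3, k7 _ k4⟩
    have k8 : (49 : ℝ) / 64 ≤ ‖c0‖ ^ 2 := by nlinarith [hL.1]
    have k9 : (FF F (zz ρ)).re = (F (zz ρ) * conj (F (-conj (zz ρ)))).re := rfl
    rw [k9]
    linarith
  have v1 : (Wf g1 g1).re ≤ q1 := by
    have h6' : ∀ ρ : Zr, e1 < ‖zz ρ - zz p0‖ → F (zz ρ) = 0 ∧ F (-conj (zz ρ)) = 0 := by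
      intro ρ hρ
      apply h6 ρ
      by_contra hlt
      push Not at hlt
      exact absurd hρ (not_lt.mpr (hgap ρ hlt))
    exact value1_le (p0 := p0) (ro := e1) (g1 := g1) h3 hFF h6' h7 ht (Ts.tf g1.2) ht20 he0 (by linarith)
      (fun z => LT_Ao _ _ _) (by linarith [abs_nonneg (zz p0).re]) hM
  have hq10 : 0 ≤ q1 := by
    have := S0_nonneg
    positivity
  -- the sums over the zeros of the ground state
  have s0 := hF.sum g
  have s1 := hF.sum g1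
  have hlow1 := GA.low_le (D := zetaDat) ha g1
  have hlg : zetaDat.low a * ‖toL a g‖ ^ 2 ≤ 4 * a ^ 2 * q1 := by
    have h4 := mul_le_mul_of_nonneg_left (poin ha γ g) hl
    calc zetaDat.low a * ‖toL a g‖ ^ 2 ≤ 4 * a ^ 2 * (zetaDat.low a * ‖toL a g1‖ ^ 2) := by
          rw [hg1]
          linarith
      _ ≤ 4 * a ^ 2 * q1 := by
        gcongr
        exact hlow1.trans v1
  have hlg0 : 0 ≤ zetaDat.low a * ‖toL a g‖ ^ 2 := mul_nonneg hl (sq_nonneg _)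
  have hlg1 : 0 ≤ zetaDat.low a * ‖toL a g1‖ ^ 2 := mul_nonneg hl (sq_nonneg _)
  set S := (zetaDat.Wf g g).re - zetaDat.low a * ‖toL a g‖ ^ 2 with hSdef
  set S2 := (zetaDat.Wf g1 g1).re - zetaDat.low a * ‖toL a g1‖ ^ 2 with hS2def
  have hS2 : S2 ≤ q1 := by
    have : (zetaDat.Wf g1 g1).re ≤ q1 := v1
    linarith
  have hSN : |S - cnt P R * ‖c0‖ ^ 2| ≤ 5 * f' * cnt P R + t ^ 2 * S0 + 4 * a ^ 2 * q1 := by
    have h8 : |(zetaDat.Wf g g).re - cnt P R * ‖c0‖ ^ 2| ≤ 5 * f' * cnt P R + t ^ 2 * S0 := hQ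
    rw [abs_le] at h8 ⊢
    have : 0 ≤ 4 * a ^ 2 * q1 := by positivity
    constructor
    · linarith [h8.1]
    · linarith [h8.2]
  set w : ζ → ℝ := fun s => if ‖p s - P‖ ≤ R then ν s else 0 with hw
  have hw0 : ∀ s, 0 ≤ w s := by
    intro s
    simp only [hw]
    split_ifs
    · exact hF.nn s
    · exact le_rfl
  have hann : ∀ s, 0 ≤ ν s * ‖W.LT g (p s)‖ ^ 2 := fun s => mul_nonneg (hF.nn s) (by positivity)
  have hps : ∀ s, |(p s).re| ≤ 1 / 2 := fun s => by rw [hF.re s]; norm_num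
  have hLle : ∀ s, ‖p s - P‖ ≤ R → 1 / 2 ≤ ‖W.LT g (p s)‖ ∧ |‖c0‖ ^ 2 - ‖W.LT g (p s)‖ ^ 2| ≤ 5 * f' := by
    intro s hs
    have h8 := hval (p s) (hps s) hs
    have h9 := (abs_norm_sub_norm_le (LT g (p s)) c0).trans h8
    rw [abs_le] at h9
    have h10 := hL.1
    have h11 := hL.2
    refine ⟨by linarith [h9.1], ?_⟩
    have e : ‖c0‖ ^ 2 - ‖W.LT g (p s)‖ ^ 2 = (‖c0‖ - ‖W.LT g (p s)‖) * (‖c0‖ + ‖W.LT g (p s)‖) := by ring
    rw [e, abs_mul]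
    have h12 : |‖c0‖ - ‖W.LT g (p s)‖| ≤ f' := by
      rw [abs_le]
      constructor
      · linarith [h9.2]
      · linarith [h9.1]
    have h13 : |‖c0‖ + ‖W.LT g (p s)‖| ≤ 5 := by
      rw [abs_of_nonneg (by positivity)]
      linarith [h9.2]
    calc _ ≤ f' * 5 := mul_le_mul h12 h13 (abs_nonneg _) hf'0
      _ = _ := mul_comm _ _
  have hw4 : ∀ s, w s ≤ 4 * (ν s * ‖W.LT g (p s)‖ ^ 2) := by
    intro s
    by_cases h : ‖p s - P‖ ≤ R
    · simp only [hw, if_pos h]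
      have h8 := (hLle s h).1
      have h9 : 1 ≤ 4 * ‖W.LT g (p s)‖ ^ 2 := by nlinarith
      have h10 := hF.nn s
      nlinarith
    · simp only [hw, if_neg h]
      have := hann s
      positivity
  have hws : Summable w := Summable.of_nonneg_of_le hw0 hw4 (s0.summable.mul_left 4)
  have s1' : HasSum (fun s => ν s * (‖p s - γ * I‖ ^ 2 * ‖W.LT g (p s)‖ ^ 2)) S2 := by
    refine s1.congr_fun fun s => ?_
    rw [hg1, LT_Ao, norm_mul, mul_pow]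
  have hb : ∀ s, ‖w s * ‖c0‖ ^ 2 - ν s * ‖W.LT g (p s)‖ ^ 2‖ ≤ 5 * f' * w s +
      4 / R ^ 2 * (ν s * (‖p s - γ * I‖ ^ 2 * ‖W.LT g (p s)‖ ^ 2)) := by
    intro s
    have hν := hF.nn s
    have hbn : 0 ≤ 4 / R ^ 2 * (ν s * (‖p s - γ * I‖ ^ 2 * ‖W.LT g (p s)‖ ^ 2)) := by positivity
    rw [Real.norm_eq_abs]
    by_cases h : ‖p s - P‖ ≤ R
    · simp only [hw, if_pos h]
      have h8 := (hLle s h).2
      have e : ν s * ‖c0‖ ^ 2 - ν s * ‖W.LT g (p s)‖ ^ 2 = ν s * (‖c0‖ ^ 2 - ‖W.LT g (p s)‖ ^ 2) := by ring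
      rw [e, abs_mul, abs_of_nonneg hν]
      have h9 : ν s * |‖c0‖ ^ 2 - ‖W.LT g (p s)‖ ^ 2| ≤ ν s * (5 * f') := by gcongr
      linarith
    · simp only [hw, if_neg h]
      rw [zero_mul, zero_sub, abs_neg, abs_of_nonneg (hann s), mul_zero, zero_add]
      push Not at h
      have h8 : R / 2 ≤ ‖p s - γ * I‖ := by
        have h9 := dist_zz (p s) p0
        have h10 : ‖p s - P‖ ≤ ‖p s - γ * I‖ + |P.re| := h9
        linarith
      have h1 : 1 ≤ 4 / R ^ 2 * ‖p s - γ * I‖ ^ 2 := by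
        have h9 : (R / 2) ^ 2 ≤ ‖p s - γ * I‖ ^ 2 := pow_le_pow_left₀ (by positivity) h8 2
        rw [div_mul_eq_mul_div, one_le_div (by positivity)]
        nlinarith
      calc ν s * ‖W.LT g (p s)‖ ^ 2 = ν s * ‖W.LT g (p s)‖ ^ 2 * 1 := (mul_one _).symm
        _ ≤ ν s * ‖W.LT g (p s)‖ ^ 2 * (4 / R ^ 2 * ‖p s - γ * I‖ ^ 2) :=
            mul_le_mul_of_nonneg_left h1 (hann s)
        _ = _ := by ring
  have h1 := tsum_of_norm_bounded ((hws.hasSum.mul_left (5 * f')).add (s1'.mul_left (4 / R ^ 2))) hb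
  rw [(hws.mul_right _).tsum_sub s0.summable, s0.tsum_eq, tsum_mul_right, Real.norm_eq_abs] at h1
  set W' := ∑' s, w s with hW'
  have hW0 : 0 ≤ W' := tsum_nonneg hw0
  have hN0 := cnt_nonneg P R
  set N := cnt P R with hN
  set E := t ^ 2 * S0 + (4 * a ^ 2 + 4 / R ^ 2) * q1 with hE
  have hE0 : 0 ≤ E := by
    have := S0_nonneg
    positivity
  have hfin : |W' - N| * ‖c0‖ ^ 2 ≤ 5 * f' * (W' + N) + E := by
    have e : |W' - N| * ‖c0‖ ^ 2 = |W' * ‖c0‖ ^ 2 - N * ‖c0‖ ^ 2| := by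
      rw [← sub_mul, abs_mul, abs_of_nonneg (by positivity : (0 : ℝ) ≤ ‖c0‖ ^ 2)]
    rw [e]
    have e2 : W' * ‖c0‖ ^ 2 - N * ‖c0‖ ^ 2 = (W' * ‖c0‖ ^ 2 - S) + (S - N * ‖c0‖ ^ 2) := by ring
    rw [e2]
    refine (abs_add_le _ _).trans ?_
    have h8 : 4 / R ^ 2 * S2 ≤ 4 / R ^ 2 * q1 := by gcongr
    have h9 : E = t ^ 2 * S0 + 4 * a ^ 2 * q1 + 4 / R ^ 2 * q1 := by
      rw [hE]
      ring
    have h10 : |W' * ‖c0‖ ^ 2 - S| ≤ 5 * f' * W' + 4 / R ^ 2 * S2 := h1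
    linarith
  have hL2 : 1 / 4 ≤ ‖c0‖ ^ 2 := by nlinarith [hL.1]
  have h4 : |W' - N| ≤ 20 * f' * (W' + N) + 4 * E := by
    have : |W' - N| * (1 / 4) ≤ |W' - N| * ‖c0‖ ^ 2 := by gcongr
    linarith
  have h5 : W' ≤ 3 * N + 8 * E := by
    have h8 := (abs_le.mp h4).2
    have h9 : 20 * f' * (W' + N) ≤ 1 / 4 * (W' + N) :=
      mul_le_mul_of_nonneg_right (by linarith) (by linarith)
    linarith
  have h8 : 20 * f' * (W' + N) ≤ 20 * f' * (4 * N + 8 * E) :=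
    mul_le_mul_of_nonneg_left (by linarith) (by positivity)
  have h9 : 160 * f' * E ≤ 4 * E := by
    have : 160 * f' ≤ 4 := by linarith
    gcongr
  refine ⟨hws, ?_⟩
  calc |W' - N| ≤ 20 * f' * (4 * N + 8 * E) + 4 * E := by linarith
    _ = 80 * f' * N + 160 * f' * E + 4 * E := by ring
    _ ≤ _ := by linarith

end Pool.Agent.Helper61.NZ
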