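import Pool.Agent.Helper61.NZ.Nl
import Pool.Agent.Helper61.NZ.Nm

set_option autoImplicit false

/-!
# The weights near the zeros of zeta: choice of the parameters
-/

namespace Pool.Agent.Helper61.NZ

open Complex Filter Topology Set MeasureTheory
open scoped ComplexConjugate ContDiff
open Pool.Agent.V11271.LI (Zr zz mm mm_one_le reflE zz_refl mm_refl zz_re zz_im Zr.im_ne)
open Pool.Agent.Helper76.LW (cf_zeta)
open Pool.Agent.Helper76.EX (E0 E0_pos ev_log ev_exp wcount)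
open Pool.Agent.Helper61.W Pool.Agent.Helper61.W.GS Pool.Agent.Helper61.GA

lemma cnt_le {b : ℝ} (hb : ∀ (γ : ℝ) (Γ : Finset Zr), (∀ ρ ∈ Γ, |(zz ρ).im - γ| ≤ 1) →
    ∑ ρ ∈ Γ, mm ρ ≤ b * Real.log (3 + |γ|)) (P : ℂ) {R : ℝ} (hR : R ≤ 1) :
    cnt P R ≤ b * Real.log (3 + |P.im|) := by
  classical
  unfold cnt
  refine (cnt_summable P R).tsum_le_of_sum_le fun Γ => ?_
  rw [← Finset.sum_filter]
  refine hb P.im _ fun ρ hρ => ?_
  rw [Finset.mem_filter] at hρ
  have := Complex.abs_im_le_norm (zz ρ - P)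
  rw [Complex.sub_im] at this
  linarith [hρ.2]

lemma norm_mir_im {s : ℂ} (hs : s.re = 0) (w : ℂ) : ‖s - -conj w‖ = ‖s - w‖ := by
  have e : s - -conj w = -conj (s - w) := by
    apply Complex.ext
    · simp [hs]
    · simp
      ring
  rw [e, norm_neg, Complex.norm_conj]

lemma cnt_refl (P : ℂ) (R : ℝ) : cnt (-conj P) R = cnt P R := by
  classical
  unfold cnt
  rw [← Equiv.tsum_eq reflE]
  refine tsum_congr fun ρ => ?_
  have e : ‖zz (reflE ρ) - -conj P‖ = ‖zz ρ - P‖ := by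
    rw [zz_refl]
    have : -conj (zz ρ) - -conj P = -conj (zz ρ - P) := by
      rw [map_sub]
      ring
    rw [this, norm_neg, Complex.norm_conj]
  rw [e, mm_refl]

/-- arithmetic of the error -/
lemma mass_arith {c b X h t R ro e1 S0 N a : ℝ} (hc : 0 < c) (hb : 0 ≤ b) (hX : 16 ≤ X) (hh : 0 < h) (hh1 : h ≤ 1)
    (hS : 0 ≤ S0) (hro : 0 < ro) (hro1 : ro ≤ 1) (hR : R = h * ro) (he1 : e1 = h ^ 2 * ro) (ht0 : 0 ≤ t)
    (ht : t ≤ h) (htR : t ^ 2 ≤ h ^ 2 * R ^ 2) (hN0 : 0 ≤ N) (hN : N ≤ 2 * b * X) (ha : 2 * a ≤ X) (ha0 : 0 ≤ a) :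
    80 * (32 * (22 + c) * X * h + t) * N +
        8 * (t ^ 2 * S0 + (4 * a ^ 2 + 4 / R ^ 2) * ((36 * e1 ^ 2 * (c * X + 2) ^ 2 + (c * X + 1) ^ 2 * t ^ 2) * S0)) ≤
      (160 * b * (32 * (22 + c) + 1) + 8 * S0 + 1480 * (c + 2) ^ 2 * S0) * X ^ 4 * h := by
  have hX0 : 0 < X := by linarith
  have hX1 : 1 ≤ X := by linarith
  have hR0 : 0 < R := by rw [hR]; positivity
  have hh2 : h ^ 2 ≤ h := by nlinarith
  have e1' : e1 ^ 2 ≤ h := by
    have h1 : e1 ≤ h := by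
      rw [he1]
      calc h ^ 2 * ro ≤ h * 1 := by gcongr
        _ = h := mul_one _
    have h0 : 0 ≤ e1 := by rw [he1]; positivity
    nlinarith
  have t2 : t ^ 2 ≤ h := by nlinarith
  have eR : e1 ^ 2 / R ^ 2 ≤ h := by
    have : e1 ^ 2 / R ^ 2 = h ^ 2 := by
      rw [he1, hR]
      field_simp
    linarith
  have tR : t ^ 2 / R ^ 2 ≤ h := by
    rw [div_le_iff₀ (by positivity)]
    nlinarith [sq_nonneg R]
  have hc2 : (c * X + 2) ^ 2 ≤ (c + 2) ^ 2 * X ^ 2 := by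
    rw [← mul_pow]
    gcongr
    nlinarith
  have hc1 : (c * X + 1) ^ 2 ≤ (c + 2) ^ 2 * X ^ 2 := by
    refine le_trans ?_ hc2
    gcongr
    norm_num
  have ha2 : 4 * a ^ 2 ≤ X ^ 2 := by nlinarith
  have hX24 : X ^ 2 ≤ X ^ 4 := by
    have : 1 ≤ X ^ 2 := one_le_pow₀ hX1
    nlinarith [sq_nonneg X]
  have hX14 : 1 ≤ X ^ 4 := one_le_pow₀ hX1
  have b1 : 80 * (32 * (22 + c) * X * h + t) * N ≤ 160 * b * (32 * (22 + c) + 1) * X ^ 4 * h := by
    have k1 : 32 * (22 + c) * X * h + t ≤ (32 * (22 + c) + 1) * X * h := by nlinarith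
    calc 80 * (32 * (22 + c) * X * h + t) * N ≤ 80 * ((32 * (22 + c) + 1) * X * h) * (2 * b * X) := by gcongr
      _ = 160 * b * (32 * (22 + c) + 1) * X ^ 2 * h := by ring
      _ ≤ _ := by gcongr
  have b2 : 8 * (t ^ 2 * S0) ≤ 8 * S0 * X ^ 4 * h := by
    calc 8 * (t ^ 2 * S0) ≤ 8 * (h * S0) := by gcongr
      _ = 8 * S0 * 1 * h := by ring
      _ ≤ _ := by gcongr
  have b3 : 8 * ((4 * a ^ 2 + 4 / R ^ 2) * ((36 * e1 ^ 2 * (c * X + 2) ^ 2 + (c * X + 1) ^ 2 * t ^ 2) * S0)) ≤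
      1480 * (c + 2) ^ 2 * S0 * X ^ 4 * h := by
    have e : 8 * ((4 * a ^ 2 + 4 / R ^ 2) * ((36 * e1 ^ 2 * (c * X + 2) ^ 2 + (c * X + 1) ^ 2 * t ^ 2) * S0)) =
        8 * (4 * a ^ 2) * (36 * e1 ^ 2 * (c * X + 2) ^ 2 + (c * X + 1) ^ 2 * t ^ 2) * S0 +
        32 * (36 * (e1 ^ 2 / R ^ 2) * (c * X + 2) ^ 2 + (c * X + 1) ^ 2 * (t ^ 2 / R ^ 2)) * S0 := by
      ring
    rw [e]
    have k1 : 36 * e1 ^ 2 * (c * X + 2) ^ 2 + (c * X + 1) ^ 2 * t ^ 2 ≤
        36 * h * ((c + 2) ^ 2 * X ^ 2) + ((c + 2) ^ 2 * X ^ 2) * h := by gcongr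
    have k2 : 36 * (e1 ^ 2 / R ^ 2) * (c * X + 2) ^ 2 + (c * X + 1) ^ 2 * (t ^ 2 / R ^ 2) ≤
        36 * h * ((c + 2) ^ 2 * X ^ 2) + ((c + 2) ^ 2 * X ^ 2) * h := by gcongr
    calc _ ≤ 8 * X ^ 2 * (36 * h * ((c + 2) ^ 2 * X ^ 2) + ((c + 2) ^ 2 * X ^ 2) * h) * S0 +
          32 * (36 * h * ((c + 2) ^ 2 * X ^ 2) + ((c + 2) ^ 2 * X ^ 2) * h) * S0 := by gcongr
      _ = 296 * (c + 2) ^ 2 * S0 * X ^ 4 * h + 1184 * (c + 2) ^ 2 * S0 * X ^ 2 * h := by ring
      _ ≤ 296 * (c + 2) ^ 2 * S0 * X ^ 4 * h + 1184 * (c + 2) ^ 2 * S0 * X ^ 4 * h := by gcongr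
      _ = _ := by ring
  have e : 80 * (32 * (22 + c) * X * h + t) * N +
        8 * (t ^ 2 * S0 + (4 * a ^ 2 + 4 / R ^ 2) * ((36 * e1 ^ 2 * (c * X + 2) ^ 2 + (c * X + 1) ^ 2 * t ^ 2) * S0)) =
      80 * (32 * (22 + c) * X * h + t) * N + 8 * (t ^ 2 * S0) +
        8 * ((4 * a ^ 2 + 4 / R ^ 2) * ((36 * e1 ^ 2 * (c * X + 2) ^ 2 + (c * X + 1) ^ 2 * t ^ 2) * S0)) := by
    ring
  rw [e]
  calc _ ≤ 160 * b * (32 * (22 + c) + 1) * X ^ 4 * h + 8 * S0 * X ^ 4 * h +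
        1480 * (c + 2) ^ 2 * S0 * X ^ 4 * h := add_le_add (add_le_add b1 b2) b3
    _ = _ := by ring

open Classical in
/-- **The weights of the zeros of the ground states near the zeros of zeta.** -/
theorem zeta_mass {c δf : ℝ} (hc0 : 0 < c) (hc : c < 4 * Real.pi) (hδf : 0 < δf) :
    ∃ δ X0 : ℝ, 0 < δ ∧ 3 ≤ X0 ∧ ∀ X : ℝ, X0 ≤ X →
    0 ≤ zetaDat.low (Real.log X / 2) → ∀ p0 : Zr, |(zz p0).im| ≤ c * X →
    ∃ R ro : ℝ, 0 < R ∧ 4 * R ≤ ro ∧ ro ≤ Real.exp (-(δ * X / Real.log X)) ∧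
      2 * Real.exp (-(δf * X / Real.log X)) ≤ R ∧
      (∀ ρ, ‖zz ρ - zz p0‖ ≤ ro → 4 * ‖zz ρ - zz p0‖ ≤ R) ∧
      ∀ (ζ : Type) (p : ζ → ℂ) (ν : ζ → ℝ), GR.TraceF zetaDat (Real.log X / 2) p ν →
        (Summable fun s => if ‖p s - zz p0‖ ≤ R then ν s else 0) ∧
        |(∑' s, if ‖p s - zz p0‖ ≤ R then ν s else 0) - cnt (zz p0) R| ≤
          Real.exp (-(δ * X / Real.log X ^ 2)) := by
  obtain ⟨δ1, X1, hδ1, hX1, h1⟩ := near_line hc0 hc
  obtain ⟨δ', δ2, X2, hδ', hδ2, hX2, h2⟩ := near5 hc0 hc (lt_min hδ1 hδf)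
  obtain ⟨b, hb1, hb⟩ := wcount
  set K := 160 * b * (32 * (22 + c) + 1) + 8 * S0 + 1480 * (c + 2) ^ 2 * S0 with hK
  have hev : ∀ᶠ X : ℝ in atTop,
      K * X ^ 4 ≤ Real.exp (δ2 / 2 * X / Real.log X ^ 2) ∧
      80 * (32 * (22 + c) + 1) * X ^ 1 ≤ Real.exp (δ2 * X / Real.log X ^ 2) ∧
      4 * δ2 / δ' ≤ Real.log X ∧ 1 ≤ Real.log X ∧ 3 + c ≤ X := by
    refine (ev_exp_log2 K 4 (by positivity)).and ((ev_exp_log2 _ 1 hδ2).and
      ((Real.tendsto_log_atTop.eventually_ge_atTop _).and ((Real.tendsto_log_atTop.eventually_ge_atTop _).and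
      (eventually_ge_atTop _))))
  obtain ⟨X3, hX3⟩ := eventually_atTop.mp hev
  set δ := min δ' (δ2 / 2) with hδ
  have hδ0 : 0 < δ := lt_min hδ' (by positivity)
  refine ⟨δ, max (max X1 X2) X3, hδ0, hX1.trans ((le_max_left _ _).trans (le_max_left _ _)),
    fun X hX hl p0 hp0 => ?_⟩
  have hXa : X1 ≤ X := (le_max_left _ _).trans ((le_max_left _ _).trans hX)
  have hXb : X2 ≤ X := (le_max_right _ _).trans ((le_max_left _ _).trans hX)
  obtain ⟨x1, x2, x3, x4, x5⟩ := hX3 X ((le_max_right _ _).trans hX)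
  have hX16 : 16 ≤ X := hX2.trans hXb
  have hX0 : 0 < X := by linarith
  have hL0 : 0 < Real.log X := by linarith
  have ha : 0 < Real.log X / 2 := by linarith
  set h := th δ2 X with hh
  have hh0 : 0 < h := th_pos δ2 X
  have hinv : h * Real.exp (δ2 * X / Real.log X ^ 2) = 1 := by
    rw [hh]
    unfold th
    rw [← Real.exp_add, neg_add_cancel, Real.exp_zero]
  have hXh : 80 * (32 * (22 + c) + 1) * X * h ≤ 1 := by
    rw [pow_one] at x2
    calc _ ≤ Real.exp (δ2 * X / Real.log X ^ 2) * h := by gcongr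
      _ = 1 := by rw [mul_comm, hinv]
  have hh80 : 80 * h ≤ 1 := by
    refine le_trans ?_ hXh
    have : (1 : ℝ) ≤ (32 * (22 + c) + 1) * X := by nlinarith
    calc 80 * h = 80 * 1 * h := by ring
      _ ≤ 80 * ((32 * (22 + c) + 1) * X) * h := by gcongr
      _ = _ := by ring
  have hfin : K * X ^ 4 * h ≤ Real.exp (-(δ * X / Real.log X ^ 2)) := by
    have e : h = Real.exp (-(δ2 / 2 * X / Real.log X ^ 2)) * Real.exp (-(δ2 / 2 * X / Real.log X ^ 2)) := by
      rw [hh]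
      unfold th
      rw [← Real.exp_add]
      congr 1
      ring
    rw [e, ← mul_assoc]
    calc K * X ^ 4 * Real.exp (-(δ2 / 2 * X / Real.log X ^ 2)) * Real.exp (-(δ2 / 2 * X / Real.log X ^ 2)) ≤
          Real.exp (δ2 / 2 * X / Real.log X ^ 2) * Real.exp (-(δ2 / 2 * X / Real.log X ^ 2)) *
            Real.exp (-(δ2 / 2 * X / Real.log X ^ 2)) := by gcongr
      _ = Real.exp (-(δ2 / 2 * X / Real.log X ^ 2)) := by
          rw [← Real.exp_add, add_neg_cancel, Real.exp_zero, one_mul]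
      _ ≤ _ := by
          apply Real.exp_le_exp.mpr
          have : δ * X / Real.log X ^ 2 ≤ δ2 / 2 * X / Real.log X ^ 2 := by
            gcongr
            exact min_le_right _ _
          linarith
  have hE : Real.exp (-(δ' * X)) ≤ h ^ 4 := by
    rw [hh]
    unfold th
    rw [← Real.exp_nat_mul]
    apply Real.exp_le_exp.mpr
    rw [div_le_iff₀ hδ'] at x3
    have h3 : 4 * (δ2 * X / Real.log X ^ 2) ≤ δ' * X := by
      have h4 : 4 * δ2 ≤ δ' * Real.log X ^ 2 := by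
        have : δ' * Real.log X ≤ δ' * Real.log X ^ 2 := by
          gcongr
          nlinarith
        linarith
      have h5 : 4 * (δ2 * X / Real.log X ^ 2) = 4 * δ2 * X / Real.log X ^ 2 := by ring
      rw [h5, div_le_iff₀ (by positivity)]
      nlinarith
    push_cast
    linarith
  have hmin : ∀ {δ'' : ℝ}, min δ1 δf ≤ δ'' →
      Real.exp (-(δ'' * X / Real.log X)) ≤ Real.exp (-(min δ1 δf * X / Real.log X)) := by
    intro δ'' h
    apply Real.exp_le_exp.mpr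
    have : min δ1 δf * X / Real.log X ≤ δ'' * X / Real.log X := by gcongr
    linarith
  -- the case of a nonnegative real part
  have hmain : ∀ p0 : Zr, |(zz p0).im| ≤ c * X → 0 ≤ (zz p0).re →
      ∃ R ro : ℝ, 0 < R ∧ 4 * R ≤ ro ∧ ro ≤ Real.exp (-(δ * X / Real.log X)) ∧
      2 * Real.exp (-(δf * X / Real.log X)) ≤ R ∧
      (∀ ρ, ‖zz ρ - zz p0‖ ≤ ro → 4 * ‖zz ρ - zz p0‖ ≤ R) ∧
      ∀ (ζ : Type) (p : ζ → ℂ) (ν : ζ → ℝ), GR.TraceF zetaDat (Real.log X / 2) p ν →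
        (Summable fun s => if ‖p s - zz p0‖ ≤ R then ν s else 0) ∧
        |(∑' s, if ‖p s - zz p0‖ ≤ R then ν s else 0) - cnt (zz p0) R| ≤
          Real.exp (-(δ * X / Real.log X ^ 2)) := by
    intro p0 hp0 hre
    obtain ⟨g, F, τ, ro, g1, g2, ⟨g3, g4⟩, ⟨g5, g5'⟩, g6, g7, g8, g9, g10, g11⟩ :=
      h2 X hXb p0 hp0 hre ((h1 X hXa hl p0 hp0).trans (hmin (min_le_left _ _)))
    have hro0 : 0 < ro := (Real.exp_pos _).trans_le g3
    have hE0 : E0 δ' X ≤ Real.exp (-(δ' * X / Real.log X)) := by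
      unfold E0
      have := Real.exp_pos (-(δ' * X / Real.log X))
      linarith
    have hexp1 : Real.exp (-(δ' * X / Real.log X)) ≤ 1 := by
      rw [Real.exp_le_one_iff]
      have : 0 ≤ δ' * X / Real.log X := by positivity
      linarith
    have hro1 : ro ≤ 1 := g4.trans (hE0.trans hexp1)
    have hgT : g ∈ Ts (Real.log X / 2) := ⟨g1.smooth, fun x hx => g2 x fun hx2 => by
      have := abs_le.mpr ⟨hx2.1, hx2.2⟩
      linarith⟩
    set R := h * ro with hR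
    set t := Real.exp (-(δ' * X)) with ht
    have ht0 : 0 < t := Real.exp_pos _
    have hh1 : h ≤ 1 := by linarith
    have hth : t ≤ h := hE.trans (by
      calc h ^ 4 = h ^ 3 * h := by ring
        _ ≤ 1 * h := by
          gcongr
          exact pow_le_one₀ hh0.le hh1
        _ = h := one_mul _)
    have hro2 : t ≤ ro ^ 2 := by
      calc t = Real.exp (-(δ' / 2 * X)) ^ 2 := by
            rw [← Real.exp_nat_mul, ht]
            congr 1
            push_cast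
            ring
        _ ≤ ro ^ 2 := by gcongr
    have htR : t ^ 2 ≤ h ^ 2 * R ^ 2 := by
      calc t ^ 2 = t * t := sq t
        _ ≤ h ^ 4 * ro ^ 2 := by gcongr
        _ = h ^ 2 * R ^ 2 := by rw [hR]; ring
    have hR0 : 0 < R := by positivity
    have h8 : 8 * h ≤ 1 := by linarith
    have h4R : 4 * R ≤ ro := by
      calc 4 * R = 4 * h * ro := by rw [hR]; ring
        _ ≤ 1 * ro := by
          gcongr
          linarith
        _ = ro := one_mul _
    have hRro : R ≤ ro := by linarith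
    have he1R : 4 * (h ^ 2 * ro) ≤ R := by
      calc 4 * (h ^ 2 * ro) = 4 * h * R := by rw [hR]; ring
        _ ≤ 1 * R := by
          gcongr
          linarith
        _ = R := one_mul _
    refine ⟨R, ro, hR0, h4R, ?_, ?_, fun ρ hρ => ?_, fun ζ p ν hF => ?_⟩
    · refine g4.trans (hE0.trans ?_)
      apply Real.exp_le_exp.mpr
      have : δ * X / Real.log X ≤ δ' * X / Real.log X := by
        gcongr
        exact min_le_left _ _
      linarith
    · have k1 := hmin (min_le_right δ1 δf)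
      have k2 := Real.exp_pos (-(min δ1 δf * X / Real.log X))
      linarith
    · have := g6 ρ hρ
      linarith
    · have hft : 32 * (22 + c) * X * h + t ≤ 1 / 80 := by
        have k1 : 32 * (22 + c) * X * h + t ≤ (32 * (22 + c) + 1) * X * h := by nlinarith
        linarith
      have k := mass_core (a := Real.log X / 2) (t := t) (f := 32 * (22 + c) * X * h) (e1 := h ^ 2 * ro) (R := R)
        (ro := ro) (M := c * X) (p0 := p0) (g := ⟨g, hgT⟩) (F := F) (τ := τ) (p := p) (ν := ν) ha hl hF g7 g8 g9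
        g6 g5 g10 g11 ht0.le hft (by linarith) hRro hR0 hro1 hp0
      refine ⟨k.1, k.2.trans (le_trans ?_ hfin)⟩
      refine mass_arith (R := R) hc0 (by linarith : (0:ℝ) ≤ b) hX16 hh0 hh1 S0_nonneg hro0 hro1 rfl rfl ht0.le hth htR
        (cnt_nonneg _ _) ?_ ?_ ha.le
      · refine (cnt_le hb _ (hRro.trans hro1)).trans ?_
        have k1 : Real.log (3 + |(zz p0).im|) ≤ Real.log (X ^ 2) := by
          apply Real.log_le_log (by positivity)
          nlinarith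
        rw [Real.log_pow] at k1
        have k2 := Real.log_le_self hX0.le
        push_cast at k1
        calc b * Real.log (3 + |(zz p0).im|) ≤ b * (2 * X) := by
              gcongr
              linarith
          _ = _ := by ring
      · have := Real.log_le_self hX0.le
        linarith
  rcases le_or_gt 0 (zz p0).re with hre | hre
  · exact hmain p0 hp0 hre
  · obtain ⟨R, ro, k1, k2, k2', k2'', k3', k3⟩ := hmain (reflE p0) (by rw [zz_refl]; simpa using hp0) (by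
      rw [zz_refl]
      simp
      linarith)
    refine ⟨R, ro, k1, k2, k2', k2'', fun ρ hρ => ?_, fun ζ p ν hF => ?_⟩
    · have k4 := k3' (reflE ρ)
      have e : ‖zz (reflE ρ) - zz (reflE p0)‖ = ‖zz ρ - zz p0‖ := by
        rw [zz_refl, zz_refl]
        have : -conj (zz ρ) - -conj (zz p0) = -conj (zz ρ - zz p0) := by
          rw [map_sub]
          ring
        rw [this, norm_neg, Complex.norm_conj]
      rw [e] at k4
      exact k4 hρ
    · have k4 := k3 ζ p ν hF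
      rw [zz_refl, cnt_refl] at k4
      have e : ∀ s, ‖p s - -conj (zz p0)‖ = ‖p s - zz p0‖ := fun s => norm_mir_im (hF.re s) _
      simp only [e] at k4
      exact k4

end Pool.Agent.Helper61.NZ
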