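import Pool.Agent.Helper61.NZ.Nj
import Pool.Agent.Helper61.NZ.Nn

set_option autoImplicit false

/-!
# The weights of the zeros of the ground states count the zeros of zeta
-/

namespace Pool.Agent.Helper61.NZ

open Complex Filter Topology Set MeasureTheory
open scoped ComplexConjugate ContDiff
open Pool.Agent.V11271.LI (Zr zz mm mm_one_le reflE zz_refl mm_refl zz_re zz_im Zr.im_ne)
open Pool.Agent.Helper76.LW (cf_zeta finite_zeta)
open Pool.Agent.Helper61.W Pool.Agent.Helper61.W.GS Pool.Agent.Helper61.GA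

/-- selection of the centers of the discs -/
lemma cover {ι : Type*} (z : ι → ℂ) (ro : ι → ℝ) (hro : ∀ p, 0 ≤ ro p) (A : Finset ι) :
    ∃ C : Finset ι, C ⊆ A ∧ (∀ q ∈ A, ∃ p ∈ C, ‖z q - z p‖ ≤ ro p) ∧
      ∀ p ∈ C, ∀ q ∈ C, p ≠ q → ro p < ‖z p - z q‖ := by
  classical
  induction A using Finset.strongInduction with
  | H A ih =>
    rcases A.eq_empty_or_nonempty with rfl | hA
    · exact ⟨∅, Finset.Subset.refl _, by simp, by simp⟩
    · obtain ⟨p0, hp0, hmax⟩ := Finset.exists_max_image A ro hA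
      have hB : A.filter (fun q => ro p0 < ‖z q - z p0‖) ⊂ A := by
        refine Finset.filter_ssubset.mpr ⟨p0, hp0, ?_⟩
        rw [sub_self, norm_zero]
        exact not_lt.mpr (hro p0)
      obtain ⟨C, hC1, hC2, hC3⟩ := ih _ hB
      refine ⟨insert p0 C, ?_, ?_, ?_⟩
      · intro q hq
        rcases Finset.mem_insert.mp hq with rfl | hq
        · exact hp0
        · exact (Finset.mem_filter.mp (hC1 hq)).1
      · intro q hq
        by_cases h : ro p0 < ‖z q - z p0‖
        · obtain ⟨p, hp, hpq⟩ := hC2 q (Finset.mem_filter.mpr ⟨hq, h⟩)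
          exact ⟨p, Finset.mem_insert_of_mem hp, hpq⟩
        · exact ⟨p0, Finset.mem_insert_self _ _, not_lt.mp h⟩
      · intro p hp q hq hne
        rcases Finset.mem_insert.mp hp with hp1 | hp1
        · rcases Finset.mem_insert.mp hq with hq1 | hq1
          · exact absurd (hp1.trans hq1.symm) hne
          · rw [norm_sub_rev, hp1]
            exact (Finset.mem_filter.mp (hC1 hq1)).2
        · rcases Finset.mem_insert.mp hq with hq1 | hq1
          · have h1 := Finset.mem_filter.mp (hC1 hp1)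
            rw [hq1]
            exact (hmax p h1.1).trans_lt h1.2
          · exact hC3 p hp1 q hq1 hne

/-- at most one disc contains a point -/
lemma sum_discs {ι : Type*} (C : Finset ι) (P : ι → Prop) [DecidablePred P] (Q : Prop) [Decidable Q] {m : ℝ}
    (hm : 0 ≤ m)
    (hd : ∀ p ∈ C, ∀ q ∈ C, P p → P q → p = q) (hQ : ∀ p ∈ C, P p → Q) :
    ∑ p ∈ C, (if P p then m else 0) ≤ if Q then m else 0 := by
  by_cases h : ∃ p ∈ C, P p
  · obtain ⟨p, hp, hP⟩ := h
    rw [Finset.sum_eq_single p (fun q hq hne => if_neg fun hPq => hne (hd q hq p hp hPq hP))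
      (fun h => absurd hp h), if_pos hP, if_pos (hQ p hp hP)]
  · push Not at h
    rw [Finset.sum_eq_zero fun p hp => if_neg (h p hp)]
    split_ifs
    · exact hm
    · exact le_rfl

lemma le_sum_discs {ι : Type*} (C : Finset ι) (P : ι → Prop) [DecidablePred P] (Q : Prop) [Decidable Q] {m : ℝ}
    (hm : 0 ≤ m)
    (hQ : Q → ∃ p ∈ C, P p) : (if Q then m else 0) ≤ ∑ p ∈ C, (if P p then m else 0) := by
  have hnn : ∀ p ∈ C, 0 ≤ (if P p then m else 0) := by
    intro p _
    split_ifs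
    · exact hm
    · exact le_rfl
  by_cases h : Q
  · obtain ⟨p, hp, hP⟩ := hQ h
    rw [if_pos h]
    have h1 := Finset.single_le_sum hnn hp
    rw [if_pos hP] at h1
    exact h1
  · rw [if_neg h]
    exact Finset.sum_nonneg hnn

open Classical in
/-- the number of the zeros of zeta in a strip -/
noncomputable def nn (t u : ℝ) : ℝ := ∑' ρ : Zr, if t ≤ (zz ρ).im ∧ (zz ρ).im ≤ u then mm ρ else 0

open Classical in
lemma nn_summable (t u : ℝ) :
    Summable fun ρ : Zr => if t ≤ (zz ρ).im ∧ (zz ρ).im ≤ u then mm ρ else 0 := by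
  refine Summable.of_nonneg_of_le (fun ρ => ?_) (fun ρ => ?_) (S0_sum.mul_left ((1 + |t| + |u|) ^ 2))
  · split_ifs
    · linarith [mm_one_le ρ]
    · exact le_rfl
  · have hm : 0 ≤ mm ρ := by linarith [mm_one_le ρ]
    split_ifs with h
    · have h2 : |(zz ρ).im| ≤ |t| + |u| := by
        rw [abs_le]
        constructor
        · linarith [h.1, neg_abs_le t, abs_nonneg u]
        · linarith [h.2, le_abs_self u, abs_nonneg t]
      have h4 : 1 ≤ (1 + |t| + |u|) ^ 2 / (1 + |(zz ρ).im|) ^ 2 := by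
        rw [one_le_div (by positivity)]
        exact pow_le_pow_left₀ (by positivity) (by linarith) 2
      calc mm ρ = mm ρ * 1 := (mul_one _).symm
        _ ≤ mm ρ * ((1 + |t| + |u|) ^ 2 / (1 + |(zz ρ).im|) ^ 2) := by gcongr
        _ = _ := by ring
    · positivity

/-- the number of the zeros up to a height -/
lemma card_le {T : ℝ} (hT : 0 ≤ T) (Z : Finset Zr) (hZ : ∀ ρ ∈ Z, |(zz ρ).im| ≤ T) :
    (Z.card : ℝ) ≤ (1 + T) ^ 2 * S0 := by
  have h1 : ∑ ρ ∈ Z, mm ρ / (1 + |(zz ρ).im|) ^ 2 ≤ S0 :=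
    S0_sum.sum_le_tsum Z fun ρ _ => div_nonneg (by linarith [mm_one_le ρ]) (by positivity)
  calc (Z.card : ℝ) = ∑ ρ ∈ Z, (1 : ℝ) := by simp
    _ ≤ ∑ ρ ∈ Z, (1 + T) ^ 2 * (mm ρ / (1 + |(zz ρ).im|) ^ 2) := by
        refine Finset.sum_le_sum fun ρ hρ => ?_
        have h2 := hZ ρ hρ
        have h3 := mm_one_le ρ
        have h4 : 1 ≤ (1 + T) ^ 2 / (1 + |(zz ρ).im|) ^ 2 := by
          rw [one_le_div (by positivity)]
          gcongr
        calc (1 : ℝ) = 1 * 1 := (mul_one _).symm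
          _ ≤ mm ρ * ((1 + T) ^ 2 / (1 + |(zz ρ).im|) ^ 2) := by gcongr
          _ = _ := by ring
    _ = (1 + T) ^ 2 * ∑ ρ ∈ Z, mm ρ / (1 + |(zz ρ).im|) ^ 2 := by rw [Finset.mul_sum]
    _ ≤ _ := by gcongr

open Classical in
/-- **The weights of the zeros of the ground states count the zeros of zeta.** -/
theorem zeta_count {c : ℝ} (hc0 : 0 < c) (hc : c < 4 * Real.pi) : ∃ δ X0 : ℝ, 0 < δ ∧ 3 ≤ X0 ∧ ∀ X : ℝ, X0 ≤ X →
    0 ≤ zetaDat.low (Real.log X / 2) →
    ∀ (ζ : Type) (P : ζ → ℂ) (ν : ζ → ℝ), GR.TraceF zetaDat (Real.log X / 2) P ν →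
      ∀ t u : ℝ, -(c * X) ≤ t → u ≤ c * X →
        nn (t + Real.exp (-(δ * X / Real.log X))) (u - Real.exp (-(δ * X / Real.log X))) -
            Real.exp (-(δ * X / Real.log X ^ 2)) ≤ ∑' s, (if t ≤ (P s).im ∧ (P s).im ≤ u then ν s else 0) ∧
        ∑' s, (if t ≤ (P s).im ∧ (P s).im ≤ u then ν s else 0) ≤
          nn (t - Real.exp (-(δ * X / Real.log X))) (u + Real.exp (-(δ * X / Real.log X))) +
            Real.exp (-(δ * X / Real.log X ^ 2)) := by
  have hpi := Real.pi_pos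
  obtain ⟨c', hcc, hc4⟩ : ∃ c', c < c' ∧ c' < 4 * Real.pi := exists_between hc
  have hc'0 : 0 < c' := hc0.trans hcc
  obtain ⟨δf, Xf, hδf, hXf, hfar⟩ := far_mass hc0 hc
  obtain ⟨δm, Xm, hδm, hXm, hmass⟩ := zeta_mass hc'0 hc4 hδf
  set δ := min (δm / 2) (δf / 2) with hδ
  have hδ0 : 0 < δ := lt_min (by positivity) (by positivity)
  have hS0 := S0_nonneg
  have hev : ∀ᶠ X : ℝ in atTop, (2 * ((1 + c') ^ 2 * S0 + 1) * X ^ 2 ≤ Real.exp (δ * X / Real.log X ^ 2)) ∧
      1 / (c' - c) ≤ X ∧ 1 ≤ Real.log X := by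
    exact (ev_exp_log2 _ 2 hδ0).and ((eventually_ge_atTop _).and (Real.tendsto_log_atTop.eventually_ge_atTop 1))
  obtain ⟨Xe, hXe⟩ := eventually_atTop.mp hev
  refine ⟨δ, max (max Xf Xm) Xe, hδ0, hXf.trans ((le_max_left _ _).trans (le_max_left _ _)),
    fun X hX hl ζ P ν hF t u ht hu => ?_⟩
  have hXa : Xf ≤ X := (le_max_left _ _).trans ((le_max_left _ _).trans hX)
  have hXb : Xm ≤ X := (le_max_right _ _).trans ((le_max_left _ _).trans hX)
  obtain ⟨x1, x2, x3⟩ := hXe X ((le_max_right _ _).trans hX)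
  have hX3 : 3 ≤ X := hXf.trans hXa
  have hX0 : 0 < X := by linarith
  have hL0 : 0 < Real.log X := by linarith
  have hcX : c * X + 1 ≤ c' * X := by
    rw [div_le_iff₀ (by linarith)] at x2
    linarith
  set e := Real.exp (-(δ * X / Real.log X)) with he
  set η := Real.exp (-(δ * X / Real.log X ^ 2)) with hη
  set ef := Real.exp (-(δf * X / Real.log X)) with hef
  set η1 := Real.exp (-(δm * X / Real.log X ^ 2)) with hη1
  have hef0 : 0 < ef := Real.exp_pos _
  have hη10 : 0 < η1 := Real.exp_pos _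
  have hem : Real.exp (-(δm * X / Real.log X)) ≤ e := by
    apply Real.exp_le_exp.mpr
    have : δ * X / Real.log X ≤ δm * X / Real.log X := by
      gcongr
      exact (min_le_left _ _).trans (by linarith)
    linarith
  have hef1 : ef ≤ 1 := by
    rw [hef, Real.exp_le_one_iff]
    have : 0 ≤ δf * X / Real.log X := by positivity
    linarith
  -- the error
  have herr : (1 + c' * X) ^ 2 * S0 * η1 + Real.exp (-(δf * X)) ≤ η := by
    have k1 : η1 ≤ η * η := by
      rw [hη, hη1, ← Real.exp_add]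
      apply Real.exp_le_exp.mpr
      have : 2 * δ * X / Real.log X ^ 2 ≤ δm * X / Real.log X ^ 2 := by
        gcongr
        linarith [min_le_left (δm / 2) (δf / 2)]
      have e2 : 2 * δ * X / Real.log X ^ 2 = δ * X / Real.log X ^ 2 + δ * X / Real.log X ^ 2 := by ring
      linarith
    have k2 : Real.exp (-(δf * X)) ≤ η * η := by
      rw [hη, ← Real.exp_add]
      apply Real.exp_le_exp.mpr
      have : 2 * δ * X / Real.log X ^ 2 ≤ δf * X / 1 := by
        gcongr
        · linarith [min_le_right (δm / 2) (δf / 2)]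
        · exact one_le_pow₀ x3
      have e2 : 2 * δ * X / Real.log X ^ 2 = δ * X / Real.log X ^ 2 + δ * X / Real.log X ^ 2 := by ring
      rw [div_one] at this
      linarith
    have hη0 : 0 < η := Real.exp_pos _
    have k3 : Real.exp (δ * X / Real.log X ^ 2) * η = 1 := by
      rw [hη, ← Real.exp_add, add_neg_cancel, Real.exp_zero]
    have k4 : (1 + c' * X) ^ 2 ≤ (1 + c') ^ 2 * X ^ 2 := by
      rw [← mul_pow]
      gcongr
      nlinarith
    have k5 : 1 ≤ X ^ 2 := one_le_pow₀ (by linarith)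
    calc (1 + c' * X) ^ 2 * S0 * η1 + Real.exp (-(δf * X)) ≤
          (1 + c') ^ 2 * X ^ 2 * S0 * (η * η) + 1 * (η * η) := by
          rw [one_mul]
          gcongr
      _ ≤ (1 + c') ^ 2 * X ^ 2 * S0 * (η * η) + X ^ 2 * (η * η) := by gcongr
      _ = (((1 + c') ^ 2 * S0 + 1) * X ^ 2) * η * η := by ring
      _ ≤ (2 * ((1 + c') ^ 2 * S0 + 1) * X ^ 2) * η * η := by
          have : 0 ≤ ((1 + c') ^ 2 * S0 + 1) * X ^ 2 * (η * η) := by positivity
          linarith
      _ ≤ Real.exp (δ * X / Real.log X ^ 2) * η * η := by gcongr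
      _ = η := by rw [k3, one_mul]
  -- the discs
  have hall : ∀ p0 : Zr, ∃ R ro : ℝ, 0 ≤ ro ∧ (|(zz p0).im| ≤ c' * X → 0 < R ∧ 4 * R ≤ ro ∧
      ro ≤ Real.exp (-(δm * X / Real.log X)) ∧ 2 * ef ≤ R ∧
      (∀ ρ, ‖zz ρ - zz p0‖ ≤ ro → 4 * ‖zz ρ - zz p0‖ ≤ R) ∧
      (Summable fun s => if ‖P s - zz p0‖ ≤ R then ν s else 0) ∧
        |(∑' s, if ‖P s - zz p0‖ ≤ R then ν s else 0) - cnt (zz p0) R| ≤ η1) := by
    intro p0
    by_cases h : |(zz p0).im| ≤ c' * X
    · obtain ⟨R, ro, k1, k2, k3, k4, k5, k6⟩ := hmass X hXb hl p0 h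
      exact ⟨R, ro, by linarith, fun _ => ⟨k1, k2, k3, k4, k5, (k6 ζ P ν hF).1, (k6 ζ P ν hF).2⟩⟩
    · exact ⟨0, 0, le_rfl, fun h' => absurd h' h⟩
  choose R ro hro hR using hall
  have hZf := finite_zeta (c' * X) (by positivity)
  obtain ⟨C, hC1, hC2, hC3⟩ := cover zz ro hro hZf.toFinset
  have hCm : ∀ p ∈ C, |(zz p).im| ≤ c' * X := fun p hp => by
    have := hC1 hp
    rw [Set.Finite.mem_toFinset] at this
    exact this
  -- disjointness
  have hdis : ∀ w : ℂ, ∀ p ∈ C, ∀ q ∈ C, ‖w - zz p‖ ≤ R p → ‖w - zz q‖ ≤ R q → p = q := by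
    intro w p hp q hq h1 h2
    by_contra hne
    have h3 := hC3 p hp q hq hne
    have h4 := hC3 q hq p hp (Ne.symm hne)
    rw [norm_sub_rev] at h4
    have h5 : ‖zz p - zz q‖ ≤ ‖w - zz q‖ + ‖w - zz p‖ := by
      calc ‖zz p - zz q‖ = ‖(w - zz q) - (w - zz p)‖ := by ring_nf
        _ ≤ _ := norm_sub_le _ _
    have h6 := (hR p (hCm p hp)).2.1
    have h7 := (hR q (hCm q hq)).2.1
    linarith [norm_nonneg (zz p - zz q)]
  -- the discs contain the zeros
  have hcovz : ∀ ρ : Zr, |(zz ρ).im| ≤ c' * X → ∃ p ∈ C, 4 * ‖zz ρ - zz p‖ ≤ R p := by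
    intro ρ hρ
    obtain ⟨p, hp, h1⟩ := hC2 ρ (by rw [Set.Finite.mem_toFinset]; exact hρ)
    exact ⟨p, hp, (hR p (hCm p hp)).2.2.2.2.1 ρ h1⟩
  have hRe : ∀ p ∈ C, 4 * R p ≤ e := fun p hp => by
    have h1 := hR p (hCm p hp)
    linarith [h1.2.1, h1.2.2.1]
  have hR0 : ∀ p ∈ C, 0 < R p := fun p hp => (hR p (hCm p hp)).1
  have himle : ∀ (w : ℂ) (p : Zr), |w.im - (zz p).im| ≤ ‖w - zz p‖ := fun w p => by
    have := Complex.abs_im_le_norm (w - zz p)
    rwa [Complex.sub_im] at this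
  -- the far part
  set far : ζ → Prop := fun s => |(P s).im| ≤ c * X ∧ ∀ ρ : Zr, ef ≤ ‖zz ρ - P s‖ with hfardef
  set f : ζ → ℝ := fun s => if far s then ν s else 0 with hf
  have hf0 : ∀ s, 0 ≤ f s := fun s => by
    simp only [hf]
    split_ifs
    · exact hF.nn s
    · exact le_rfl
  have hfb : ∀ S : Finset ζ, ∑ s ∈ S, f s ≤ Real.exp (-(δf * X)) := by
    intro S
    have h1 := hfar X hXa hl ζ P ν hF (S.filter far) (fun s hs => (Finset.mem_filter.mp hs).2)
    rwa [Finset.sum_filter] at h1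
  have hfs : Summable f := summable_of_sum_le hf0 hfb
  have hft : ∑' s, f s ≤ Real.exp (-(δf * X)) := hfs.tsum_le_of_sum_le hfb
  set w : ζ → ℝ := fun s => if t ≤ (P s).im ∧ (P s).im ≤ u then ν s else 0 with hw
  have hw0 : ∀ s, 0 ≤ w s := fun s => by
    simp only [hw]
    split_ifs
    · exact hF.nn s
    · exact le_rfl
  set D : Zr → ζ → ℝ := fun p s => if ‖P s - zz p‖ ≤ R p then ν s else 0 with hD
  have hDs : ∀ p ∈ C, Summable (D p) := fun p hp => (hR p (hCm p hp)).2.2.2.2.2.1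
  have hDm : ∀ p ∈ C, |(∑' s, D p s) - cnt (zz p) (R p)| ≤ η1 := fun p hp => (hR p (hCm p hp)).2.2.2.2.2.2
  have hcard : ∀ C' : Finset Zr, C' ⊆ C → (C'.card : ℝ) * η1 ≤ (1 + c' * X) ^ 2 * S0 * η1 := by
    intro C' h
    gcongr
    exact card_le (by positivity) C' fun ρ hρ => hCm ρ (h hρ)
  -- the upper bound
  set Cu := C.filter (fun p => t - R p ≤ (zz p).im ∧ (zz p).im ≤ u + R p) with hCu
  have hCuC : Cu ⊆ C := Finset.filter_subset _ _
  have hwle : ∀ s, w s ≤ f s + ∑ p ∈ Cu, D p s := by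
    intro s
    have hν := hF.nn s
    have hDn : 0 ≤ ∑ p ∈ Cu, D p s := Finset.sum_nonneg fun p _ => by
      simp only [hD]
      split_ifs
      · exact hν
      · exact le_rfl
    by_cases h : t ≤ (P s).im ∧ (P s).im ≤ u
    · simp only [hw, if_pos h]
      have him : |(P s).im| ≤ c * X := abs_le.mpr ⟨by linarith [h.1], by linarith [h.2]⟩
      by_cases h2 : ∀ ρ : Zr, ef ≤ ‖zz ρ - P s‖
      · have h3 : far s := ⟨him, h2⟩
        have h4 : f s = ν s := if_pos h3
        linarith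
      · push Not at h2
        obtain ⟨ρ, hρ⟩ := h2
        have h3 : |(zz ρ).im| ≤ c' * X := by
          have h4 := Complex.abs_im_le_norm (zz ρ - P s)
          rw [Complex.sub_im] at h4
          have h5 : |(zz ρ).im| ≤ |(zz ρ).im - (P s).im| + |(P s).im| := by
            calc |(zz ρ).im| = |((zz ρ).im - (P s).im) + (P s).im| := by ring_nf
              _ ≤ _ := abs_add_le _ _
          linarith
        obtain ⟨p, hp, hp2⟩ := hcovz ρ h3
        have h4 : ‖P s - zz p‖ ≤ R p := by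
          have h5 : ‖P s - zz p‖ ≤ ‖zz ρ - P s‖ + ‖zz ρ - zz p‖ := by
            calc ‖P s - zz p‖ = ‖(zz ρ - zz p) - (zz ρ - P s)‖ := by ring_nf
              _ ≤ ‖zz ρ - zz p‖ + ‖zz ρ - P s‖ := norm_sub_le _ _
              _ = _ := add_comm _ _
          have h6 := (hR p (hCm p hp)).2.2.2.1
          have h7 := hR0 p hp
          linarith
        have h5 := abs_le.mp ((himle (P s) p).trans h4)
        have h6 : p ∈ Cu := by
          rw [hCu, Finset.mem_filter]
          exact ⟨hp, by linarith [h.1, h5.1, h5.2], by linarith [h.2, h5.1, h5.2]⟩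
        have h7 := Finset.single_le_sum (f := fun p => D p s) (fun p _ => by
          show 0 ≤ D p s
          simp only [hD]
          split_ifs
          · exact hν
          · exact le_rfl) h6
        have h8 : D p s = ν s := if_pos h4
        have h9 := hf0 s
        have h10 : D p s ≤ ∑ p ∈ Cu, D p s := h7
        linarith
    · simp only [hw, if_neg h]
      linarith [hf0 s]
  have hDCs : ∀ C' : Finset Zr, C' ⊆ C → HasSum (fun s => ∑ p ∈ C', D p s) (∑ p ∈ C', ∑' s, D p s) :=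
    fun C' h => hasSum_sum fun p hp => (hDs p (h hp)).hasSum
  have hws : Summable w := Summable.of_nonneg_of_le hw0 hwle (hfs.add (hDCs Cu hCuC).summable)
  have hcs : ∀ C' : Finset Zr, HasSum (fun ρ => ∑ p ∈ C', (if ‖zz ρ - zz p‖ ≤ R p then mm ρ else 0))
      (∑ p ∈ C', cnt (zz p) (R p)) := fun C' => hasSum_sum fun p _ => (cnt_summable (zz p) (R p)).hasSum
  have hmm : ∀ ρ : Zr, 0 ≤ mm ρ := fun ρ => by linarith [mm_one_le ρ]
  constructor
  · -- the lower bound
    set Cl := C.filter (fun p => t + R p ≤ (zz p).im ∧ (zz p).im ≤ u - R p) with hCl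
    have hClC : Cl ⊆ C := Finset.filter_subset _ _
    have k1 : nn (t + e) (u - e) ≤ ∑ p ∈ Cl, cnt (zz p) (R p) := by
      rw [← (hcs Cl).tsum_eq]
      unfold nn
      refine (nn_summable _ _).tsum_le_tsum (fun ρ => ?_) (hcs Cl).summable
      refine le_sum_discs Cl (fun p => ‖zz ρ - zz p‖ ≤ R p) (t + e ≤ (zz ρ).im ∧ (zz ρ).im ≤ u - e)
        (hmm ρ) fun h => ?_
      have he0 : 0 < e := Real.exp_pos _
      have him : |(zz ρ).im| ≤ c' * X := abs_le.mpr ⟨by linarith [h.1], by linarith [h.2]⟩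
      obtain ⟨p, hp, hp2⟩ := hcovz ρ him
      have h1 := hR0 p hp
      have h2 := hRe p hp
      have h3 : ‖zz ρ - zz p‖ ≤ R p := by linarith [norm_nonneg (zz ρ - zz p)]
      have h4 := abs_le.mp ((himle (zz ρ) p).trans h3)
      exact ⟨p, by
        rw [hCl, Finset.mem_filter]
        exact ⟨hp, by linarith [h.1, h4.1, h4.2], by linarith [h.2, h4.1, h4.2]⟩, h3⟩
    have k2 : ∑ p ∈ Cl, cnt (zz p) (R p) ≤ ∑ p ∈ Cl, ((∑' s, D p s) + η1) :=
      Finset.sum_le_sum fun p hp => by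
        have := (abs_le.mp (hDm p (hClC hp))).1
        linarith
    have k3 : ∑ p ∈ Cl, ((∑' s, D p s) + η1) = (∑ p ∈ Cl, ∑' s, D p s) + Cl.card * η1 := by
      rw [Finset.sum_add_distrib, Finset.sum_const, nsmul_eq_mul]
    have k4 : ∑ p ∈ Cl, ∑' s, D p s ≤ ∑' s, w s := by
      rw [← (hDCs Cl hClC).tsum_eq]
      refine (hDCs Cl hClC).summable.tsum_le_tsum (fun s => ?_) hws
      refine sum_discs Cl (fun p => ‖P s - zz p‖ ≤ R p) (t ≤ (P s).im ∧ (P s).im ≤ u) (hF.nn s)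
        (fun p hp q hq => hdis (P s) p (hClC hp) q (hClC hq)) fun p hp h => ?_
      have h4 := abs_le.mp ((himle (P s) p).trans h)
      rw [hCl, Finset.mem_filter] at hp
      exact ⟨by linarith [hp.2.1, h4.1, h4.2], by linarith [hp.2.2, h4.1, h4.2]⟩
    have k5 := hcard Cl hClC
    have k6 := Real.exp_pos (-(δf * X))
    linarith
  · have k1 : ∑' s, w s ≤ ∑' s, f s + ∑ p ∈ Cu, ∑' s, D p s := by
      rw [← (hDCs Cu hCuC).tsum_eq, ← hfs.tsum_add (hDCs Cu hCuC).summable]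
      exact hws.tsum_le_tsum hwle (hfs.add (hDCs Cu hCuC).summable)
    have k2 : ∑ p ∈ Cu, ∑' s, D p s ≤ ∑ p ∈ Cu, (cnt (zz p) (R p) + η1) :=
      Finset.sum_le_sum fun p hp => by
        have := (abs_le.mp (hDm p (hCuC hp))).2
        linarith
    have k3 : ∑ p ∈ Cu, (cnt (zz p) (R p) + η1) = (∑ p ∈ Cu, cnt (zz p) (R p)) + Cu.card * η1 := by
      rw [Finset.sum_add_distrib, Finset.sum_const, nsmul_eq_mul]
    have k4 : ∑ p ∈ Cu, cnt (zz p) (R p) ≤ nn (t - e) (u + e) := by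
      rw [← (hcs Cu).tsum_eq]
      unfold nn
      refine (hcs Cu).summable.tsum_le_tsum (fun ρ => ?_) (nn_summable _ _)
      refine sum_discs Cu (fun p => ‖zz ρ - zz p‖ ≤ R p) (t - e ≤ (zz ρ).im ∧ (zz ρ).im ≤ u + e) (hmm ρ)
        (fun p hp q hq => hdis (zz ρ) p (hCuC hp) q (hCuC hq)) fun p hp h => ?_
      have h4 := abs_le.mp ((himle (zz ρ) p).trans h)
      have h1 := hR0 p (hCuC hp)
      have h2 := hRe p (hCuC hp)
      rw [hCu, Finset.mem_filter] at hp
      exact ⟨by linarith [hp.2.1, h4.1, h4.2], by linarith [hp.2.2, h4.1, h4.2]⟩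
    have k5 := hcard Cu hCuC
    linarith

end Pool.Agent.Helper61.NZ
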