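import Pool.Agent.Helper61.XL.Pos

set_option autoImplicit false

/-!
# Positivity of the lowest eigenvalue from nonnegativity for a larger interval
-/

namespace Pool.Agent.Helper61.NZ

open Complex Filter Topology Set MeasureTheory
open Pool.Agent.Helper61.W Pool.Agent.Helper61.W.GS Pool.Agent.Helper61.GA Pool.Agent.Helper61.XL
open scoped ComplexConjugate ContDiff Polynomial

variable {D : Dat} {a : ℝ}

/-- if the form is nonnegative for a larger interval, the lowest eigenvalue is positive -/
theorem low_pos' {b : ℝ} (ha : 0 < a) (hab : a < b) (hn0 : 0 ≤ D.low b) : 0 < D.low a := by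
  have hn : 0 ≤ D.low a := hn0.trans (low_anti (D := D) ha hab.le)
  rcases hn.lt_or_eq with h | h
  · exact h
  exfalso
  have h0a : D.low a = 0 := h.symm
  have hb : 0 < b := by linarith
  have h0b : D.low b = 0 := by
    apply le_antisymm _ hn0
    rw [← h0a]
    exact low_anti (D := D) ha hab.le
  obtain ⟨φ, hφ, hφ1⟩ := exists_ground (D := D) ha
  have hne : φ ≠ 0 := by
    rintro rfl
    simp at hφ1
  obtain ⟨z0, hz0⟩ : ∃ z0, ev a z0 φ ≠ 0 := by
    by_contra hcon
    push Not at hcon
    exact hne (E_zero (D := D) ha hφ hcon)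
  set d := Module.finrank ℂ (D.E hb) with hd
  set δ : ℝ := (b - a) / ((d : ℝ) + 1) with hδ
  have hba : 0 < b - a := by linarith
  have hδp : 0 < δ := by positivity
  have h1 : ∀ j : Fin (d + 1), ∃ χ : D.E hb, ∀ z, ev b z (χ : HL) = cexp (-z * δ) ^ (j : ℕ) * ev a z φ := by
    intro j
    have hv : a + |(j : ℕ) * δ| ≤ b := by
      rw [abs_of_nonneg (by positivity), hδ, ← mul_div_assoc]
      have hj : ((j : ℕ) : ℝ) ≤ (d : ℝ) + 1 := by
        have := j.2
        exact_mod_cast this.le
      have : ((j : ℕ) : ℝ) * (b - a) / ((d : ℝ) + 1) ≤ b - a := by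
        rw [div_le_iff₀ (by positivity), mul_comm]
        exact mul_le_mul_of_nonneg_left hj hba.le
      linarith
    obtain ⟨χ, hχ, h2⟩ := tl_ground (D := D) ha hb h0a h0b hφ hv
    refine ⟨⟨χ, hχ⟩, fun z => ?_⟩
    rw [h2, ← Complex.exp_nat_mul]
    congr 2
    push_cast
    ring
  choose χ hχ using h1
  have hli : LinearIndependent ℂ χ := by
    rw [Fintype.linearIndependent_iff]
    intro g hg i
    set p : Polynomial ℂ := ∑ j : Fin (d + 1), Polynomial.C (g j) * Polynomial.X ^ (j : ℕ) with hp
    have hroot : ∀ z, ev a z φ ≠ 0 → p.eval (cexp (-z * δ)) = 0 := by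
      intro z hz
      have h2 : ev b z ((∑ j, g j • χ j : D.E hb) : HL) = 0 := by rw [hg]; simp
      have h3 : ev b z ((∑ j, g j • χ j : D.E hb) : HL) = p.eval (cexp (-z * δ)) * ev a z φ := by
        rw [hp, Polynomial.eval_finsetSum, Finset.sum_mul, AddSubmonoidClass.coe_finsetSum, map_sum]
        refine Finset.sum_congr rfl fun j _ => ?_
        rw [Submodule.coe_smul, map_smul, hχ]
        simp [mul_assoc]
      rw [h2] at h3
      exact (mul_eq_zero.mp h3.symm).resolve_right hz
    have hinf : {x : ℂ | p.IsRoot x}.Infinite := by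
      -- real translates of `z0`
      have hcont : ContinuousAt (fun t : ℝ => ev a (z0 + t) φ) 0 := by
        have : Continuous fun t : ℝ => ev a (z0 + t) φ := (ev_cont φ).comp (by fun_prop)
        exact this.continuousAt
      have hev : ∀ᶠ t : ℝ in 𝓝 0, ev a (z0 + t) φ ≠ 0 := hcont.eventually_ne (by simpa using hz0)
      have hinj : Function.Injective fun t : ℝ => cexp (-(z0 + t) * δ) := by
        intro t t' htt
        have h4 := congrArg (fun w => ‖w‖) htt
        simp only [Complex.norm_exp] at h4
        have h5 := Real.exp_injective h4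
        simp only [neg_mul, Complex.neg_re, Complex.mul_re, Complex.add_re, Complex.ofReal_re, Complex.ofReal_im,
          mul_zero, sub_zero] at h5
        have h6 : (z0.re + t) * δ = (z0.re + t') * δ := by linarith
        have h7 := mul_right_cancel₀ hδp.ne' h6
        linarith
      have h3 := (infinite_of_mem_nhds (0 : ℝ) hev).image (f := fun t : ℝ => cexp (-(z0 + t) * δ)) hinj.injOn
      refine h3.mono ?_
      rintro _ ⟨t, ht, rfl⟩
      exact hroot _ ht
    have hp0 : p = 0 := Polynomial.eq_zero_of_infinite_isRoot p hinf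
    have h5 : p.coeff i = g i := by
      rw [hp, Polynomial.finsetSum_coeff]
      rw [Finset.sum_eq_single i]
      · simp
      · intro j _ hj
        rw [Polynomial.coeff_C_mul_X_pow, if_neg]
        intro heq
        exact hj (Fin.ext heq.symm)
      · simp
    rw [← h5, hp0, Polynomial.coeff_zero]
  have h6 := hli.fintype_card_le_finrank
  rw [Fintype.card_fin, ← hd] at h6
  omega

end Pool.Agent.Helper61.NZ
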